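import Pool.Agent.X184.HkDefs

set_option autoImplicit false

open MeasureTheory Set Filter Topology
open scoped ComplexConjugate ENNReal

namespace Pool.Agent.X184.Hk

noncomputable section

variable {n : ℕ}

/-- the torus -/
abbrev Tor (n : ℕ) := Fin n → Circle

instance : MeasurableSpace (Tor n) := borel _
instance : BorelSpace (Tor n) := ⟨rfl⟩

/-- normalised Haar measure on the torus -/
def ν (n : ℕ) : Measure (Tor n) := Measure.haarMeasure ⊤

instance : IsProbabilityMeasure (ν n) := ⟨by unfold ν; exact Measure.haarMeasure_self⟩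
instance : (ν n).IsMulLeftInvariant := by unfold ν; infer_instance
instance : (ν n).IsOpenPosMeasure := by unfold ν; infer_instance

theorem integral_mul_right (f : Tor n → ℂ) (g : Tor n) :
    ∫ x, f (x * g) ∂(ν n) = ∫ x, f x ∂(ν n) := by
  simp_rw [mul_comm _ g]
  exact integral_mul_left_eq_self f g

/-- action of the torus -/
def act (u : Tor n) (z : Fin n → ℂ) : Fin n → ℂ := fun j => (u j : ℂ) * z j

theorem act_act (u v : Tor n) (z : Fin n → ℂ) : act u (act v z) = act (u * v) z := by
  funext j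
  simp [act, mul_assoc]

@[simp] theorem act_one (z : Fin n → ℂ) : act 1 z = z := by
  funext j
  simp [act]

theorem continuous_act : Continuous (fun p : Tor n × (Fin n → ℂ) => act p.1 p.2) := by
  apply continuous_pi
  intro j
  unfold act
  fun_prop

theorem norm_act (u : Tor n) (z : Fin n → ℂ) : ‖act u z‖ = ‖z‖ := by
  simp only [act, Pi.norm_def, nnnorm_mul]
  congr 2
  funext j
  have : ‖(u j : ℂ)‖₊ = 1 := by
    ext
    simp
  rw [this, one_mul]

theorem act_sub (u : Tor n) (z w : Fin n → ℂ) : act u (z - w) = act u z - act u w := by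
  funext j
  simp [act, mul_sub]

theorem isometry_act (u : Tor n) : Isometry (act u) :=
  Isometry.of_dist_eq fun z w => by
    rw [dist_eq_norm, dist_eq_norm, ← act_sub, norm_act]

/-- the action as a linear map -/
def actL (u : Tor n) : (Fin n → ℂ) →L[ℂ] (Fin n → ℂ) :=
  ContinuousLinearMap.pi fun j => (u j : ℂ) • ContinuousLinearMap.proj j

theorem actL_apply (u : Tor n) (z : Fin n → ℂ) : actL u z = act u z := by
  funext j
  simp [actL, act]

theorem norm_actL_le (u : Tor n) : ‖actL u‖ ≤ 1 := by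
  refine ContinuousLinearMap.opNorm_le_bound _ zero_le_one fun z => ?_
  rw [actL_apply, norm_act, one_mul]

theorem measurePreserving_act (u : Tor n) :
    MeasurePreserving (act u) (volume : Measure (Fin n → ℂ)) volume := by
  have h : ∀ j : Fin n, MeasurePreserving (fun z : ℂ => (u j : ℂ) * z) volume volume := by
    intro j
    have h2 : (fun z : ℂ => (u j : ℂ) * z) = ⇑(rotation (u j)) := by
      funext z
      rw [rotation_apply]
    rw [h2]
    exact (rotation (u j)).measurePreserving
  exact volume_preserving_pi h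

theorem measurableEmbedding_act (u : Tor n) : MeasurableEmbedding (act u) :=
  (isometry_act u).isClosedEmbedding.measurableEmbedding

/-- characters of the torus -/
def chr (β : Fin n → ℤ) (u : Tor n) : ℂ := ∏ j, (u j : ℂ) ^ (β j)

theorem chr_mul (β : Fin n → ℤ) (u v : Tor n) : chr β (u * v) = chr β u * chr β v := by
  simp [chr, mul_zpow, Finset.prod_mul_distrib]

theorem chr_add (β γ : Fin n → ℤ) (u : Tor n) : chr (β + γ) u = chr β u * chr γ u := by
  simp only [chr, Pi.add_apply, ← Finset.prod_mul_distrib]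
  refine Finset.prod_congr rfl fun j _ => ?_
  rw [zpow_add₀ (Circle.coe_ne_zero _)]

@[simp] theorem chr_zero (u : Tor n) : chr (0 : Fin n → ℤ) u = 1 := by
  simp [chr]

@[simp] theorem norm_chr (β : Fin n → ℤ) (u : Tor n) : ‖chr β u‖ = 1 := by
  simp [chr, norm_prod]

theorem chr_ne_zero (β : Fin n → ℤ) (u : Tor n) : chr β u ≠ 0 := by
  intro h
  have := norm_chr β u
  rw [h, norm_zero] at this
  exact zero_ne_one this

theorem chr_neg (β : Fin n → ℤ) (u : Tor n) : chr (-β) u = (chr β u)⁻¹ := by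
  simp [chr]

theorem conj_chr (β : Fin n → ℤ) (u : Tor n) : conj (chr β u) = chr (-β) u := by
  rw [chr_neg]
  exact (Complex.inv_eq_conj (norm_chr β u)).symm

theorem chr_mul_chr_neg (β : Fin n → ℤ) (u : Tor n) : chr β u * chr (-β) u = 1 := by
  rw [chr_neg, mul_inv_cancel₀ (chr_ne_zero β u)]

theorem continuous_chr (β : Fin n → ℤ) : Continuous (chr β : Tor n → ℂ) := by
  unfold chr
  refine continuous_finsetProd _ fun j _ => ?_
  have h : Continuous fun u : Tor n => (u j : ℂ) := by fun_prop
  exact h.zpow₀ _ fun u => Or.inl (Circle.coe_ne_zero _)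

/-- invariance of a set under the torus -/
def Inv (K : Set (Fin n → ℂ)) : Prop := ∀ u : Tor n, ∀ z ∈ K, act u z ∈ K

theorem inv_of_reinhardt {Ω : Set (Fin n → ℂ)} (h : IsReinhardt Ω) : Inv Ω := by
  intro u z hz
  exact h z hz (fun j => (u j : ℂ)) (fun j => by simp)

theorem Inv.preimage {K : Set (Fin n → ℂ)} (h : Inv K) (u : Tor n) : act u ⁻¹' K = K := by
  ext z
  constructor
  · intro hz
    have := h u⁻¹ _ hz
    rwa [act_act, inv_mul_cancel, act_one] at this
  · exact h u z

/-- `g` has weight `β` on `Ω` -/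
def HasW (Ω : Set (Fin n → ℂ)) (β : Fin n → ℤ) (g : (Fin n → ℂ) → ℂ) : Prop :=
  ∀ u : Tor n, ∀ z ∈ Ω, g (act u z) = chr β u * g z

/-- the average of `g` of weight `β` -/
def Av (β : Fin n → ℤ) (g : (Fin n → ℂ) → ℂ) (z : Fin n → ℂ) : ℂ :=
  ∫ u, chr (-β) u * g (act u z) ∂(ν n)

theorem hasW_Av {Ω : Set (Fin n → ℂ)} (β : Fin n → ℤ) (g : (Fin n → ℂ) → ℂ) :
    HasW Ω β (Av β g) := by
  intro v z _
  unfold Av
  have h := integral_mul_right (fun u => chr β v * (chr (-β) u * g (act u z))) v
  rw [← integral_const_mul, ← h]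
  congr 1
  funext u
  rw [act_act, chr_mul]
  linear_combination (-(chr (-β) u * g (act (u * v) z))) * chr_mul_chr_neg β v

theorem HasW.mul {Ω : Set (Fin n → ℂ)} {β γ : Fin n → ℤ} {g h : (Fin n → ℂ) → ℂ}
    (hg : HasW Ω β g) (hh : HasW Ω γ h) : HasW Ω (β + γ) (fun z => g z * h z) := by
  intro u z hz
  simp only
  rw [hg u z hz, hh u z hz, chr_add]
  ring

theorem HasW.conj {Ω : Set (Fin n → ℂ)} {β : Fin n → ℤ} {g : (Fin n → ℂ) → ℂ}
    (hg : HasW Ω β g) : HasW Ω (-β) (fun z => conj (g z)) := by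
  intro u z hz
  simp only
  rw [hg u z hz, map_mul, conj_chr]

theorem HasW.const_mul {Ω : Set (Fin n → ℂ)} {β : Fin n → ℤ} {g : (Fin n → ℂ) → ℂ}
    (hg : HasW Ω β g) (c : ℂ) : HasW Ω β (fun z => c * g z) := by
  intro u z hz
  simp only
  rw [hg u z hz]
  ring

theorem HasW.sub {Ω : Set (Fin n → ℂ)} {β : Fin n → ℤ} {g h : (Fin n → ℂ) → ℂ}
    (hg : HasW Ω β g) (hh : HasW Ω β h) : HasW Ω β (fun z => g z - h z) := by
  intro u z hz
  simp only
  rw [hg u z hz, hh u z hz]
  ring

theorem setIntegral_act {K : Set (Fin n → ℂ)} (hK : Inv K) (g : (Fin n → ℂ) → ℂ) (u : Tor n) :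
    ∫ z in K, g (act u z) = ∫ z in K, g z := by
  have h := (measurePreserving_act u).setIntegral_preimage_emb (measurableEmbedding_act u) g K
  rwa [hK.preimage u] at h

/-- Averaging lemma. -/
theorem integral_Av {Ω K : Set (Fin n → ℂ)} (hKΩ : K ⊆ Ω) (hK : IsCompact K) (hKi : Inv K)
    {δ : Fin n → ℤ} {φ g : (Fin n → ℂ) → ℂ} (hφc : ContinuousOn φ Ω) (hφ : HasW Ω (-δ) φ)
    (hg : ContinuousOn g Ω) :
    ∫ z in K, φ z * g z = ∫ z in K, φ z * Av δ g z := by
  have h1 : ∀ u : Tor n, ∫ z in K, φ z * g z = ∫ z in K, φ z * (chr (-δ) u * g (act u z)) := by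
    intro u
    rw [← setIntegral_act hKi (fun z => φ z * g z) u]
    refine setIntegral_congr_fun hK.measurableSet fun z hz => ?_
    show φ (act u z) * g (act u z) = φ z * (chr (-δ) u * g (act u z))
    rw [hφ u z (hKΩ hz)]
    ring
  have h2 : ∫ z in K, φ z * g z
      = ∫ u, (∫ z in K, φ z * (chr (-δ) u * g (act u z))) ∂(ν n) := by
    simp_rw [← h1]
    rw [integral_const]
    simp
  rw [h2]
  have hint : Integrable (Function.uncurry fun (u : Tor n) (z : Fin n → ℂ) =>
      φ z * (chr (-δ) u * g (act u z))) ((ν n).prod (volume.restrict K)) := by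
    have hc : ContinuousOn (Function.uncurry fun (u : Tor n) (z : Fin n → ℂ) =>
      φ z * (chr (-δ) u * g (act u z))) ((univ : Set (Tor n)) ×ˢ K) := by
      have a1 : ContinuousOn (fun p : Tor n × (Fin n → ℂ) => φ p.2) (univ ×ˢ K) :=
        hφc.comp continuousOn_snd fun p hp => hKΩ hp.2
      have a2 : ContinuousOn (fun p : Tor n × (Fin n → ℂ) => chr (-δ) p.1) (univ ×ˢ K) :=
        (continuous_chr (-δ)).comp_continuousOn continuousOn_fst
      have a3 : ContinuousOn (fun p : Tor n × (Fin n → ℂ) => g (act p.1 p.2)) (univ ×ˢ K) :=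
        hg.comp continuous_act.continuousOn fun p hp => hKΩ (hKi p.1 _ hp.2)
      exact a1.mul (a2.mul a3)
    have hcomp : IsCompact ((univ : Set (Tor n)) ×ˢ K) := isCompact_univ.prod hK
    have h3 : IntegrableOn (Function.uncurry fun (u : Tor n) (z : Fin n → ℂ) =>
      φ z * (chr (-δ) u * g (act u z))) ((univ : Set (Tor n)) ×ˢ K) ((ν n).prod volume) :=
      hc.integrableOn_compact hcomp
    rw [IntegrableOn, ← Measure.prod_restrict, Measure.restrict_univ] at h3
    exact h3
  rw [integral_integral_swap hint]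
  refine setIntegral_congr_fun hK.measurableSet fun z _ => ?_
  show ∫ u, φ z * (chr (-δ) u * g (act u z)) ∂(ν n) = φ z * Av δ g z
  rw [integral_const_mul]
  rfl

/-- Orthogonality of different weights. -/
theorem integral_eq_zero_of_weight {K : Set (Fin n → ℂ)} (hKm : MeasurableSet K) (hKi : Inv K)
    {δ : Fin n → ℤ} (hδ : δ ≠ 0) {φ : (Fin n → ℂ) → ℂ} (hφ : HasW K δ φ) :
    ∫ z in K, φ z = 0 := by
  -- a torus element where the character is not one
  obtain ⟨u, hu⟩ : ∃ u : Tor n, chr δ u ≠ 1 := by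
    obtain ⟨j, hj⟩ : ∃ j, δ j ≠ 0 := by
      by_contra h
      push Not at h
      exact hδ (funext h)
    refine ⟨Function.update 1 j (Circle.exp (Real.pi / δ j)), ?_⟩
    have h1 : chr δ (Function.update 1 j (Circle.exp (Real.pi / δ j)) : Tor n) = -1 := by
      unfold chr
      rw [Finset.prod_eq_single j]
      · rw [Function.update_self, Circle.coe_exp, ← Complex.exp_int_mul]
        have h2 : (δ j : ℂ) ≠ 0 := by exact_mod_cast hj
        have h3 : (δ j : ℂ) * (((Real.pi / δ j : ℝ) : ℂ) * Complex.I) = Real.pi * Complex.I := by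
          push_cast
          field_simp
        rw [h3, Complex.exp_pi_mul_I]
      · intro i _ hij
        rw [Function.update_of_ne hij]
        simp
      · simp
    rw [h1]
    norm_num
  have h1 := setIntegral_act hKi φ u
  have h2 : ∫ z in K, φ (act u z) = chr δ u * ∫ z in K, φ z := by
    rw [← integral_const_mul]
    exact setIntegral_congr_fun hKm fun z hz => hφ u z hz
  rw [h2] at h1
  have h3 : (chr δ u - 1) * ∫ z in K, φ z = 0 := by linear_combination h1
  exact (mul_eq_zero.1 h3).resolve_left (sub_ne_zero.2 hu)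

end

end Pool.Agent.X184.Hk
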