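import Pool.Agent.X184.HkA

set_option autoImplicit false

open MeasureTheory Set Filter Topology
open scoped ComplexConjugate ENNReal

namespace Pool.Agent.X184.Hk

noncomputable section

variable {n : ℕ}

/-- Identity theorem for holomorphic functions on connected open subsets of `ℂⁿ`. -/
theorem identity {Ω : Set (Fin n → ℂ)} (hΩ : IsOpen Ω) (hc : IsPreconnected Ω)
    {g : (Fin n → ℂ) → ℂ}
    (hg : DifferentiableOn ℂ g Ω) {p : Fin n → ℂ} (hp : p ∈ Ω) (h0 : ∀ᶠ z in 𝓝 p, g z = 0) :
    ∀ z ∈ Ω, g z = 0 := by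
  set T : Set (Fin n → ℂ) := {z | ∀ᶠ w in 𝓝 z, g w = 0} with hT
  have hTo : IsOpen T := isOpen_setOfPred_eventually_nhds
  have hsub : Ω ⊆ T := by
    refine hc.subset_of_closure_inter_subset hTo ⟨p, hp, h0⟩ ?_
    rintro z₀ ⟨hz₀, hz₀Ω⟩
    obtain ⟨r, hr, hball⟩ := Metric.isOpen_iff.1 hΩ z₀ hz₀Ω
    obtain ⟨w, hwT, hw⟩ := Metric.mem_closure_iff.1 hz₀ r hr
    have hwB : w ∈ Metric.ball z₀ r := by rwa [Metric.mem_ball, dist_comm]
    show ∀ᶠ z in 𝓝 z₀, g z = 0
    filter_upwards [Metric.ball_mem_nhds z₀ hr] with z hz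
    set L : ℂ → (Fin n → ℂ) := fun l => w + l • (z - w) with hL
    have hLd : Differentiable ℂ L := by
      intro l
      exact ((differentiableAt_id.smul_const (z - w)).const_add w)
    set S : Set ℂ := L ⁻¹' Metric.ball z₀ r with hS
    have hSo : IsOpen S := Metric.isOpen_ball.preimage hLd.continuous
    have hSc : IsPreconnected S := by
      apply Convex.isPreconnected
      intro a ha b hb s t hs ht hst
      have h1 : L (s • a + t • b) = s • L a + t • L b := by
        funext j
        simp only [hL, Pi.add_apply, Pi.smul_apply, Pi.sub_apply, smul_eq_mul, Complex.real_smul]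
        have h2 : (s : ℂ) + t = 1 := by exact_mod_cast hst
        linear_combination (-(w j)) * h2
      show L (s • a + t • b) ∈ Metric.ball z₀ r
      rw [h1]
      exact convex_ball z₀ r ha hb hs ht hst
    have hφ : DifferentiableOn ℂ (g ∘ L) S :=
      hg.comp hLd.differentiableOn fun l hl => hball hl
    have hφa : AnalyticOnNhd ℂ (g ∘ L) S := hφ.analyticOnNhd hSo
    have h0S : (0 : ℂ) ∈ S := by
      show L 0 ∈ Metric.ball z₀ r
      simpa only [hL, zero_smul, add_zero] using hwB
    have h1S : (1 : ℂ) ∈ S := by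
      show L 1 ∈ Metric.ball z₀ r
      simpa only [hL, one_smul, add_sub_cancel] using hz
    have hev : (g ∘ L) =ᶠ[𝓝 0] 0 := by
      have hLc : Tendsto L (𝓝 0) (𝓝 w) := by
        have := hLd.continuous.tendsto 0
        simpa only [hL, zero_smul, add_zero] using this
      exact hLc.eventually hwT
    have := hφa.eqOn_zero_of_preconnected_of_eventuallyEq_zero hSc h0S hev h1S
    simpa only [hL, Function.comp, one_smul, add_sub_cancel, Pi.zero_apply] using this
  intro z hz
  exact (hsub hz).self_of_nhds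

/-- the map `ζ ↦ (p_j exp ζ_j)` -/
def Ex (p : Fin n → ℂ) (ζ : Fin n → ℂ) : Fin n → ℂ := fun j => p j * Complex.exp (ζ j)

theorem Ex_differentiable (p : Fin n → ℂ) : Differentiable ℂ (Ex p) := by
  unfold Ex
  rw [differentiable_pi]
  intro j
  fun_prop

@[simp] theorem Ex_zero (p : Fin n → ℂ) : Ex p 0 = p := by
  funext j; simp [Ex]

/-- A holomorphic function of weight `γ` is, near a point with nonzero coordinates, a
multiple of a monomial: in exponential coordinates. -/
theorem local_form {Ω : Set (Fin n → ℂ)} (hΩ : IsOpen Ω) {γ : Fin n → ℤ}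
    {g : (Fin n → ℂ) → ℂ} (hg : DifferentiableOn ℂ g Ω) (hw : HasW Ω γ g)
    {p : Fin n → ℂ} (hp : p ∈ Ω) :
    ∀ᶠ ζ in 𝓝 (0 : Fin n → ℂ), g (Ex p ζ) = g p * Complex.exp (∑ j, (γ j : ℂ) * ζ j) := by
  set s : (Fin n → ℂ) → ℂ := fun ζ => Complex.exp (-∑ j, (γ j : ℂ) * ζ j) with hs
  set h : (Fin n → ℂ) → ℂ := fun ζ => g (Ex p ζ) * s ζ with hh
  have hsd : Differentiable ℂ s := by
    rw [hs]
    fun_prop
  have hOo : IsOpen (Ex p ⁻¹' Ω) := hΩ.preimage (Ex_differentiable p).continuous
  have h0 : (0 : Fin n → ℂ) ∈ Ex p ⁻¹' Ω := by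
    show Ex p 0 ∈ Ω
    rw [Ex_zero]; exact hp
  have hhd : DifferentiableOn ℂ h (Ex p ⁻¹' Ω) := by
    apply DifferentiableOn.mul
    · exact hg.comp (Ex_differentiable p).differentiableOn fun ζ hζ => hζ
    · exact hsd.differentiableOn
  -- derivative vanishes
  have hder : ∀ ζ ∈ Ex p ⁻¹' Ω, fderiv ℂ h ζ = 0 := by
    intro ζ hζ
    have hdζ : DifferentiableAt ℂ h ζ := (hhd ζ hζ).differentiableAt (hOo.mem_nhds hζ)
    have hbasis : ∀ j : Fin n, fderiv ℂ h ζ (Pi.single j 1) = 0 := by
      intro j
      -- invariance in the imaginary direction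
      have hinv : ∀ t : ℝ, h (ζ + (t : ℂ) • (Pi.single j Complex.I : Fin n → ℂ)) = h ζ := by
        intro t
        set u : Tor n := Function.update 1 j (Circle.exp t) with hu
        have hE : Ex p (ζ + (t : ℂ) • (Pi.single j Complex.I : Fin n → ℂ)) = act u (Ex p ζ) := by
          funext i
          by_cases hij : i = j
          · subst hij
            simp only [Ex, act, hu, Function.update_self, Pi.add_apply, Pi.smul_apply,
              Pi.single_eq_same, smul_eq_mul, Circle.coe_exp, Complex.exp_add]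
            ring
          · simp [Ex, act, hu, Function.update_of_ne hij, Pi.single_eq_of_ne hij]
        have hchr : chr γ u = Complex.exp ((γ j : ℂ) * (t * Complex.I)) := by
          unfold chr
          rw [Finset.prod_eq_single j]
          · rw [hu, Function.update_self, Circle.coe_exp, ← Complex.exp_int_mul]
          · intro i _ hij
            rw [hu, Function.update_of_ne hij]
            simp
          · simp
        have hsum : ∑ i, (γ i : ℂ) * (ζ + (t : ℂ) • (Pi.single j Complex.I : Fin n → ℂ)) i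
            = (∑ i, (γ i : ℂ) * ζ i) + (γ j : ℂ) * (t * Complex.I) := by
          simp only [Pi.add_apply, Pi.smul_apply, smul_eq_mul, mul_add, Finset.sum_add_distrib]
          congr 1
          rw [Finset.sum_eq_single j]
          · simp
          · intro i _ hij
            simp [Pi.single_eq_of_ne hij]
          · simp
        simp only [hh, hs]
        rw [hE, hw u _ hζ, hchr, hsum, neg_add, Complex.exp_add, Complex.exp_neg
          ((γ j : ℂ) * (t * Complex.I))]
        have hne := Complex.exp_ne_zero ((γ j : ℂ) * (t * Complex.I))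
        field_simp
      -- derivative of the curve
      have hc1 : HasDerivAt (fun t : ℂ => h (ζ + t • (Pi.single j Complex.I : Fin n → ℂ)))
          (fderiv ℂ h ζ (Pi.single j Complex.I)) 0 := by
        have hline : HasDerivAt (fun t : ℂ => ζ + t • (Pi.single j Complex.I : Fin n → ℂ))
            (Pi.single j Complex.I) 0 := by
          have := ((hasDerivAt_id (0 : ℂ)).smul_const
            (Pi.single j Complex.I : Fin n → ℂ)).const_add ζ
          simpa using this
        have hf : HasFDerivAt h (fderiv ℂ h ζ) (ζ + (0 : ℂ) • (Pi.single j Complex.I)) := by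
          simpa using hdζ.hasFDerivAt
        exact hf.comp_hasDerivAt (0 : ℂ) hline
      have hc2 : HasDerivAt (fun t : ℝ => h (ζ + (t : ℂ) • (Pi.single j Complex.I : Fin n → ℂ)))
          (fderiv ℂ h ζ (Pi.single j Complex.I)) 0 := by
        have := hc1.comp_ofReal (z := 0)
        exact this
      have hc3 : HasDerivAt (fun _ : ℝ => h ζ) 0 (0 : ℝ) := hasDerivAt_const _ _
      have hfun : (fun t : ℝ => h (ζ + (t : ℂ) • (Pi.single j Complex.I : Fin n → ℂ)))
          = fun _ => h ζ := funext hinv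
      rw [hfun] at hc2
      have h4 : fderiv ℂ h ζ (Pi.single j Complex.I) = 0 := hc2.unique hc3
      have h5 : (Pi.single j Complex.I : Fin n → ℂ) = Complex.I • Pi.single j 1 := by
        rw [← Pi.single_smul, smul_eq_mul, mul_one]
      rw [h5, map_smul, smul_eq_mul] at h4
      exact (mul_eq_zero.1 h4).resolve_left Complex.I_ne_zero
    ext v
    rw [← Finset.univ_sum_single v]
    rw [map_sum]
    simp only [zero_apply]
    apply Finset.sum_eq_zero
    intro j _
    have : (Pi.single j (v j) : Fin n → ℂ) = v j • Pi.single j 1 := by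
      rw [← Pi.single_smul, smul_eq_mul, mul_one]
    rw [this, map_smul, hbasis, smul_zero]
  obtain ⟨r, hr, hball⟩ := Metric.isOpen_iff.1 hOo 0 h0
  filter_upwards [Metric.ball_mem_nhds (0 : Fin n → ℂ) hr] with ζ hζ
  have hconst : h ζ = h 0 := by
    refine (Metric.isOpen_ball).is_const_of_fderiv_eq_zero (𝕜 := ℂ)
      (convex_ball (0 : Fin n → ℂ) r).isPreconnected (hhd.mono hball)
      (fun x hx => hder x (hball hx)) hζ (Metric.mem_ball_self hr)
  simp only [hh, hs, Ex_zero] at hconst
  simp only [Pi.zero_apply, mul_zero, Finset.sum_const_zero, neg_zero, Complex.exp_zero,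
    mul_one] at hconst
  rw [← hconst, mul_assoc, ← Complex.exp_add, neg_add_cancel, Complex.exp_zero, mul_one]

/-- points near `p` are of the form `Ex p ζ` with `ζ` small -/
theorem exists_Ex {p : Fin n → ℂ} (hp : ∀ j, p j ≠ 0) {P : (Fin n → ℂ) → Prop}
    (h : ∀ᶠ ζ in 𝓝 (0 : Fin n → ℂ), P (Ex p ζ)) : ∀ᶠ z in 𝓝 p, P z := by
  have hlog : Tendsto (fun z : Fin n → ℂ => fun j => Complex.log (z j / p j)) (𝓝 p) (𝓝 0) := by
    rw [tendsto_pi_nhds]
    intro j
    have h1 : ContinuousAt (fun z : Fin n → ℂ => Complex.log (z j / p j)) p := by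
      apply ContinuousAt.clog
      · exact ((continuous_apply j).continuousAt).div_const _
      · rw [div_self (hp j)]
        exact Complex.one_mem_slitPlane
    have h2 := h1.tendsto
    rwa [div_self (hp j), Complex.log_one] at h2
  have hne : ∀ᶠ z in 𝓝 p, ∀ j, z j ≠ 0 := by
    rw [eventually_all]
    intro j
    exact (continuous_apply j).continuousAt.eventually_ne (hp j)
  filter_upwards [hlog.eventually h, hne] with z hz hz0
  have : Ex p (fun j => Complex.log (z j / p j)) = z := by
    funext j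
    simp only [Ex]
    rw [Complex.exp_log (div_ne_zero (hz0 j) (hp j)), mul_div_cancel₀ _ (hp j)]
  rwa [this] at hz

/-- there is a point of an open nonempty set with all coordinates nonzero -/
theorem exists_generic {Ω : Set (Fin n → ℂ)} (hΩ : IsOpen Ω) (hne : Ω.Nonempty) :
    ∃ p ∈ Ω, ∀ j, p j ≠ 0 := by
  have h : Dense {z : Fin n → ℂ | ∀ j, z j ≠ 0} := by
    have h1 : {z : Fin n → ℂ | ∀ j, z j ≠ 0} = Set.pi univ fun _ => ({0}ᶜ : Set ℂ) := by
      ext z; simp
    rw [h1]
    exact dense_pi _ fun j _ => dense_compl_singleton 0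
  obtain ⟨p, hp, hp2⟩ := h.exists_mem_open hΩ hne
  exact ⟨p, hp2, hp⟩

/-- Two holomorphic functions of the same weight are proportional. -/
theorem proportional {Ω : Set (Fin n → ℂ)} (hΩ : IsOpen Ω) (hc : IsPreconnected Ω)
    {γ : Fin n → ℤ} {g h : (Fin n → ℂ) → ℂ} (hg : DifferentiableOn ℂ g Ω)
    (hh : DifferentiableOn ℂ h Ω) (wg : HasW Ω γ g) (wh : HasW Ω γ h)
    (hne : ∃ z ∈ Ω, g z ≠ 0) : ∃ c : ℂ, ∀ z ∈ Ω, h z = c * g z := by
  obtain ⟨p, hp, hp0⟩ := exists_generic hΩ ⟨_, hne.choose_spec.1⟩
  have hgp : g p ≠ 0 := by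
    intro h0
    obtain ⟨z, hz, hz0⟩ := hne
    apply hz0
    refine identity hΩ hc hg hp ?_ z hz
    apply exists_Ex hp0
    filter_upwards [local_form hΩ hg wg hp] with ζ hζ
    rw [hζ, h0, zero_mul]
  refine ⟨h p / g p, fun z hz => ?_⟩
  have key : ∀ z ∈ Ω, h z - h p / g p * g z = 0 := by
    refine identity hΩ hc (hh.sub (hg.const_mul _)) hp ?_
    apply exists_Ex hp0
    filter_upwards [local_form hΩ hg wg hp, local_form hΩ hh wh hp] with ζ h1 h2
    rw [h1, h2]
    field_simp
    ring
  linear_combination key z hz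

end

end Pool.Agent.X184.Hk
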