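import Pool.Agent.X184.HkB

set_option autoImplicit false

open MeasureTheory Set Filter Topology
open scoped ComplexConjugate ENNReal

namespace Pool.Agent.X184.Hk

noncomputable section

variable {n : ℕ}

theorem continuous_actL : Continuous (fun u : Tor n => actL u) := by
  have h : (fun u : Tor n => actL u) = fun u => ∑ j, (u j : ℂ) •
      ((ContinuousLinearMap.single ℂ (fun _ : Fin n => ℂ) j).comp
        (ContinuousLinearMap.proj (R := ℂ) (φ := fun _ : Fin n => ℂ) j)) := by
    funext u
    ext v j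
    rw [actL_apply]
    simp [act, Finset.sum_apply, Pi.single_apply]
  rw [h]
  refine continuous_finsetSum _ fun j _ => ?_
  have h2 : Continuous fun u : Tor n => (u j : ℂ) := by fun_prop
  exact h2.smul continuous_const

/-- Cauchy estimate for the Frechet derivative. -/
theorem norm_fderiv_le {Ω : Set (Fin n → ℂ)} (hΩ : IsOpen Ω) {g : (Fin n → ℂ) → ℂ}
    (hg : DifferentiableOn ℂ g Ω) {y : Fin n → ℂ} {r M : ℝ} (hr : 0 < r)
    (hb : Metric.closedBall y r ⊆ Ω) (hM : ∀ z ∈ Metric.closedBall y r, ‖g z‖ ≤ M) :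
    ‖fderiv ℂ g y‖ ≤ M / r := by
  have hM0 : 0 ≤ M := (norm_nonneg _).trans (hM y (Metric.mem_closedBall_self hr.le))
  refine ContinuousLinearMap.opNorm_le_bound _ (by positivity) fun v => ?_
  by_cases hv : v = 0
  · subst hv; simp
  have hv0 : 0 < ‖v‖ := norm_pos_iff.2 hv
  set ρ : ℝ := r / ‖v‖ with hρ
  have hρ0 : 0 < ρ := by positivity
  set L : ℂ → (Fin n → ℂ) := fun l => y + l • v with hL
  have hLd : Differentiable ℂ L := fun l => ((differentiableAt_id.smul_const v).const_add y)
  have hLmem : ∀ l : ℂ, ‖l‖ ≤ ρ → L l ∈ Metric.closedBall y r := by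
    intro l hl
    rw [mem_closedBall_iff_norm]
    simp only [hL, add_sub_cancel_left, norm_smul]
    calc ‖l‖ * ‖v‖ ≤ ρ * ‖v‖ := by gcongr
      _ = r := by rw [hρ]; field_simp
  have hyΩ : y ∈ Ω := hb (Metric.mem_closedBall_self hr.le)
  have hdiff : DiffContOnCl ℂ (g ∘ L) (Metric.ball 0 ρ) := by
    apply DifferentiableOn.diffContOnCl
    refine hg.comp hLd.differentiableOn fun l hl => hb (hLmem l ?_)
    have := Metric.closure_ball_subset_closedBall hl
    rwa [mem_closedBall_zero_iff] at this
  have h1 := Complex.norm_deriv_le_of_forall_mem_sphere_norm_le (c := 0) hρ0 hdiff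
    (C := M) (fun l hl => hM _ (hLmem l (by rw [mem_sphere_zero_iff_norm] at hl; exact hl.le)))
  have h2 : HasDerivAt (g ∘ L) (fderiv ℂ g y v) 0 := by
    have hline : HasDerivAt L v 0 := by
      have := ((hasDerivAt_id (0 : ℂ)).smul_const v).const_add y
      rw [one_smul] at this
      exact this
    have hf : HasFDerivAt g (fderiv ℂ g y) (L 0) := by
      have : L 0 = y := by simp [hL]
      rw [this]
      exact ((hg y hyΩ).differentiableAt (hΩ.mem_nhds hyΩ)).hasFDerivAt
    exact hf.comp_hasDerivAt 0 hline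
  rw [h2.deriv] at h1
  calc ‖fderiv ℂ g y v‖ ≤ M / ρ := h1
    _ = M / r * ‖v‖ := by rw [hρ]; field_simp

/-- The average of a holomorphic function is holomorphic. -/
theorem differentiableOn_Av {Ω : Set (Fin n → ℂ)} (hΩ : IsOpen Ω) (hi : Inv Ω)
    {g : (Fin n → ℂ) → ℂ} (hg : DifferentiableOn ℂ g Ω) (β : Fin n → ℤ) :
    DifferentiableOn ℂ (Av β g) Ω := by
  intro z₀ hz₀
  apply DifferentiableAt.differentiableWithinAt
  obtain ⟨r, hr, hball⟩ := Metric.isOpen_iff.1 hΩ z₀ hz₀
  -- the compact set
  set C : Set (Fin n → ℂ) := (fun p : Tor n × (Fin n → ℂ) => act p.1 p.2) ''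
    (univ ×ˢ Metric.closedBall z₀ (r / 2)) with hC
  have hCc : IsCompact C := (isCompact_univ.prod (isCompact_closedBall _ _)).image continuous_act
  have hsub : Metric.closedBall z₀ (r / 2) ⊆ Ω := fun z hz => hball (by
    rw [Metric.mem_closedBall] at hz
    rw [Metric.mem_ball]
    linarith)
  have hCΩ : C ⊆ Ω := by
    rintro _ ⟨⟨u, z⟩, ⟨-, hz⟩, rfl⟩
    exact hi u z (hsub hz)
  obtain ⟨M, hM⟩ := hCc.exists_bound_of_continuousOn (hg.continuousOn.mono hCΩ)
  have hmemC : ∀ u : Tor n, ∀ z ∈ Metric.closedBall z₀ (r / 2), act u z ∈ C :=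
    fun u z hz => ⟨(u, z), ⟨mem_univ _, hz⟩, rfl⟩
  have hballC : ∀ u : Tor n, ∀ z ∈ Metric.ball z₀ (r / 4),
      Metric.closedBall (act u z) (r / 4) ⊆ C := by
    intro u z hz w hw
    have h1 : act u (act u⁻¹ w) = w := by rw [act_act, mul_inv_cancel, act_one]
    rw [← h1]
    apply hmemC
    rw [Metric.mem_closedBall] at hw ⊢
    rw [Metric.mem_ball] at hz
    have h2 : dist (act u⁻¹ w) z = dist w (act u z) := by
      rw [← (isometry_act u).dist_eq, h1]
    calc dist (act u⁻¹ w) z₀ ≤ dist (act u⁻¹ w) z + dist z z₀ := dist_triangle _ _ _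
      _ ≤ r / 4 + r / 4 := by rw [h2]; linarith
      _ = r / 2 := by ring
  have hr4 : 0 < r / 4 := by positivity
  have hzball : ∀ z ∈ Metric.ball z₀ (r / 4), z ∈ Metric.closedBall z₀ (r / 2) := by
    intro z hz
    rw [Metric.mem_ball] at hz
    rw [Metric.mem_closedBall]
    linarith
  have key := hasFDerivAt_integral_of_dominated_of_fderiv_le (𝕜 := ℂ) (μ := ν n)
    (F := fun z u => chr (-β) u * g (act u z))
    (F' := fun z u => chr (-β) u • (fderiv ℂ g (act u z)).comp (actL u))
    (x₀ := z₀) (bound := fun _ => M / (r / 4)) (Metric.ball_mem_nhds z₀ hr4)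
    ?_ ?_ ?_ ?_ ?_ ?_
  · exact key.differentiableAt
  · filter_upwards [Metric.ball_mem_nhds z₀ hr4] with z hz
    have hc : Continuous fun u : Tor n => chr (-β) u * g (act u z) := by
      refine (continuous_chr (-β)).mul ?_
      have h1 : Continuous fun u : Tor n => act u z :=
        continuous_act.comp (Continuous.prodMk_left z)
      exact hg.continuousOn.comp_continuous h1 fun u => hCΩ (hmemC u z (hzball z hz))
    exact hc.aestronglyMeasurable
  · have hc : Continuous fun u : Tor n => chr (-β) u * g (act u z₀) := by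
      refine (continuous_chr (-β)).mul ?_
      have h1 : Continuous fun u : Tor n => act u z₀ :=
        continuous_act.comp (Continuous.prodMk_left z₀)
      exact hg.continuousOn.comp_continuous h1 fun u => hi u z₀ hz₀
    exact hc.integrable_of_hasCompactSupport (HasCompactSupport.of_compactSpace _)
  · have h1 : Measurable fun u : Tor n => fderiv ℂ g (act u z₀) :=
      (measurable_fderiv ℂ g).comp
        (continuous_act.comp (Continuous.prodMk_left z₀)).measurable
    have h2 : AEStronglyMeasurable (fun u : Tor n => fderiv ℂ g (act u z₀)) (ν n) :=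
      h1.stronglyMeasurable.aestronglyMeasurable
    have h3 : AEStronglyMeasurable (fun u : Tor n => actL u) (ν n) :=
      continuous_actL.aestronglyMeasurable
    have h4 : AEStronglyMeasurable
        (fun u : Tor n => (fderiv ℂ g (act u z₀)).comp (actL u)) (ν n) := by
      have hcont : Continuous fun q : ((Fin n → ℂ) →L[ℂ] ℂ) × ((Fin n → ℂ) →L[ℂ] (Fin n → ℂ)) =>
          q.1.comp q.2 := by fun_prop
      exact hcont.comp_aestronglyMeasurable (h2.prodMk h3)
    exact (continuous_chr (-β)).aestronglyMeasurable.smul h4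
  · refine Eventually.of_forall fun u z hz => ?_
    rw [norm_smul, norm_chr, one_mul]
    calc ‖(fderiv ℂ g (act u z)).comp (actL u)‖ ≤ ‖fderiv ℂ g (act u z)‖ * ‖actL u‖ :=
          ContinuousLinearMap.opNorm_comp_le _ _
      _ ≤ ‖fderiv ℂ g (act u z)‖ * 1 := by
          gcongr
          exact norm_actL_le u
      _ ≤ M / (r / 4) := by
          rw [mul_one]
          exact norm_fderiv_le hΩ hg hr4 ((hballC u z hz).trans hCΩ)
            (fun w hw => hM w (hballC u z hz hw))
  · exact integrable_const _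
  · refine Eventually.of_forall fun u z hz => ?_
    have h1 : HasFDerivAt g (fderiv ℂ g (act u z)) (actL u z) := by
      rw [actL_apply]
      have hm : act u z ∈ Ω := hCΩ (hmemC u z (hzball z hz))
      exact ((hg _ hm).differentiableAt (hΩ.mem_nhds hm)).hasFDerivAt
    have h2 := (h1.comp z (actL u).hasFDerivAt).const_mul (chr (-β) u)
    refine h2.congr_of_eventuallyEq ?_
    refine Eventually.of_forall fun w => ?_
    simp [actL_apply]

end

end Pool.Agent.X184.Hk
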