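import Pool.Agent.X184.HkC

set_option autoImplicit false

open MeasureTheory Set Filter Topology
open scoped ComplexConjugate ENNReal

namespace Pool.Agent.X184.Hk

noncomputable section

variable {n : ℕ}

theorem exists_chr_ne_one {δ : Fin n → ℤ} (hδ : δ ≠ 0) : ∃ u : Tor n, chr δ u ≠ 1 := by
  obtain ⟨j, hj⟩ : ∃ j, δ j ≠ 0 := by
    by_contra h
    push Not at h
    exact hδ (funext h)
  refine ⟨Function.update 1 j (Circle.exp (Real.pi / δ j)), ?_⟩
  have h1 : chr δ (Function.update 1 j (Circle.exp (Real.pi / δ j)) : Tor n) = -1 := by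
    unfold chr
    rw [Finset.prod_eq_single j]
    · rw [Function.update_self, Circle.coe_exp, ← Complex.exp_int_mul]
      have h2 : (δ j : ℂ) ≠ 0 := by exact_mod_cast hj
      have h3 : (δ j : ℂ) * (((Real.pi / δ j : ℝ) : ℂ) * Complex.I) = Real.pi * Complex.I := by
        push_cast
        field_simp
      rw [h3, Complex.exp_pi_mul_I]
    · intro i _ hij
      rw [Function.update_of_ne hij]
      simp
    · simp
  rw [h1]
  norm_num

theorem integral_chr {δ : Fin n → ℤ} (hδ : δ ≠ 0) : ∫ u, chr δ u ∂(ν n) = 0 := by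
  obtain ⟨v, hv⟩ := exists_chr_ne_one hδ
  have h := integral_mul_right (fun u => chr δ u) v
  simp_rw [chr_mul] at h
  rw [integral_mul_const] at h
  have h3 : (chr δ v - 1) * ∫ u, chr δ u ∂(ν n) = 0 := by linear_combination h
  exact (mul_eq_zero.1 h3).resolve_left (sub_ne_zero.2 hv)

/-- characters as continuous maps -/
def cchr (β : Fin n → ℤ) : C(Tor n, ℂ) := ⟨chr β, continuous_chr β⟩

@[simp] theorem cchr_apply (β : Fin n → ℤ) (u : Tor n) : cchr β u = chr β u := rfl

theorem range_mul_mem (a b : C(Tor n, ℂ)) (ha : a ∈ range (cchr (n := n)))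
    (hb : b ∈ range (cchr (n := n))) : a * b ∈ range (cchr (n := n)) := by
  obtain ⟨β, rfl⟩ := ha
  obtain ⟨γ, rfl⟩ := hb
  refine ⟨β + γ, ?_⟩
  ext u
  simp [chr_add]

/-- the star subalgebra of trigonometric polynomials -/
def trig (n : ℕ) : StarSubalgebra ℂ C(Tor n, ℂ) where
  carrier := Submodule.span ℂ (range (cchr (n := n)))
  mul_mem' := by
    intro a b ha hb
    refine Submodule.span_induction₂ (p := fun a b _ _ => a * b ∈ Submodule.span ℂ
      (range (cchr (n := n)))) ?_ ?_ ?_ ?_ ?_ ?_ ?_ ha hb
    · intro x y hx hy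
      exact Submodule.subset_span (range_mul_mem x y hx hy)
    · intro y _; simp
    · intro y _; simp
    · intro x y z _ _ _ h1 h2
      rw [add_mul]; exact Submodule.add_mem _ h1 h2
    · intro x y z _ _ _ h1 h2
      rw [mul_add]; exact Submodule.add_mem _ h1 h2
    · intro r x y _ _ h
      rw [smul_mul_assoc]; exact Submodule.smul_mem _ _ h
    · intro r x y _ _ h
      rw [mul_smul_comm]; exact Submodule.smul_mem _ _ h
  add_mem' := fun ha hb => Submodule.add_mem _ ha hb
  algebraMap_mem' := by
    intro r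
    have h : (algebraMap ℂ C(Tor n, ℂ)) r = r • cchr 0 := by
      ext u
      simp
    rw [h]
    exact Submodule.smul_mem _ _ (Submodule.subset_span ⟨0, rfl⟩)
  star_mem' := by
    intro a ha
    refine Submodule.span_induction (p := fun a _ => star a ∈ Submodule.span ℂ
      (range (cchr (n := n)))) ?_ ?_ ?_ ?_ ha
    · rintro _ ⟨β, rfl⟩
      refine Submodule.subset_span ⟨-β, ?_⟩
      ext u
      simp only [cchr_apply, ContinuousMap.star_apply, RCLike.star_def]
      rw [conj_chr]
    · simp
    · intro x y _ _ h1 h2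
      rw [star_add]; exact Submodule.add_mem _ h1 h2
    · intro r x _ h
      rw [star_smul]; exact Submodule.smul_mem _ _ h

theorem trig_separates : (trig n).SeparatesPoints := by
  intro u v huv
  obtain ⟨j, hj⟩ : ∃ j, u j ≠ v j := by
    by_contra h
    push Not at h
    exact huv (funext h)
  refine ⟨cchr (Pi.single j 1), ⟨cchr (Pi.single j 1), Submodule.subset_span ⟨_, rfl⟩, rfl⟩, ?_⟩
  have h1 : ∀ w : Tor n, chr (Pi.single j 1) w = (w j : ℂ) := by
    intro w
    unfold chr
    rw [Finset.prod_eq_single j]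
    · simp
    · intro i _ hij
      simp [Pi.single_eq_of_ne hij]
    · simp
  simp only [cchr_apply, h1]
  intro h
  exact hj (Circle.ext h)

/-- A continuous function on the torus all of whose Fourier coefficients vanish is zero. -/
theorem eq_zero_of_fourier {φ : Tor n → ℂ} (hφ : Continuous φ)
    (h : ∀ β, ∫ u, chr (-β) u * φ u ∂(ν n) = 0) (u : Tor n) : φ u = 0 := by
  set Φ : C(Tor n, ℂ) := ⟨φ, hφ⟩ with hΦ
  -- the functional
  have hint : ∀ a : C(Tor n, ℂ), Integrable (fun u => a u * φ u) (ν n) := fun a =>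
    (a.continuous.mul hφ).integrable_of_hasCompactSupport (HasCompactSupport.of_compactSpace _)
  have hspan : ∀ a ∈ Submodule.span ℂ (range (cchr (n := n))),
      ∫ u, a u * φ u ∂(ν n) = 0 := by
    intro a ha
    refine Submodule.span_induction (p := fun a _ => ∫ u, a u * φ u ∂(ν n) = 0) ?_ ?_ ?_ ?_ ha
    · rintro _ ⟨β, rfl⟩
      have := h (-β)
      rwa [neg_neg] at this
    · simp
    · intro x y _ _ h1 h2
      simp only [ContinuousMap.add_apply, add_mul]
      rw [integral_add (hint x) (hint y), h1, h2, add_zero]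
    · intro r x _ h1
      simp only [ContinuousMap.smul_apply, smul_eq_mul, mul_assoc]
      rw [integral_const_mul, h1, mul_zero]
  have hclosed : IsClosed {a : C(Tor n, ℂ) | ∫ u, a u * φ u ∂(ν n) = 0} := by
    have hcont : Continuous fun a : C(Tor n, ℂ) => ∫ u, a u * φ u ∂(ν n) := by
      have hb : ∀ u : Tor n, ‖φ u‖ ≤ ‖Φ‖ := fun u => Φ.norm_coe_le_norm u
      refine LipschitzWith.continuous (K := ⟨‖Φ‖, norm_nonneg _⟩) ?_
      refine LipschitzWith.of_dist_le_mul fun a b => ?_
      rw [dist_eq_norm, ← integral_sub (hint a) (hint b)]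
      calc ‖∫ u, (a u * φ u - b u * φ u) ∂(ν n)‖ ≤ (‖Φ‖ * dist a b) * (ν n).real univ := by
            refine norm_integral_le_of_norm_le_const (Eventually.of_forall fun u => ?_)
            rw [← sub_mul, norm_mul, mul_comm]
            gcongr
            · exact hb u
            · rw [← dist_eq_norm]; exact ContinuousMap.dist_apply_le_dist u
        _ = ‖Φ‖ * dist a b := by simp
    exact isClosed_eq hcont continuous_const
  have hall : ∀ a : C(Tor n, ℂ), ∫ u, a u * φ u ∂(ν n) = 0 := by
    intro a
    have htop := ContinuousMap.starSubalgebra_topologicalClosure_eq_top_of_separatesPoints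
      (trig n) trig_separates
    have ha : a ∈ (trig n).topologicalClosure := by rw [htop]; trivial
    have ha2 : a ∈ closure ((Submodule.span ℂ (range (cchr (n := n))) : Set C(Tor n, ℂ))) := ha
    exact (closure_minimal (fun x hx => hspan x hx) hclosed) ha2
  have h2 := hall (star Φ)
  have h3 : ∫ u, ‖φ u‖ ^ 2 ∂(ν n) = 0 := by
    have h4 : ∫ u, ((‖φ u‖ ^ 2 : ℝ) : ℂ) ∂(ν n) = 0 := by
      rw [← h2]
      congr 1
      funext u
      simp only [ContinuousMap.star_apply, RCLike.star_def, hΦ, ContinuousMap.coe_mk]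
      rw [← Complex.normSq_eq_norm_sq, Complex.normSq_eq_conj_mul_self]
    rw [integral_complex_ofReal] at h4
    exact_mod_cast h4
  have hcont : Continuous fun u : Tor n => ‖φ u‖ ^ 2 := by fun_prop
  have h5 : (fun u : Tor n => ‖φ u‖ ^ 2) = 0 := by
    have h6 := (integral_eq_zero_iff_of_nonneg (fun u => by positivity)
      (hcont.integrable_of_hasCompactSupport (HasCompactSupport.of_compactSpace _))).1 h3
    exact (Continuous.ae_eq_iff_eq (ν n) hcont continuous_const).1 h6
  have h7 := congrFun h5 u
  simpa using h7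

/-- If all nonconstant homogeneous components of `f` vanish then `f` is constant. -/
theorem const_of_Av {Ω : Set (Fin n → ℂ)} (hΩ : IsOpen Ω) (hc : IsConnected Ω) (hi : Inv Ω)
    {f : (Fin n → ℂ) → ℂ} (hf : DifferentiableOn ℂ f Ω)
    (h : ∀ β : Fin n → ℤ, β ≠ 0 → ∀ z ∈ Ω, Av β f z = 0) : ∃ c : ℂ, ∀ z ∈ Ω, f z = c := by
  have hw : HasW Ω 0 f := by
    have hinv : ∀ z ∈ Ω, ∀ u : Tor n, f (act u z) = ∫ v, f (act v z) ∂(ν n) := by
      intro z hz u
      have hcu : Continuous fun u : Tor n => f (act u z) :=
        hf.continuousOn.comp_continuous (continuous_act.comp (Continuous.prodMk_left z))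
          fun u => hi u z hz
      have hintf : ∀ β, Integrable (fun u => chr (-β) u * f (act u z)) (ν n) := fun β =>
        ((continuous_chr _).mul hcu).integrable_of_hasCompactSupport
          (HasCompactSupport.of_compactSpace _)
      have hintc : ∀ β, Integrable (fun u => chr (-β) u * (∫ v, f (act v z) ∂(ν n))) (ν n) :=
        fun β => ((continuous_chr _).mul continuous_const).integrable_of_hasCompactSupport
          (HasCompactSupport.of_compactSpace _)
      have := eq_zero_of_fourier (φ := fun u => f (act u z) - ∫ v, f (act v z) ∂(ν n))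
        (hcu.sub continuous_const) ?_ u
      · exact sub_eq_zero.1 this
      · intro β
        simp only [mul_sub]
        rw [integral_sub (hintf β) (hintc β), integral_mul_const]
        by_cases hβ : β = 0
        · subst hβ
          simp
        · have h1 : ∫ u, chr (-β) u * f (act u z) ∂(ν n) = 0 := h β hβ z hz
          rw [h1, integral_chr (neg_ne_zero.2 hβ)]
          simp
    intro u z hz
    rw [chr_zero, one_mul, hinv z hz u, ← hinv z hz 1, act_one]
  obtain ⟨p, hp, hp0⟩ := exists_generic hΩ hc.nonempty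
  refine ⟨f p, fun z hz => ?_⟩
  have key : ∀ z ∈ Ω, f z - f p = 0 := by
    refine identity hΩ hc.isPreconnected (hf.sub (differentiableOn_const _)) hp ?_
    apply exists_Ex hp0
    filter_upwards [local_form hΩ hf hw hp] with ζ hζ
    rw [hζ]
    simp
  exact sub_eq_zero.1 (key z hz)

end

end Pool.Agent.X184.Hk
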