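import Mathlib

set_option autoImplicit false

open MeasureTheory Set Filter Topology
open scoped ComplexConjugate

namespace Pool.Agent.X184.Hk

/-- `Ω ⊆ ℂⁿ` is Reinhardt: it is invariant under multiplication of the coordinates by complex
numbers of modulus one. -/
def IsReinhardt {n : ℕ} (Ω : Set (Fin n → ℂ)) : Prop :=
  ∀ z ∈ Ω, ∀ u : Fin n → ℂ, (∀ j, ‖u j‖ = 1) → (fun j => u j * z j) ∈ Ω

/-- The Bergman space `A²(Ω)`: the subspace of `L²(Ω)` (Lebesgue measure) of classes of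
holomorphic functions on `Ω`. -/
def bergman {n : ℕ} (Ω : Set (Fin n → ℂ)) : Submodule ℂ (Lp ℂ 2 (volume.restrict Ω)) where
  carrier := {g | ∃ G : (Fin n → ℂ) → ℂ, DifferentiableOn ℂ G Ω ∧ g =ᵐ[volume.restrict Ω] G}
  add_mem' := by
    rintro a b ⟨A, hA, hA'⟩ ⟨B, hB, hB'⟩
    refine ⟨A + B, hA.add hB, (Lp.coeFn_add a b).trans (hA'.add hB')⟩
  zero_mem' := ⟨0, differentiableOn_const 0, Lp.coeFn_zero _ _ _⟩
  smul_mem' := by
    rintro c a ⟨A, hA, hA'⟩
    exact ⟨c • A, hA.const_smul c, (Lp.coeFn_smul c a).trans (hA'.const_smul c)⟩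

/-- `T : A²(Ω) → L²(Ω)` is the bounded extension of the Hankel operator `H_{f̄}`, where
`H_{f̄} g = (I - P)(f̄ g)` for `g ∈ A²(Ω)` with `f̄ g ∈ L²(Ω)`, `P` being the orthogonal projection
onto the closed subspace `A²(Ω)` (in Lean: onto its closure); the set of such `g` is required to
be dense in `A²(Ω)`. -/
structure IsHankel {n : ℕ} (Ω : Set (Fin n → ℂ)) (f : (Fin n → ℂ) → ℂ)
    (T : bergman Ω →L[ℂ] Lp ℂ 2 (volume.restrict Ω)) : Prop where
  /-- the domain of `H_{f̄}` is dense -/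
  dense : Dense {g : bergman Ω |
    MemLp (fun z => conj (f z) * (g : Lp ℂ 2 (volume.restrict Ω)) z) 2 (volume.restrict Ω)}
  /-- on the domain, `T g = (I - P)(f̄ g)` -/
  eq : ∀ (g : bergman Ω)
    (hg : MemLp (fun z => conj (f z) * (g : Lp ℂ 2 (volume.restrict Ω)) z) 2
      (volume.restrict Ω)),
    T g = hg.toLp _ - (bergman Ω).topologicalClosure.starProjection (hg.toLp _)

/-- `T` is Hilbert-Schmidt: `∑ₖ ‖T eₖ‖² < ∞` for some orthonormal (Hilbert) basis `(eₖ)`. -/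
def IsHilbertSchmidt {E F : Type*} [NormedAddCommGroup E] [InnerProductSpace ℂ E]
    [NormedAddCommGroup F] [InnerProductSpace ℂ F] (T : E →L[ℂ] F) : Prop :=
  ∃ (ι : Type) (b : HilbertBasis ι ℂ E), Summable fun k => ‖T (b k)‖ ^ 2

end Pool.Agent.X184.Hk
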