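import Mathlib

set_option autoImplicit false

open Set Filter Topology
open scoped ComplexConjugate ENNReal

namespace Pool.Agent.X184.Hk

noncomputable section

variable {E F : Type*} [NormedAddCommGroup E] [InnerProductSpace ℂ E]
  [NormedAddCommGroup F] [InnerProductSpace ℂ F]

theorem parseval_hasSum {ι : Type*} (b : HilbertBasis ι ℂ E) (y : E) :
    HasSum (fun k => ‖inner ℂ (b k) y‖ ^ 2) (‖y‖ ^ 2) := by
  have h := b.hasSum_inner_mul_inner y y
  have h2 := h.mapL (Complex.reCLM)
  have h3 : ∀ k, Complex.reCLM (inner ℂ y (b k) * inner ℂ (b k) y) = ‖inner ℂ (b k) y‖ ^ 2 := by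
    intro k
    rw [← inner_conj_symm y (b k), ← Complex.normSq_eq_conj_mul_self, Complex.reCLM_apply,
      Complex.ofReal_re, Complex.normSq_eq_norm_sq]
  have h4 : Complex.reCLM (inner ℂ y y) = ‖y‖ ^ 2 := by
    rw [Complex.reCLM_apply, inner_self_eq_norm_sq_to_K]
    norm_cast
  rw [h4] at h2
  convert h2 using 1
  funext k
  exact (h3 k).symm

/-- the square of the norm in `ENNReal` -/
def nsq {G : Type*} [NormedAddCommGroup G] (y : G) : ℝ≥0∞ := ENNReal.ofReal (‖y‖ ^ 2)

theorem parseval {ι : Type*} (b : HilbertBasis ι ℂ E) (y : E) :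
    nsq y = ∑' k, nsq (inner ℂ (b k) y) := by
  unfold nsq
  rw [← (parseval_hasSum b y).tsum_eq]
  exact ENNReal.ofReal_tsum_of_nonneg (fun k => by positivity) (parseval_hasSum b y).summable

theorem bessel {κ : Type*} {v : κ → E} (ho : ∀ k l, k ≠ l → inner ℂ (v k) (v l) = 0)
    (h1 : ∀ k, ‖v k‖ = 1 ∨ v k = 0) (x : E) :
    ∑' k, nsq (inner ℂ (v k) x) ≤ nsq x := by
  set S : Set κ := {k | ‖v k‖ = 1} with hS
  have hon : Orthonormal ℂ (fun k : S => v k) := by
    refine ⟨fun k => k.2, fun k l hkl => ?_⟩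
    exact ho _ _ (fun h => hkl (Subtype.ext h))
  have h2 : ∑' k, nsq (inner ℂ (v k) x) = ∑' k : S, nsq (inner ℂ (v k) x) := by
    rw [tsum_subtype S (fun k => nsq (inner ℂ (v k) x))]
    refine tsum_congr fun k => ?_
    by_cases hk : k ∈ S
    · rw [indicator_of_mem hk]
    · rw [indicator_of_notMem hk]
      have : v k = 0 := (h1 k).resolve_left hk
      rw [this, inner_zero_left]
      simp [nsq]
  rw [h2]
  unfold nsq
  rw [← ENNReal.ofReal_tsum_of_nonneg (fun k => by positivity) (hon.inner_products_summable x)]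
  exact ENNReal.ofReal_le_ofReal (hon.tsum_inner_products_le x)

theorem hs_le [CompleteSpace F] {ι κ : Type*} (b : HilbertBasis ι ℂ E) (T : E →L[ℂ] F)
    {v : κ → E} (ho : ∀ k l, k ≠ l → inner ℂ (v k) (v l) = 0)
    (h1 : ∀ k, ‖v k‖ = 1 ∨ v k = 0) :
    ∑' k, nsq (T (v k)) ≤ ∑' i, nsq (T (b i)) := by
  have : CompleteSpace E := by
    have h : CompleteSpace (lp (fun _ : ι => ℂ) 2) := inferInstance
    exact (b.repr.isometry.isUniformInducing.completeSpace_congr b.repr.surjective).2 h
  obtain ⟨ws, w, hw⟩ := exists_hilbertBasis ℂ F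
  calc ∑' k, nsq (T (v k)) = ∑' k, ∑' j, nsq (inner ℂ (w j) (T (v k))) := by
        refine tsum_congr fun k => parseval w _
    _ = ∑' j, ∑' k, nsq (inner ℂ (w j) (T (v k))) := ENNReal.tsum_comm
    _ = ∑' j, ∑' k, nsq (inner ℂ (v k) (T.adjoint (w j))) := by
        refine tsum_congr fun j => tsum_congr fun k => ?_
        unfold nsq
        rw [ContinuousLinearMap.adjoint_inner_right, norm_inner_symm]
    _ ≤ ∑' j, nsq (T.adjoint (w j)) := ENNReal.tsum_le_tsum fun j => bessel ho h1 _
    _ = ∑' j, ∑' i, nsq (inner ℂ (b i) (T.adjoint (w j))) := by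
        refine tsum_congr fun j => parseval b _
    _ = ∑' j, ∑' i, nsq (inner ℂ (w j) (T (b i))) := by
        refine tsum_congr fun j => tsum_congr fun k => ?_
        unfold nsq
        rw [ContinuousLinearMap.adjoint_inner_right, norm_inner_symm]
    _ = ∑' i, ∑' j, nsq (inner ℂ (w j) (T (b i))) := ENNReal.tsum_comm
    _ = ∑' i, nsq (T (b i)) := by
        refine tsum_congr fun i => (parseval w _).symm

end

end Pool.Agent.X184.Hk
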