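import Pool.Agent.X184.HkD
import Pool.Agent.X184.HkE

set_option autoImplicit false

open MeasureTheory Set Filter Topology
open scoped ComplexConjugate ENNReal

namespace Pool.Agent.X184.Hk

noncomputable section

variable {n : ℕ}

/-- `L²` energy -/
def Ne (K : Set (Fin n → ℂ)) (g : (Fin n → ℂ) → ℂ) : ℝ≥0∞ := ∫⁻ z in K, ‖g z‖ₑ ^ 2

/-- an exhaustion -/
def Km (Ω : Set (Fin n → ℂ)) (m : ℕ) : Set (Fin n → ℂ) :=
  {z | ‖z‖ ≤ m ∧ 1 / ((m : ℝ) + 1) ≤ Metric.infDist z Ωᶜ}

theorem Km_compact (Ω : Set (Fin n → ℂ)) (m : ℕ) : IsCompact (Km Ω m) := by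
  apply Metric.isCompact_of_isClosed_isBounded
  · apply IsClosed.inter
    · exact isClosed_le continuous_norm continuous_const
    · exact isClosed_le continuous_const (Metric.continuous_infDist_pt _)
  · rw [isBounded_iff_forall_norm_le]
    exact ⟨m, fun z hz => hz.1⟩

theorem Km_subset (Ω : Set (Fin n → ℂ)) (m : ℕ) : Km Ω m ⊆ Ω := by
  intro z hz
  by_contra h
  have h2 : Metric.infDist z Ωᶜ = 0 := Metric.infDist_zero_of_mem h
  have h3 := hz.2
  rw [h2] at h3
  have : (0 : ℝ) < 1 / ((m : ℝ) + 1) := by positivity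
  linarith

theorem Km_inv {Ω : Set (Fin n → ℂ)} (hi : Inv Ω) (m : ℕ) : Inv (Km Ω m) := by
  intro u z hz
  refine ⟨by rw [norm_act]; exact hz.1, ?_⟩
  have hic : act u '' Ωᶜ = Ωᶜ := by
    ext w
    constructor
    · rintro ⟨x, hx, rfl⟩ hw
      apply hx
      have := hi u⁻¹ _ hw
      rwa [act_act, inv_mul_cancel, act_one] at this
    · intro hw
      refine ⟨act u⁻¹ w, ?_, by rw [act_act, mul_inv_cancel, act_one]⟩
      intro hx
      apply hw
      have := hi u _ hx
      rwa [act_act, mul_inv_cancel, act_one] at this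
  have : Metric.infDist (act u z) Ωᶜ = Metric.infDist z Ωᶜ := by
    conv_lhs => rw [← hic]
    rw [Metric.infDist_image (isometry_act u)]
  rw [this]
  exact hz.2

theorem Km_mono (Ω : Set (Fin n → ℂ)) : Monotone (Km Ω) := by
  intro a b hab z hz
  have hab' : (a : ℝ) ≤ b := by exact_mod_cast hab
  refine ⟨hz.1.trans hab', le_trans ?_ hz.2⟩
  gcongr

theorem iUnion_Km {Ω : Set (Fin n → ℂ)} (hΩ : IsOpen Ω) (hne : Ωᶜ.Nonempty) :
    ⋃ m, Km Ω m = Ω := by
  apply Subset.antisymm (iUnion_subset (Km_subset Ω))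
  intro z hz
  have h1 : 0 < Metric.infDist z Ωᶜ := by
    rw [← hΩ.isClosed_compl.notMem_iff_infDist_pos hne]
    exact fun h => h hz
  obtain ⟨m₁, hm₁⟩ := exists_nat_ge ‖z‖
  obtain ⟨m₂, hm₂⟩ := exists_nat_one_div_lt h1
  refine mem_iUnion.2 ⟨max m₁ m₂, ?_, ?_⟩
  · exact hm₁.trans (by exact_mod_cast le_max_left _ _)
  · refine le_trans ?_ hm₂.le
    have : (m₂ : ℝ) ≤ ((max m₁ m₂ : ℕ) : ℝ) := by exact_mod_cast le_max_right _ _
    gcongr

theorem tendsto_Ne {Ω : Set (Fin n → ℂ)} (hΩ : IsOpen Ω) (hne : Ωᶜ.Nonempty)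
    (g : (Fin n → ℂ) → ℂ) : Tendsto (fun m => Ne (Km Ω m) g) atTop (𝓝 (Ne Ω g)) := by
  have h : Ne Ω g = ⨆ m, Ne (Km Ω m) g := by
    unfold Ne
    rw [← setLIntegral_iUnion_of_directed _ ((Km_mono Ω).directed_le), iUnion_Km hΩ hne]
  rw [h]
  apply tendsto_atTop_iSup
  intro a b hab
  exact lintegral_mono_set (Km_mono Ω hab)

variable {Ω : Set (Fin n → ℂ)}

theorem memLp_indicator {K : Set (Fin n → ℂ)} (hK : IsCompact K) (hKΩ : K ⊆ Ω)
    {ψ : (Fin n → ℂ) → ℂ} (hψ : ContinuousOn ψ Ω) :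
    MemLp (K.indicator ψ) 2 (volume.restrict Ω) := by
  obtain ⟨M, hM⟩ := hK.exists_bound_of_continuousOn (hψ.mono hKΩ)
  have h1 : MemLp ψ 2 ((volume.restrict Ω).restrict K) := by
    rw [Measure.restrict_restrict hK.measurableSet, inter_eq_left.2 hKΩ]
    have : IsFiniteMeasure (volume.restrict K) := ⟨by
      rw [Measure.restrict_apply_univ]; exact hK.measure_lt_top⟩
    refine MemLp.of_bound ((hψ.mono hKΩ).aestronglyMeasurable hK.measurableSet) M ?_
    exact (ae_restrict_iff' hK.measurableSet).2 (Eventually.of_forall hM)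
  exact (memLp_indicator_iff_restrict hK.measurableSet).2 h1

theorem inner_indicator {K : Set (Fin n → ℂ)} (hK : IsCompact K) (hKΩ : K ⊆ Ω)
    {ψ : (Fin n → ℂ) → ℂ} (hψ : ContinuousOn ψ Ω) (g : Lp ℂ 2 (volume.restrict Ω))
    {G : (Fin n → ℂ) → ℂ} (hG : g =ᵐ[volume.restrict Ω] G) :
    inner ℂ ((memLp_indicator hK hKΩ hψ).toLp (K.indicator ψ)) g
      = ∫ z in K, conj (ψ z) * G z := by
  rw [L2.inner_def]
  have h1 : ∫ z in Ω, inner ℂ
      (((memLp_indicator hK hKΩ hψ).toLp (K.indicator ψ) : Lp ℂ 2 (volume.restrict Ω)) z) (g z)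
      = ∫ z in Ω, K.indicator (fun z => conj (ψ z) * G z) z := by
    refine integral_congr_ae ?_
    filter_upwards [(memLp_indicator hK hKΩ hψ).coeFn_toLp, hG] with z h2 h3
    rw [h2, h3, RCLike.inner_apply]
    by_cases hz : z ∈ K
    · rw [indicator_of_mem hz, indicator_of_mem hz]
      ring
    · rw [indicator_of_notMem hz, indicator_of_notMem hz]
      simp
  rw [h1, integral_indicator hK.measurableSet, Measure.restrict_restrict hK.measurableSet,
    inter_eq_left.2 hKΩ]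

/-- Weak formula for the Hankel operator. -/
theorem weak_formula {f : (Fin n → ℂ) → ℂ} (hf : DifferentiableOn ℂ f Ω)
    {T : bergman Ω →L[ℂ] Lp ℂ 2 (volume.restrict Ω)} (hT : IsHankel Ω f T)
    {K : Set (Fin n → ℂ)} (hK : IsCompact K) (hKΩ : K ⊆ Ω)
    {ψ : (Fin n → ℂ) → ℂ} (hψ : ContinuousOn ψ Ω)
    (ho : ∀ G : (Fin n → ℂ) → ℂ, DifferentiableOn ℂ G Ω → ∫ z in K, conj (ψ z) * G z = 0)
    (g : bergman Ω) :
    inner ℂ ((memLp_indicator hK hKΩ hψ).toLp (K.indicator ψ)) (T g)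
      = inner ℂ ((memLp_indicator hK hKΩ (hψ.mul hf.continuousOn)).toLp
        (K.indicator (ψ * f))) (g : Lp ℂ 2 (volume.restrict Ω)) := by
  have horth : ∀ x ∈ (bergman Ω).topologicalClosure,
      inner ℂ ((memLp_indicator hK hKΩ hψ).toLp (K.indicator ψ)) x = 0 := by
    intro x hx
    have hcl : IsClosed {x : Lp ℂ 2 (volume.restrict Ω) |
        inner ℂ ((memLp_indicator hK hKΩ hψ).toLp (K.indicator ψ)) x = 0} :=
      isClosed_eq (continuous_const.inner continuous_id) continuous_const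
    refine closure_minimal ?_ hcl hx
    rintro y ⟨G, hG, hyG⟩
    show inner ℂ _ y = 0
    rw [inner_indicator hK hKΩ hψ y hyG]
    exact ho G hG
  have hfun : (fun g : bergman Ω =>
      inner ℂ ((memLp_indicator hK hKΩ hψ).toLp (K.indicator ψ)) (T g)) =
      fun g : bergman Ω => inner ℂ ((memLp_indicator hK hKΩ (hψ.mul hf.continuousOn)).toLp
        (K.indicator (ψ * f))) (g : Lp ℂ 2 (volume.restrict Ω)) := by
    refine Continuous.ext_on hT.dense ?_ ?_ ?_
    · exact continuous_const.inner T.continuous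
    · exact continuous_const.inner continuous_subtype_val
    · intro g hg
      simp only
      rw [hT.eq g hg, inner_sub_right, horth _ (Submodule.starProjection_apply_mem _ _), sub_zero,
        inner_indicator hK hKΩ hψ _ (MemLp.coeFn_toLp hg),
        inner_indicator hK hKΩ (hψ.mul hf.continuousOn) _ (EventuallyEq.refl _ _)]
      congr 1
      funext z
      simp only [Pi.mul_apply, map_mul]
      ring
  exact congrFun hfun g

end

end Pool.Agent.X184.Hk
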