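import Pool.Agent.X184.HkF

set_option autoImplicit false

open MeasureTheory Set Filter Topology
open scoped ComplexConjugate ENNReal

namespace Pool.Agent.X184.Hk

noncomputable section

variable {n : ℕ} {Ω : Set (Fin n → ℂ)}

theorem Ne_eq (K : Set (Fin n → ℂ)) (G : (Fin n → ℂ) → ℂ) :
    Ne K G = (eLpNorm G 2 (volume.restrict K)) ^ 2 := by
  have h := eLpNorm_nnreal_pow_eq_lintegral (μ := volume.restrict K) (f := G) (p := 2) two_ne_zero
  unfold Ne
  have h2 : ((2 : NNReal) : ℝ) = ((2 : ℕ) : ℝ) := by norm_num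
  simp only [h2, ENNReal.rpow_natCast] at h
  rw [← h]
  norm_num

theorem nsq_Lp (x : Lp ℂ 2 (volume.restrict Ω)) {G : (Fin n → ℂ) → ℂ}
    (h : x =ᵐ[volume.restrict Ω] G) : nsq x = Ne Ω G := by
  rw [Ne_eq, ← eLpNorm_congr_ae h]
  unfold nsq
  rw [Lp.norm_def, ← ENNReal.toReal_pow, ENNReal.ofReal_toReal]
  exact ENNReal.pow_ne_top (Lp.eLpNorm_ne_top x)

theorem memLp_of_Ne {G : (Fin n → ℂ) → ℂ} (hΩ : IsOpen Ω) (hG : ContinuousOn G Ω)
    (h : Ne Ω G ≠ ⊤) : MemLp G 2 (volume.restrict Ω) := by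
  refine ⟨hG.aestronglyMeasurable hΩ.measurableSet, ?_⟩
  rw [Ne_eq] at h
  rw [lt_top_iff_ne_top]
  intro h2
  rw [h2] at h
  simp at h

/-- real energy -/
def nr (K : Set (Fin n → ℂ)) (g : (Fin n → ℂ) → ℂ) : ℝ := ∫ z in K, ‖g z‖ ^ 2

theorem nr_nonneg (K : Set (Fin n → ℂ)) (g : (Fin n → ℂ) → ℂ) : 0 ≤ nr K g :=
  integral_nonneg fun z => by positivity

theorem integrableOn_mul {K : Set (Fin n → ℂ)} (hK : IsCompact K) (hKΩ : K ⊆ Ω)
    {g : (Fin n → ℂ) → ℂ} (hg : ContinuousOn g Ω) : IntegrableOn g K volume :=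
  (hg.mono hKΩ).integrableOn_compact hK

theorem Ne_eq_nr {K : Set (Fin n → ℂ)} (hK : IsCompact K) (hKΩ : K ⊆ Ω)
    {g : (Fin n → ℂ) → ℂ} (hg : ContinuousOn g Ω) : Ne K g = ENNReal.ofReal (nr K g) := by
  unfold Ne nr
  rw [ofReal_integral_eq_lintegral_ofReal]
  · congr 1
    funext z
    rw [ENNReal.ofReal_pow (norm_nonneg _), ofReal_norm]
  · exact ((hg.norm.pow 2).mono hKΩ).integrableOn_compact hK
  · exact Eventually.of_forall fun z => by positivity

theorem integral_conj_mul_self (K : Set (Fin n → ℂ)) (g : (Fin n → ℂ) → ℂ) :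
    ∫ z in K, conj (g z) * g z = (nr K g : ℂ) := by
  unfold nr
  rw [← integral_complex_ofReal]
  congr 1
  funext z
  rw [← Complex.normSq_eq_conj_mul_self, Complex.normSq_eq_norm_sq]

/-- basic lower bound for `T e` -/
theorem key0 {f : (Fin n → ℂ) → ℂ} (hf : DifferentiableOn ℂ f Ω)
    {T : bergman Ω →L[ℂ] Lp ℂ 2 (volume.restrict Ω)} (hT : IsHankel Ω f T)
    {K : Set (Fin n → ℂ)} (hK : IsCompact K) (hKΩ : K ⊆ Ω) (hKi : Inv K)
    {β γ : Fin n → ℤ} {H ψ P : (Fin n → ℂ) → ℂ} (hH : DifferentiableOn ℂ H Ω)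
    (hHw : HasW Ω γ H) (e : bergman Ω)
    (he : (e : Lp ℂ 2 (volume.restrict Ω)) =ᵐ[volume.restrict Ω] H)
    (hψ : ContinuousOn ψ Ω) (hψw : HasW Ω (γ - β) ψ)
    (hP : DifferentiableOn ℂ P Ω) (hdec : ∀ z ∈ Ω, conj (Av β f z) * H z = ψ z + P z)
    (ho : ∀ G : (Fin n → ℂ) → ℂ, DifferentiableOn ℂ G Ω → ∫ z in K, conj (ψ z) * G z = 0) :
    nr K ψ ≤ ‖T e‖ ^ 2 := by
  have h1 := weak_formula hf hT hK hKΩ hψ ho e
  rw [inner_indicator hK hKΩ (hψ.mul hf.continuousOn) _ he] at h1
  have hφw : HasW Ω (-β) (fun z => ψ z * conj (H z)) := by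
    have := hψw.mul hHw.conj
    have h3 : γ - β + -γ = -β := by abel
    rwa [h3] at this
  have hφc : ContinuousOn (fun z => ψ z * conj (H z)) Ω :=
    hψ.mul (Complex.continuous_conj.comp_continuousOn hH.continuousOn)
  have h2 : ∫ z in K, conj ((ψ * f) z) * H z = (nr K ψ : ℂ) := by
    calc ∫ z in K, conj ((ψ * f) z) * H z
        = ∫ z in K, conj ((ψ z * conj (H z)) * f z) := by
          congr 1
          funext z
          simp only [Pi.mul_apply, map_mul, Complex.conj_conj]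
          ring
      _ = conj (∫ z in K, (ψ z * conj (H z)) * f z) := integral_conj
      _ = conj (∫ z in K, (ψ z * conj (H z)) * Av β f z) := by
          rw [integral_Av hKΩ hK hKi (δ := β) hφc hφw hf.continuousOn]
      _ = ∫ z in K, conj ((ψ z * conj (H z)) * Av β f z) := integral_conj.symm
      _ = ∫ z in K, (conj (ψ z) * ψ z + conj (ψ z) * P z) := by
          refine setIntegral_congr_fun hK.measurableSet fun z hz => ?_
          simp only [map_mul, Complex.conj_conj]
          linear_combination conj (ψ z) * hdec z (hKΩ hz)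
      _ = (nr K ψ : ℂ) := by
          have hcψ : ContinuousOn (fun z => conj (ψ z)) Ω :=
            Complex.continuous_conj.comp_continuousOn hψ
          rw [integral_add, ho P hP, add_zero, integral_conj_mul_self]
          · exact integrableOn_mul hK hKΩ (hcψ.mul hψ)
          · exact integrableOn_mul hK hKΩ (hcψ.mul hP.continuousOn)
  rw [h2] at h1
  set x := (memLp_indicator hK hKΩ hψ).toLp (K.indicator ψ) with hx
  have h4 : ‖x‖ ^ 2 = nr K ψ := by
    have h5 := inner_indicator hK hKΩ hψ x (MemLp.coeFn_toLp _)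
    rw [← hx] at h5
    have h6 : ∫ z in K, conj (ψ z) * K.indicator ψ z = (nr K ψ : ℂ) := by
      rw [← integral_conj_mul_self]
      refine setIntegral_congr_fun hK.measurableSet fun z hz => ?_
      simp only [indicator_of_mem hz]
    rw [h6, inner_self_eq_norm_sq_to_K] at h5
    apply Complex.ofReal_injective
    rw [← h5]
    simp
  have h7 : nr K ψ ≤ ‖x‖ * ‖T e‖ := by
    have := norm_inner_le_norm (𝕜 := ℂ) x (T e)
    rw [h1, Complex.norm_real, Real.norm_of_nonneg (nr_nonneg _ _)] at this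
    exact this
  rw [← h4] at h7 ⊢
  by_cases hx0 : ‖x‖ = 0
  · rw [hx0]
    nlinarith [sq_nonneg ‖T e‖]
  · have hx1 : 0 < ‖x‖ := lt_of_le_of_ne (norm_nonneg _) (Ne.symm hx0)
    have h8 : ‖x‖ ≤ ‖T e‖ := by
      rw [sq] at h7
      exact le_of_mul_le_mul_left h7 hx1
    gcongr

theorem orth (hΩ : IsOpen Ω) (hc : IsPreconnected Ω) (hi : Inv Ω)
    {K : Set (Fin n → ℂ)} (hK : IsCompact K) (hKΩ : K ⊆ Ω) (hKi : Inv K)
    {δ : Fin n → ℤ} {ψ : (Fin n → ℂ) → ℂ} (hψ : ContinuousOn ψ Ω) (hw : HasW Ω δ ψ)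
    (h : (∀ G, DifferentiableOn ℂ G Ω → HasW Ω δ G → ∀ z ∈ Ω, G z = 0) ∨
      ∃ H', DifferentiableOn ℂ H' Ω ∧ HasW Ω δ H' ∧ (∃ z ∈ Ω, H' z ≠ 0) ∧
        ∫ z in K, conj (ψ z) * H' z = 0)
    (G : (Fin n → ℂ) → ℂ) (hG : DifferentiableOn ℂ G Ω) :
    ∫ z in K, conj (ψ z) * G z = 0 := by
  have hcψ : ContinuousOn (fun z => conj (ψ z)) Ω :=
    Complex.continuous_conj.comp_continuousOn hψ
  rw [integral_Av hKΩ hK hKi (δ := δ) hcψ hw.conj hG.continuousOn]
  rcases h with h | ⟨H', h1, h2, h3, h4⟩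
  · rw [← integral_zero (Fin n → ℂ) ℂ (μ := volume.restrict K)]
    refine setIntegral_congr_fun hK.measurableSet fun z hz => ?_
    rw [h _ (differentiableOn_Av hΩ hi hG δ) (hasW_Av δ G) z (hKΩ hz), mul_zero]
  · obtain ⟨c, hc'⟩ := proportional hΩ hc h1 (differentiableOn_Av hΩ hi hG δ) h2
      (hasW_Av δ G) h3
    calc ∫ z in K, conj (ψ z) * Av δ G z = ∫ z in K, c * (conj (ψ z) * H' z) := by
          refine setIntegral_congr_fun hK.measurableSet fun z hz => ?_
          rw [hc' z (hKΩ hz)]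
          ring
      _ = 0 := by rw [integral_const_mul, h4, mul_zero]

theorem keyB (hΩ : IsOpen Ω) (hc : IsPreconnected Ω) (hi : Inv Ω)
    {f : (Fin n → ℂ) → ℂ} (hf : DifferentiableOn ℂ f Ω)
    {T : bergman Ω →L[ℂ] Lp ℂ 2 (volume.restrict Ω)} (hT : IsHankel Ω f T)
    {K : Set (Fin n → ℂ)} (hK : IsCompact K) (hKΩ : K ⊆ Ω) (hKi : Inv K)
    {β γ : Fin n → ℤ} {H : (Fin n → ℂ) → ℂ} (hH : DifferentiableOn ℂ H Ω)
    (hHw : HasW Ω γ H) (e : bergman Ω)
    (he : (e : Lp ℂ 2 (volume.restrict Ω)) =ᵐ[volume.restrict Ω] H)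
    (h : ∀ G, DifferentiableOn ℂ G Ω → HasW Ω (γ - β) G → ∀ z ∈ Ω, G z = 0) :
    nr K (fun z => Av β f z * H z) ≤ ‖T e‖ ^ 2 := by
  have hFc : ContinuousOn (Av β f) Ω := (differentiableOn_Av hΩ hi hf β).continuousOn
  have hFc' : ContinuousOn (fun z => conj (Av β f z)) Ω :=
    Complex.continuous_conj.comp_continuousOn hFc
  have hψw : HasW Ω (γ - β) (fun z => conj (Av β f z) * H z) := by
    have := ((hasW_Av (Ω := Ω) β f).conj).mul hHw
    have h3 : -β + γ = γ - β := by abel
    rwa [h3] at this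
  have h1 := key0 hf hT hK hKΩ hKi hH hHw e he (ψ := fun z => conj (Av β f z) * H z)
    (P := fun _ => 0) (hFc'.mul hH.continuousOn) hψw (differentiableOn_const 0)
    (fun z _ => by simp)
    (orth hΩ hc hi hK hKΩ hKi (hFc'.mul hH.continuousOn) hψw (Or.inl h))
  refine le_trans (le_of_eq ?_) h1
  unfold nr
  congr 1
  funext z
  simp

theorem keyA (hΩ : IsOpen Ω) (hc : IsPreconnected Ω) (hi : Inv Ω)
    {f : (Fin n → ℂ) → ℂ} (hf : DifferentiableOn ℂ f Ω)
    {T : bergman Ω →L[ℂ] Lp ℂ 2 (volume.restrict Ω)} (hT : IsHankel Ω f T)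
    {K : Set (Fin n → ℂ)} (hK : IsCompact K) (hKΩ : K ⊆ Ω) (hKi : Inv K)
    {β γ : Fin n → ℤ} {H H' : (Fin n → ℂ) → ℂ} (hH : DifferentiableOn ℂ H Ω)
    (hHw : HasW Ω γ H) (e : bergman Ω)
    (he : (e : Lp ℂ 2 (volume.restrict Ω)) =ᵐ[volume.restrict Ω] H)
    (hH' : DifferentiableOn ℂ H' Ω) (hHw' : HasW Ω (γ - β) H')
    (hFH : ∀ z ∈ Ω, Av β f z * H' z = H z) (hpos : nr K H' ≠ 0) :
    nr K (fun z => Av β f z * H z) ≤ ‖T e‖ ^ 2 + nr K H ^ 2 / nr K H' := by
  have hFc : ContinuousOn (Av β f) Ω := (differentiableOn_Av hΩ hi hf β).continuousOn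
  have hFc' : ContinuousOn (fun z => conj (Av β f z)) Ω :=
    Complex.continuous_conj.comp_continuousOn hFc
  have hHc := hH.continuousOn
  have hHc' := hH'.continuousOn
  have hcH : ContinuousOn (fun z => conj (H z)) Ω := Complex.continuous_conj.comp_continuousOn hHc
  have hcH' : ContinuousOn (fun z => conj (H' z)) Ω :=
    Complex.continuous_conj.comp_continuousOn hHc'
  have hne : ∃ z ∈ Ω, H' z ≠ 0 := by
    by_contra hcon
    push Not at hcon
    apply hpos
    unfold nr
    rw [← integral_zero (Fin n → ℂ) ℝ (μ := volume.restrict K)]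
    refine setIntegral_congr_fun hK.measurableSet fun z hz => ?_
    rw [hcon z (hKΩ hz)]
    simp
  set l : ℝ := nr K H / nr K H' with hl
  set ψ : (Fin n → ℂ) → ℂ := fun z => conj (Av β f z) * H z - (l : ℂ) * H' z with hψ
  have hψw : HasW Ω (γ - β) ψ := by
    have := ((hasW_Av (Ω := Ω) β f).conj).mul hHw
    have h3 : -β + γ = γ - β := by abel
    rw [h3] at this
    exact this.sub (hHw'.const_mul _)
  have hψc : ContinuousOn ψ Ω := (hFc'.mul hHc).sub (continuousOn_const.mul hHc')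
  -- orthogonality
  have horth : ∫ z in K, conj (ψ z) * H' z = 0 := by
    calc ∫ z in K, conj (ψ z) * H' z
        = ∫ z in K, (conj (H z) * H z - (l : ℂ) * (conj (H' z) * H' z)) := by
          refine setIntegral_congr_fun hK.measurableSet fun z hz => ?_
          simp only [hψ, map_sub, map_mul, Complex.conj_conj, Complex.conj_ofReal]
          linear_combination conj (H z) * hFH z (hKΩ hz)
      _ = (nr K H : ℂ) - (l : ℂ) * (nr K H' : ℂ) := by
          rw [integral_sub, integral_const_mul, integral_conj_mul_self, integral_conj_mul_self]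
          · exact integrableOn_mul hK hKΩ (hcH.mul hHc)
          · exact integrableOn_mul hK hKΩ (continuousOn_const.mul (hcH'.mul hHc'))
      _ = 0 := by
          rw [hl]
          have : (nr K H' : ℂ) ≠ 0 := by exact_mod_cast hpos
          push_cast
          field_simp
          ring
  have ho := orth hΩ hc hi hK hKΩ hKi hψc hψw (Or.inr ⟨H', hH', hHw', hne, horth⟩)
  have h1 := key0 hf hT hK hKΩ hKi hH hHw e he (ψ := ψ)
    (P := fun z => (l : ℂ) * H' z) hψc hψw (hH'.const_mul _)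
    (fun z _ => by simp only [hψ]; ring) ho
  -- compute `nr K ψ`
  have h2 : (nr K ψ : ℂ) = (nr K (fun z => Av β f z * H z) : ℂ) - (l : ℂ) * (nr K H : ℂ) := by
    calc (nr K ψ : ℂ) = ∫ z in K, conj (ψ z) * ψ z := (integral_conj_mul_self _ _).symm
      _ = ∫ z in K, ((conj (Av β f z * H z) * (Av β f z * H z) - (l : ℂ) * (conj (H z) * H z))
            - (l : ℂ) * (conj (ψ z) * H' z)) := by
          refine setIntegral_congr_fun hK.measurableSet fun z hz => ?_
          have h3 : conj (Av β f z) * conj (H' z) = conj (H z) := by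
            rw [← map_mul, hFH z (hKΩ hz)]
          simp only [hψ, map_sub, map_mul, Complex.conj_conj, Complex.conj_ofReal]
          linear_combination (-(l : ℂ) * H z) * h3
      _ = _ := by
          rw [integral_sub, integral_sub, integral_const_mul, integral_const_mul, horth,
            integral_conj_mul_self, integral_conj_mul_self]
          · ring
          · exact integrableOn_mul hK hKΩ
              ((Complex.continuous_conj.comp_continuousOn (hFc.mul hHc)).mul (hFc.mul hHc))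
          · exact integrableOn_mul hK hKΩ (continuousOn_const.mul (hcH.mul hHc))
          · exact integrableOn_mul hK hKΩ
              (((Complex.continuous_conj.comp_continuousOn (hFc.mul hHc)).mul
                (hFc.mul hHc)).sub (continuousOn_const.mul (hcH.mul hHc)))
          · exact integrableOn_mul hK hKΩ (continuousOn_const.mul
              ((Complex.continuous_conj.comp_continuousOn hψc).mul hHc'))
  have h3 : nr K ψ = nr K (fun z => Av β f z * H z) - l * nr K H := by exact_mod_cast h2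
  have h4 : l * nr K H = nr K H ^ 2 / nr K H' := by
    rw [hl]; ring
  linarith

end

end Pool.Agent.X184.Hk
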