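import Pool.Agent.X184.HkG

set_option autoImplicit false

open MeasureTheory Set Filter Topology
open scoped ComplexConjugate ENNReal

namespace Pool.Agent.X184.Hk

noncomputable section

variable {n : ℕ} {Ω : Set (Fin n → ℂ)}

/-- weighted function nonvanishing at generic points -/
theorem ne_zero_generic (hΩ : IsOpen Ω) (hc : IsPreconnected Ω) {γ : Fin n → ℤ}
    {g : (Fin n → ℂ) → ℂ} (hg : DifferentiableOn ℂ g Ω) (wg : HasW Ω γ g)
    (hne : ∃ z ∈ Ω, g z ≠ 0) {p : Fin n → ℂ} (hp : p ∈ Ω) (hp0 : ∀ j, p j ≠ 0) : g p ≠ 0 := by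
  intro h0
  obtain ⟨z, hz, hz0⟩ := hne
  apply hz0
  refine identity hΩ hc hg hp ?_ z hz
  apply exists_Ex hp0
  filter_upwards [local_form hΩ hg wg hp] with ζ hζ
  rw [hζ, h0, zero_mul]

theorem Ne_ne_zero {U : Set (Fin n → ℂ)} (hU : IsOpen U) {g : (Fin n → ℂ) → ℂ}
    (hg : ContinuousOn g U) (hne : ∃ z ∈ U, g z ≠ 0) : Ne U g ≠ 0 := by
  intro h0
  obtain ⟨z, hz, hz0⟩ := hne
  have h1 : g =ᵐ[volume.restrict U] 0 := by
    rw [Ne_eq] at h0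
    have h2 : eLpNorm g 2 (volume.restrict U) = 0 := by
      simpa using h0
    exact (eLpNorm_eq_zero_iff (hg.aestronglyMeasurable hU.measurableSet) two_ne_zero).1 h2
  have h3 : EqOn g 0 U :=
    Measure.eqOn_open_of_ae_eq h1 hU hg continuousOn_const
  exact hz0 (h3 hz)

theorem Ne_mono {U : Set (Fin n → ℂ)} (hU : U ⊆ Ω) (g : (Fin n → ℂ) → ℂ) : Ne U g ≤ Ne Ω g :=
  lintegral_mono_set hU

theorem Ne_congr (hΩ : IsOpen Ω) {g h : (Fin n → ℂ) → ℂ} (hgh : ∀ z ∈ Ω, g z = h z) :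
    Ne Ω g = Ne Ω h := by
  unfold Ne
  refine setLIntegral_congr_fun hΩ.measurableSet fun z hz => ?_
  rw [hgh z hz]

theorem nsq_smul {G : Type*} [NormedAddCommGroup G] [NormedSpace ℂ G] (c : ℂ) (y : G) :
    nsq (c • y) = nsq c * nsq y := by
  unfold nsq
  rw [norm_smul, mul_pow, ENNReal.ofReal_mul (by positivity)]

theorem Ne_const_mul (c : ℂ) (g : (Fin n → ℂ) → ℂ) :
    Ne Ω (fun z => c * g z) = nsq c * Ne Ω g := by
  unfold Ne
  have h : ∀ z, ‖c * g z‖ₑ ^ 2 = nsq c * ‖g z‖ₑ ^ 2 := by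
    intro z
    rw [enorm_mul, mul_pow]
    congr 1
    unfold nsq
    rw [ENNReal.ofReal_pow (norm_nonneg _), ofReal_norm]
  simp_rw [h]
  rw [lintegral_const_mul']
  unfold nsq
  exact ENNReal.ofReal_ne_top

theorem limB (hΩ : IsOpen Ω) (hc : IsPreconnected Ω) (hi : Inv Ω) (hne : Ωᶜ.Nonempty)
    {f : (Fin n → ℂ) → ℂ} (hf : DifferentiableOn ℂ f Ω)
    {T : bergman Ω →L[ℂ] Lp ℂ 2 (volume.restrict Ω)} (hT : IsHankel Ω f T)
    {β γ : Fin n → ℤ} {H : (Fin n → ℂ) → ℂ} (hH : DifferentiableOn ℂ H Ω)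
    (hHw : HasW Ω γ H) (e : bergman Ω)
    (he : (e : Lp ℂ 2 (volume.restrict Ω)) =ᵐ[volume.restrict Ω] H)
    (h : ∀ G, DifferentiableOn ℂ G Ω → HasW Ω (γ - β) G → ∀ z ∈ Ω, G z = 0) :
    Ne Ω (fun z => Av β f z * H z) ≤ nsq (T e) := by
  refine le_of_tendsto' (tendsto_Ne hΩ hne _) fun m => ?_
  have hFc : ContinuousOn (Av β f) Ω := (differentiableOn_Av hΩ hi hf β).continuousOn
  have e1 := Ne_eq_nr (Km_compact Ω m) (Km_subset Ω m) (hFc.mul hH.continuousOn)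
  have e1' : Ne (Km Ω m) (fun z => Av β f z * H z)
    = ENNReal.ofReal (nr (Km Ω m) (fun z => Av β f z * H z)) := e1
  rw [e1']
  exact ENNReal.ofReal_le_ofReal (keyB hΩ hc hi hf hT (Km_compact Ω m) (Km_subset Ω m)
    (Km_inv hi m) hH hHw e he h)

theorem limA (hΩ : IsOpen Ω) (hc : IsPreconnected Ω) (hi : Inv Ω) (hne : Ωᶜ.Nonempty)
    {f : (Fin n → ℂ) → ℂ} (hf : DifferentiableOn ℂ f Ω)
    {T : bergman Ω →L[ℂ] Lp ℂ 2 (volume.restrict Ω)} (hT : IsHankel Ω f T)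
    {β γ : Fin n → ℤ} {H H' : (Fin n → ℂ) → ℂ} (hH : DifferentiableOn ℂ H Ω)
    (hHw : HasW Ω γ H) (e : bergman Ω)
    (he : (e : Lp ℂ 2 (volume.restrict Ω)) =ᵐ[volume.restrict Ω] H)
    (hH' : DifferentiableOn ℂ H' Ω) (hHw' : HasW Ω (γ - β) H')
    (hFH : ∀ z ∈ Ω, Av β f z * H' z = H z) (hpos : Ne Ω H' ≠ 0) (hfin : Ne Ω H ≠ ⊤) :
    Ne Ω (fun z => Av β f z * H z) ≤ nsq (T e) + Ne Ω H ^ 2 / Ne Ω H' := by
  have hFc : ContinuousOn (Av β f) Ω := (differentiableOn_Av hΩ hi hf β).continuousOn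
  have hev : ∀ᶠ m in atTop, Ne (Km Ω m) H' ≠ 0 :=
    (tendsto_Ne hΩ hne H').eventually_ne hpos
  have hlim : Tendsto (fun m => nsq (T e) + Ne (Km Ω m) H ^ 2 / Ne (Km Ω m) H') atTop
      (𝓝 (nsq (T e) + Ne Ω H ^ 2 / Ne Ω H')) := by
    refine Tendsto.const_add _ ?_
    refine ENNReal.Tendsto.div ?_ (Or.inr hpos) (tendsto_Ne hΩ hne H') (Or.inr ?_)
    · exact ENNReal.Tendsto.pow (tendsto_Ne hΩ hne H)
    · exact ENNReal.pow_ne_top hfin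
  refine le_of_tendsto_of_tendsto (tendsto_Ne hΩ hne _) hlim ?_
  filter_upwards [hev] with m hm
  have e1 := Ne_eq_nr (Km_compact Ω m) (Km_subset Ω m) (hFc.mul hH.continuousOn)
  have e2 := Ne_eq_nr (Km_compact Ω m) (Km_subset Ω m) hH.continuousOn
  have e3 := Ne_eq_nr (Km_compact Ω m) (Km_subset Ω m) hH'.continuousOn
  have hpos' : 0 < nr (Km Ω m) H' := by
    rw [e3] at hm
    by_contra h
    exact hm (ENNReal.ofReal_of_nonpos (not_lt.1 h))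
  have h1 := keyA hΩ hc hi hf hT (Km_compact Ω m) (Km_subset Ω m)
    (Km_inv hi m) hH hHw e he hH' hHw' hFH hpos'.ne'
  have e1' : Ne (Km Ω m) (fun z => Av β f z * H z)
    = ENNReal.ofReal (nr (Km Ω m) (fun z => Av β f z * H z)) := e1
  rw [e1', e2, e3, ← ENNReal.ofReal_pow (nr_nonneg _ _), ← ENNReal.ofReal_div_of_pos hpos']
  unfold nsq
  rw [← ENNReal.ofReal_add (by positivity) (by positivity)]
  exact ENNReal.ofReal_le_ofReal h1

/-- a nonzero square integrable holomorphic function of weight `γ` -/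
structure Good (Ω : Set (Fin n → ℂ)) (γ : Fin n → ℤ) (H : (Fin n → ℂ) → ℂ) : Prop where
  diff : DifferentiableOn ℂ H Ω
  hasW : HasW Ω γ H
  fin : Ne Ω H ≠ ⊤
  pos : Ne Ω H ≠ 0

theorem Good.exists_ne {γ : Fin n → ℤ} {H : (Fin n → ℂ) → ℂ} (hΩ : IsOpen Ω) (h : Good Ω γ H) :
    ∃ z ∈ Ω, H z ≠ 0 := by
  by_contra hcon
  push Not at hcon
  apply h.pos
  rw [Ne_congr hΩ (h := fun _ => 0) hcon]
  simp [Ne]

/-- weight vectors of the Bergman space -/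
def wt (Ω : Set (Fin n → ℂ)) (γ : Fin n → ℤ) (x : bergman Ω) : Prop :=
  ∃ H : (Fin n → ℂ) → ℂ, DifferentiableOn ℂ H Ω ∧ HasW Ω γ H ∧
    (x : Lp ℂ 2 (volume.restrict Ω)) =ᵐ[volume.restrict Ω] H

open Classical in
/-- a unit weight vector, or zero -/
def vv (Ω : Set (Fin n → ℂ)) (γ : Fin n → ℤ) : bergman Ω :=
  if h : ∃ x : bergman Ω, ‖x‖ = 1 ∧ wt Ω γ x then h.choose else 0

theorem vv_norm (γ : Fin n → ℤ) : ‖vv Ω γ‖ = 1 ∨ vv Ω γ = 0 := by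
  by_cases h : ∃ x : bergman Ω, ‖x‖ = 1 ∧ wt Ω γ x
  · left
    unfold vv
    rw [dif_pos h]
    exact h.choose_spec.1
  · right
    unfold vv
    rw [dif_neg h]

theorem wt_zero (γ : Fin n → ℤ) : wt Ω γ 0 := by
  refine ⟨fun _ => 0, differentiableOn_const 0, fun u z _ => by simp, ?_⟩
  exact Lp.coeFn_zero _ _ _

theorem vv_wt (γ : Fin n → ℤ) : wt Ω γ (vv Ω γ) := by
  by_cases h : ∃ x : bergman Ω, ‖x‖ = 1 ∧ wt Ω γ x
  · unfold vv
    rw [dif_pos h]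
    exact h.choose_spec.2
  · unfold vv
    rw [dif_neg h]
    exact wt_zero γ

theorem vv_orth (hΩ : IsOpen Ω) (hi : Inv Ω) {γ δ : Fin n → ℤ} (hγδ : γ ≠ δ) :
    inner ℂ (vv Ω γ) (vv Ω δ) = 0 := by
  obtain ⟨G, -, hGw, hG⟩ := vv_wt (Ω := Ω) γ
  obtain ⟨H, -, hHw, hH⟩ := vv_wt (Ω := Ω) δ
  rw [Submodule.coe_inner, L2.inner_def]
  have h1 : ∫ z in Ω, inner ℂ ((vv Ω γ : Lp ℂ 2 (volume.restrict Ω)) z)
      ((vv Ω δ : Lp ℂ 2 (volume.restrict Ω)) z) = ∫ z in Ω, conj (G z) * H z := by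
    refine integral_congr_ae ?_
    filter_upwards [hG, hH] with z h2 h3
    rw [h2, h3, RCLike.inner_apply]
    ring
  rw [h1]
  refine integral_eq_zero_of_weight hΩ.measurableSet hi (δ := -γ + δ) ?_ (hGw.conj.mul hHw)
  intro h
  apply hγδ
  have : δ = γ := by
    have h2 : δ = γ + (-γ + δ) := by abel
    rw [h2, h, add_zero]
  exact this.symm

/-- the class of a good function -/
def cls (hΩ : IsOpen Ω) {γ : Fin n → ℤ} {H : (Fin n → ℂ) → ℂ} (h : Good Ω γ H) : bergman Ω :=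
  ⟨(memLp_of_Ne hΩ h.diff.continuousOn h.fin).toLp H, H, h.diff, MemLp.coeFn_toLp _⟩

theorem cls_ae (hΩ : IsOpen Ω) {γ : Fin n → ℤ} {H : (Fin n → ℂ) → ℂ} (h : Good Ω γ H) :
    (cls hΩ h : Lp ℂ 2 (volume.restrict Ω)) =ᵐ[volume.restrict Ω] H :=
  MemLp.coeFn_toLp (memLp_of_Ne hΩ h.diff.continuousOn h.fin)

theorem nsq_coe (x : bergman Ω) : nsq x = nsq (x : Lp ℂ 2 (volume.restrict Ω)) := rfl

theorem nsq_T_cls (hΩ : IsOpen Ω) (hc : IsPreconnected Ω)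
    (T : bergman Ω →L[ℂ] Lp ℂ 2 (volume.restrict Ω)) {γ : Fin n → ℤ}
    {H : (Fin n → ℂ) → ℂ} (h : Good Ω γ H) :
    nsq (T (cls hΩ h)) = Ne Ω H * nsq (T (vv Ω γ)) := by
  set e := cls hΩ h with he
  have h1 : nsq e = Ne Ω H := by
    rw [nsq_coe, nsq_Lp _ (cls_ae hΩ h)]
  have hn : ‖e‖ ≠ 0 := by
    intro h0
    apply h.pos
    rw [← h1]
    unfold nsq
    rw [h0]
    simp
  have hex : ∃ x : bergman Ω, ‖x‖ = 1 ∧ wt Ω γ x := by
    refine ⟨((‖e‖⁻¹ : ℝ) : ℂ) • e, ?_, fun z => ((‖e‖⁻¹ : ℝ) : ℂ) * H z,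
      h.diff.const_mul _, h.hasW.const_mul _, ?_⟩
    · rw [norm_smul, Complex.norm_real, norm_inv, norm_norm, inv_mul_cancel₀ hn]
    · filter_upwards [Lp.coeFn_smul (((‖e‖⁻¹ : ℝ) : ℂ)) (e : Lp ℂ 2 (volume.restrict Ω)),
        cls_ae hΩ h] with z h2 h3
      rw [Submodule.coe_smul, h2, Pi.smul_apply, smul_eq_mul, he, h3]
  have hv1 : ‖vv Ω γ‖ = 1 := by
    unfold vv
    rw [dif_pos hex]
    exact hex.choose_spec.1
  obtain ⟨G, hGd, hGw, hG⟩ := vv_wt (Ω := Ω) γ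
  have hGne : ∃ z ∈ Ω, G z ≠ 0 := by
    by_contra hcon
    push Not at hcon
    have h2 : nsq (vv Ω γ) = Ne Ω G := by rw [nsq_coe, nsq_Lp _ hG]
    rw [Ne_congr hΩ (h := fun _ => 0) hcon] at h2
    unfold nsq at h2
    rw [hv1] at h2
    simp [Ne] at h2
  obtain ⟨c, hcc⟩ := proportional hΩ hc hGd h.diff hGw h.hasW hGne
  have he2 : e = c • vv Ω γ := by
    apply Subtype.ext
    apply Lp.ext
    rw [Submodule.coe_smul]
    filter_upwards [Lp.coeFn_smul c (vv Ω γ : Lp ℂ 2 (volume.restrict Ω)), cls_ae hΩ h, hG,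
      ae_restrict_mem hΩ.measurableSet] with z h2 h3 h4 h5
    rw [h2, Pi.smul_apply, smul_eq_mul, he, h3, h4, hcc z h5]
  rw [← h1, he2, map_smul, nsq_smul, nsq_smul]
  have h6 : nsq (vv Ω γ) = 1 := by
    unfold nsq
    rw [hv1]
    simp
  rw [h6, mul_one]

/-- supremum of the ratios -/
def rr (Ω : Set (Fin n → ℂ)) (F : (Fin n → ℂ) → ℂ) (γ : Fin n → ℤ) : ℝ≥0∞ :=
  ⨆ (H : (Fin n → ℂ) → ℂ) (_ : Good Ω γ H), Ne Ω (fun z => F z * H z) / Ne Ω H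

theorem rr_le (hΩ : IsOpen Ω) (hc : IsPreconnected Ω) (hi : Inv Ω) (hne : Ωᶜ.Nonempty)
    {f : (Fin n → ℂ) → ℂ} (hf : DifferentiableOn ℂ f Ω)
    {T : bergman Ω →L[ℂ] Lp ℂ 2 (volume.restrict Ω)} (hT : IsHankel Ω f T)
    {β : Fin n → ℤ} (hF : ∃ z ∈ Ω, Av β f z ≠ 0) (γ : Fin n → ℤ) :
    rr Ω (Av β f) γ ≤ nsq (T (vv Ω γ)) + rr Ω (Av β f) (γ - β) := by
  have hFd := differentiableOn_Av hΩ hi hf β
  refine iSup₂_le fun H hH => ?_
  rw [ENNReal.div_le_iff hH.pos hH.fin]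
  by_cases h : ∀ G, DifferentiableOn ℂ G Ω → HasW Ω (γ - β) G → ∀ z ∈ Ω, G z = 0
  · have h1 := limB hΩ hc hi hne hf hT hH.diff hH.hasW (cls hΩ hH) (cls_ae hΩ hH) h
    rw [nsq_T_cls hΩ hc T hH] at h1
    refine h1.trans ?_
    rw [mul_comm]
    gcongr
    exact le_self_add
  · push Not at h
    obtain ⟨G, hGd, hGw, z₀, hz₀, hGz₀⟩ := h
    obtain ⟨p, hp, hp0⟩ := exists_generic hΩ ⟨_, hz₀⟩
    have hGp := ne_zero_generic hΩ hc hGd hGw ⟨z₀, hz₀, hGz₀⟩ hp hp0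
    have hFp := ne_zero_generic hΩ hc hFd (hasW_Av β f) hF hp hp0
    have hHp := ne_zero_generic hΩ hc hH.diff hH.hasW (hH.exists_ne hΩ) hp hp0
    have hFGw : HasW Ω γ (fun z => Av β f z * G z) := by
      have := (hasW_Av (Ω := Ω) β f).mul hGw
      have h3 : β + (γ - β) = γ := by abel
      rwa [h3] at this
    obtain ⟨c, hcc⟩ := proportional hΩ hc (hFd.mul hGd) hH.diff hFGw hH.hasW
      ⟨p, hp, mul_ne_zero hFp hGp⟩
    have hc0 : c ≠ 0 := by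
      intro h0
      apply hHp
      rw [hcc p hp, h0, zero_mul]
    set H' : (Fin n → ℂ) → ℂ := fun z => c * G z with hH'
    have hFH : ∀ z ∈ Ω, Av β f z * H' z = H z := by
      intro z hz
      rw [hcc z hz, hH']
      simp only [Pi.mul_apply]
      ring
    have hH'd : DifferentiableOn ℂ H' Ω := hGd.const_mul c
    have hH'w : HasW Ω (γ - β) H' := hGw.const_mul c
    have hpos : Ne Ω H' ≠ 0 :=
      Ne_ne_zero hΩ hH'd.continuousOn ⟨p, hp, mul_ne_zero hc0 hGp⟩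
    have h1 := limA hΩ hc hi hne hf hT hH.diff hH.hasW (cls hΩ hH) (cls_ae hΩ hH) hH'd hH'w hFH
      hpos hH.fin
    rw [nsq_T_cls hΩ hc T hH] at h1
    refine h1.trans ?_
    rw [add_mul, mul_comm (Ne Ω H)]
    gcongr
    by_cases hfin : Ne Ω H' = ⊤
    · rw [hfin]
      simp
    · have hg : Good Ω (γ - β) H' := ⟨hH'd, hH'w, hfin, hpos⟩
      have h2 : Ne Ω H / Ne Ω H' ≤ rr Ω (Av β f) (γ - β) := by
        have h3 : Ne Ω H = Ne Ω (fun z => Av β f z * H' z) :=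
          Ne_congr hΩ fun z hz => (hFH z hz).symm
        rw [h3]
        exact le_iSup₂ (f := fun (H : (Fin n → ℂ) → ℂ) (_ : Good Ω (γ - β) H) =>
          Ne Ω (fun z => Av β f z * H z) / Ne Ω H) H' hg
      calc Ne Ω H ^ 2 / Ne Ω H' = Ne Ω H / Ne Ω H' * Ne Ω H := by
            rw [sq, mul_comm (Ne Ω H / Ne Ω H'), mul_div_assoc]
        _ ≤ rr Ω (Av β f) (γ - β) * Ne Ω H := by gcongr

end

end Pool.Agent.X184.Hk
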