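import Pool.Agent.X184.HkH

set_option autoImplicit false

open MeasureTheory Set Filter Topology
open scoped ComplexConjugate ENNReal

namespace Pool.Agent.X184.Hk

noncomputable section

variable {n : ℕ} {Ω : Set (Fin n → ℂ)}

theorem geom_contra {x y : ℝ} (hx : 0 < x) (hxy : x < y) {A B : ℝ≥0∞} (hA : A ≠ 0) (hB : B ≠ ⊤)
    (h : ∀ k : ℕ, ENNReal.ofReal y ^ k * A ≤ ENNReal.ofReal x ^ k * B) : False := by
  have hAB : A ≤ B := by simpa using h 0
  have hA' : A ≠ ⊤ := ne_top_of_le_ne_top hB hAB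
  have ha : 0 < A.toReal := ENNReal.toReal_pos hA hA'
  have hy : 0 < y := hx.trans hxy
  obtain ⟨k, hk⟩ := pow_unbounded_of_one_lt (B.toReal / A.toReal) ((one_lt_div hx).2 hxy)
  have h1 := h k
  have h2 : y ^ k * A.toReal ≤ x ^ k * B.toReal := by
    have h3 := ENNReal.toReal_mono (by finiteness) h1
    rw [ENNReal.toReal_mul, ENNReal.toReal_mul, ENNReal.toReal_pow, ENNReal.toReal_pow,
      ENNReal.toReal_ofReal hx.le, ENNReal.toReal_ofReal hy.le] at h3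
    exact h3
  have hxk : 0 < x ^ k := by positivity
  rw [div_lt_iff₀ ha, div_pow] at hk
  have h4 : y ^ k / x ^ k * A.toReal ≤ B.toReal := by
    rw [div_mul_eq_mul_div, div_le_iff₀ hxk]
    linarith
  linarith

theorem Ne_const_pow_mul_le {V : Set (Fin n → ℂ)} (hV : IsOpen V) {c : ℝ} (hc : 0 ≤ c)
    {g h : (Fin n → ℂ) → ℂ} (k : ℕ) (hgh : ∀ z ∈ V, c ^ k * ‖g z‖ ^ 2 ≤ ‖h z‖ ^ 2) :
    ENNReal.ofReal c ^ k * Ne V g ≤ Ne V h := by
  unfold Ne
  rw [← lintegral_const_mul' _ _ (by finiteness)]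
  refine setLIntegral_mono' hV.measurableSet fun z hz => ?_
  rw [← ENNReal.ofReal_pow hc, ← ofReal_norm, ← ofReal_norm, ← ENNReal.ofReal_pow (norm_nonneg _),
    ← ENNReal.ofReal_pow (norm_nonneg _), ← ENNReal.ofReal_mul (by positivity)]
  exact ENNReal.ofReal_le_ofReal (hgh z hz)

theorem le_rr {F H : (Fin n → ℂ) → ℂ} {γ : Fin n → ℤ} (hH : Good Ω γ H) :
    Ne Ω (fun z => F z * H z) / Ne Ω H ≤ rr Ω F γ :=
  le_iSup₂ (f := fun (H : (Fin n → ℂ) → ℂ) (_ : Good Ω γ H) =>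
    Ne Ω (fun z => F z * H z) / Ne Ω H) H hH

theorem up (hΩ : IsOpen Ω) (hc : IsPreconnected Ω) {F : (Fin n → ℂ) → ℂ} {β : Fin n → ℤ}
    (hFd : DifferentiableOn ℂ F Ω) (hFw : HasW Ω β F) {p : Fin n → ℂ} (hp : p ∈ Ω)
    (hp0 : ∀ j, p j ≠ 0) (hFne : F p ≠ 0) {γ : Fin n → ℤ} {H : (Fin n → ℂ) → ℂ}
    (hH : Good Ω γ H) {M' ρ' : ℝ} (h0 : 0 < ρ') (h1 : ρ' < M')
    (hV : ∃ z ∈ Ω, M' < ‖F z‖ ^ 2) :
    ∃ k : ℕ, ENNReal.ofReal ρ' < rr Ω F (γ + (k : ℤ) • β) := by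
  by_contra hcon
  push Not at hcon
  have hHp := ne_zero_generic hΩ hc hH.diff hH.hasW (hH.exists_ne hΩ) hp hp0
  have ind : ∀ k : ℕ, Good Ω (γ + (k : ℤ) • β) (fun z => F z ^ k * H z) ∧
      Ne Ω (fun z => F z ^ k * H z) ≤ ENNReal.ofReal ρ' ^ k * Ne Ω H := by
    intro k
    induction k with
    | zero => simpa using hH
    | succ k ih =>
      obtain ⟨hg, hle⟩ := ih
      have h2 : (fun z => F z ^ (k + 1) * H z) = fun z => F z * (F z ^ k * H z) := by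
        funext z; ring
      have h3 : Ne Ω (fun z => F z * (F z ^ k * H z)) ≤ ENNReal.ofReal ρ' ^ (k + 1) * Ne Ω H := by
        have h4 := (le_rr (F := F) hg).trans (hcon k)
        rw [ENNReal.div_le_iff hg.pos hg.fin] at h4
        calc _ ≤ ENNReal.ofReal ρ' * Ne Ω (fun z => F z ^ k * H z) := h4
          _ ≤ ENNReal.ofReal ρ' * (ENNReal.ofReal ρ' ^ k * Ne Ω H) := by gcongr
          _ = _ := by ring
      rw [h2]
      refine ⟨⟨hFd.mul hg.diff, ?_, ?_, ?_⟩, h3⟩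
      · have := hFw.mul hg.hasW
        have h5 : β + (γ + (k : ℤ) • β) = γ + ((k + 1 : ℕ) : ℤ) • β := by
          push_cast
          rw [add_smul, one_smul]
          abel
        rwa [h5] at this
      · refine ne_top_of_le_ne_top ?_ h3
        have := hH.fin
        finiteness
      · exact Ne_ne_zero hΩ (hFd.mul hg.diff).continuousOn
          ⟨p, hp, mul_ne_zero hFne (mul_ne_zero (pow_ne_zero _ hFne) hHp)⟩
  set V : Set (Fin n → ℂ) := Ω ∩ (fun z => ‖F z‖ ^ 2) ⁻¹' Ioi M' with hVdef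
  have hVo : IsOpen V := (hFd.continuousOn.norm.pow 2).isOpen_inter_preimage hΩ isOpen_Ioi
  have hVne : V.Nonempty := by
    obtain ⟨z, hz, hz2⟩ := hV
    exact ⟨z, hz, hz2⟩
  obtain ⟨q, hq, hq0⟩ := exists_generic hVo hVne
  have hHq := ne_zero_generic hΩ hc hH.diff hH.hasW (hH.exists_ne hΩ) hq.1 hq0
  have hVH : Ne V H ≠ 0 :=
    Ne_ne_zero hVo (hH.diff.continuousOn.mono inter_subset_left) ⟨q, hq, hHq⟩
  refine geom_contra h0 h1 hVH hH.fin fun k => ?_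
  calc ENNReal.ofReal M' ^ k * Ne V H ≤ Ne V (fun z => F z ^ k * H z) := by
        refine Ne_const_pow_mul_le hVo (h0.trans h1).le k fun z hz => ?_
        rw [norm_mul, mul_pow, norm_pow, ← pow_mul, mul_comm k 2, pow_mul]
        have h2 : M' < ‖F z‖ ^ 2 := hz.2
        have h3 : 0 ≤ M' := (h0.trans h1).le
        gcongr
    _ ≤ Ne Ω (fun z => F z ^ k * H z) := Ne_mono inter_subset_left _
    _ ≤ _ := (ind k).2

theorem down (hΩ : IsOpen Ω) (hc : IsPreconnected Ω) {F : (Fin n → ℂ) → ℂ} {β : Fin n → ℤ}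
    (hFd : DifferentiableOn ℂ F Ω) (hFw : HasW Ω β F) {p : Fin n → ℂ} (hp : p ∈ Ω)
    (hp0 : ∀ j, p j ≠ 0) (hFne : F p ≠ 0) {γ : Fin n → ℤ} {H : (Fin n → ℂ) → ℂ}
    (hH : Good Ω γ H) {m' ρ : ℝ} (h0 : 0 < m') (h1 : m' < ρ)
    (hU : ∃ z ∈ Ω, ‖F z‖ ^ 2 < m') :
    ∃ k : ℕ, rr Ω F (γ - (k : ℤ) • β) ≤ ENNReal.ofReal ρ := by
  by_contra hcon
  push Not at hcon
  have hρ : 0 < ρ := h0.trans h1
  have ind : ∀ k : ℕ, ∃ G, Good Ω (γ - (k : ℤ) • β) G ∧ (∀ z ∈ Ω, F z ^ k * G z = H z) ∧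
      ENNReal.ofReal ρ ^ k * Ne Ω G ≤ Ne Ω H := by
    intro k
    induction k with
    | zero => exact ⟨H, by simpa using hH, fun z _ => by simp, by simp⟩
    | succ k ih =>
      obtain ⟨G, hG, hGH, hle⟩ := ih
      have h2 := hcon (k + 1)
      unfold rr at h2
      rw [lt_iSup_iff] at h2
      obtain ⟨G1, h3⟩ := h2
      rw [lt_iSup_iff] at h3
      obtain ⟨hG1, h4⟩ := h3
      have hG1p := ne_zero_generic hΩ hc hG1.diff hG1.hasW (hG1.exists_ne hΩ) hp hp0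
      have hGp := ne_zero_generic hΩ hc hG.diff hG.hasW (hG.exists_ne hΩ) hp hp0
      have hw : HasW Ω (γ - (k : ℤ) • β) (fun z => F z * G1 z) := by
        have := hFw.mul hG1.hasW
        have h5 : β + (γ - ((k + 1 : ℕ) : ℤ) • β) = γ - (k : ℤ) • β := by
          push_cast
          rw [add_smul, one_smul]
          abel
        rwa [h5] at this
      obtain ⟨c, hcc⟩ := proportional hΩ hc (hFd.mul hG1.diff) hG.diff hw hG.hasW
        ⟨p, hp, mul_ne_zero hFne hG1p⟩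
      have hc0 : c ≠ 0 := by
        intro h0
        apply hGp
        rw [hcc p hp, h0, zero_mul]
      have hFG : ∀ z ∈ Ω, F z * (c * G1 z) = G z := by
        intro z hz
        rw [hcc z hz]
        simp only [Pi.mul_apply]
        ring
      refine ⟨fun z => c * G1 z, ⟨hG1.diff.const_mul c, hG1.hasW.const_mul c, ?_, ?_⟩, ?_, ?_⟩
      · rw [Ne_const_mul]
        have h6 := hG1.fin
        have h7 : nsq c ≠ ⊤ := ENNReal.ofReal_ne_top
        finiteness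
      · exact Ne_ne_zero hΩ (hG1.diff.const_mul c).continuousOn ⟨p, hp, mul_ne_zero hc0 hG1p⟩
      · intro z hz
        rw [pow_succ, mul_assoc, hFG z hz, hGH z hz]
      · have h6 : ENNReal.ofReal ρ * Ne Ω G1 ≤ Ne Ω (fun z => F z * G1 z) := by
          rw [← ENNReal.le_div_iff_mul_le (Or.inl hG1.pos) (Or.inl hG1.fin)]
          exact h4.le
        have h7 : Ne Ω (fun z => F z * (c * G1 z)) = nsq c * Ne Ω (fun z => F z * G1 z) := by
          rw [← Ne_const_mul]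
          congr 1
          funext z
          ring
        rw [Ne_const_mul]
        calc ENNReal.ofReal ρ ^ (k + 1) * (nsq c * Ne Ω G1)
            = ENNReal.ofReal ρ ^ k * (nsq c * (ENNReal.ofReal ρ * Ne Ω G1)) := by ring
          _ ≤ ENNReal.ofReal ρ ^ k * (nsq c * Ne Ω (fun z => F z * G1 z)) := by gcongr
          _ = ENNReal.ofReal ρ ^ k * Ne Ω G := by
              rw [← h7, Ne_congr hΩ hFG]
          _ ≤ _ := hle
  set U : Set (Fin n → ℂ) := Ω ∩ (fun z => ‖F z‖ ^ 2) ⁻¹' Iio m' with hUdef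
  have hUo : IsOpen U := (hFd.continuousOn.norm.pow 2).isOpen_inter_preimage hΩ isOpen_Iio
  have hUne : U.Nonempty := by
    obtain ⟨z, hz, hz2⟩ := hU
    exact ⟨z, hz, hz2⟩
  obtain ⟨q, hq, hq0⟩ := exists_generic hUo hUne
  have hHq := ne_zero_generic hΩ hc hH.diff hH.hasW (hH.exists_ne hΩ) hq.1 hq0
  have hUH : Ne U H ≠ 0 :=
    Ne_ne_zero hUo (hH.diff.continuousOn.mono inter_subset_left) ⟨q, hq, hHq⟩
  refine geom_contra h0 h1 hUH hH.fin fun k => ?_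
  obtain ⟨G, hG, hGH, hle⟩ := ind k
  -- `Ne U H ≤ m' ^ k * Ne U G`
  have h2 : Ne U H ≤ ENNReal.ofReal m' ^ k * Ne U G := by
    have h3 : ENNReal.ofReal (1 / m') ^ k * Ne U H ≤ Ne U G := by
      refine Ne_const_pow_mul_le hUo (by positivity) k fun z hz => ?_
      rw [← hGH z hz.1, norm_mul, mul_pow, norm_pow, ← pow_mul, mul_comm k 2, pow_mul]
      have h4 : ‖F z‖ ^ 2 < m' := hz.2
      have h5 : (‖F z‖ ^ 2) ^ k ≤ m' ^ k := by gcongr
      calc (1 / m') ^ k * ((‖F z‖ ^ 2) ^ k * ‖G z‖ ^ 2)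
          ≤ (1 / m') ^ k * (m' ^ k * ‖G z‖ ^ 2) := by gcongr
        _ = ‖G z‖ ^ 2 := by
            rw [← mul_assoc, ← mul_pow, one_div, inv_mul_cancel₀ h0.ne', one_pow, one_mul]
    calc Ne U H = ENNReal.ofReal m' ^ k * (ENNReal.ofReal (1 / m') ^ k * Ne U H) := by
          rw [← mul_assoc, ← mul_pow, ← ENNReal.ofReal_mul h0.le, mul_one_div_cancel h0.ne']
          simp
      _ ≤ _ := by gcongr
  calc ENNReal.ofReal ρ ^ k * Ne U H ≤ ENNReal.ofReal ρ ^ k * (ENNReal.ofReal m' ^ k * Ne U G) := by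
        gcongr
    _ ≤ ENNReal.ofReal ρ ^ k * (ENNReal.ofReal m' ^ k * Ne Ω G) := by
        gcongr
        exact Ne_mono inter_subset_left _
    _ = ENNReal.ofReal m' ^ k * (ENNReal.ofReal ρ ^ k * Ne Ω G) := by ring
    _ ≤ _ := by gcongr

theorem telescope {r a : (Fin n → ℤ) → ℝ≥0∞} {β : Fin n → ℤ}
    (h : ∀ γ, r γ ≤ a γ + r (γ - β)) (γ : Fin n → ℤ) (m : ℕ) :
    r γ ≤ ∑ i ∈ Finset.range m, a (γ - (i : ℤ) • β) + r (γ - (m : ℤ) • β) := by
  induction m with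
  | zero => simp
  | succ m ih =>
    refine ih.trans ?_
    rw [Finset.sum_range_succ, add_assoc]
    gcongr
    refine (h _).trans (le_of_eq ?_)
    congr 2
    push_cast
    rw [add_smul, one_smul]
    abel

/-- each line of weights contributes a definite amount -/
theorem line_bound (hΩ : IsOpen Ω) (hc : IsPreconnected Ω) (hi : Inv Ω) (hne : Ωᶜ.Nonempty)
    {f : (Fin n → ℂ) → ℂ} (hf : DifferentiableOn ℂ f Ω)
    {T : bergman Ω →L[ℂ] Lp ℂ 2 (volume.restrict Ω)} (hT : IsHankel Ω f T)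
    {β : Fin n → ℤ} {p : Fin n → ℂ} (hp : p ∈ Ω)
    (hp0 : ∀ j, p j ≠ 0) (hFne : Av β f p ≠ 0) {γ : Fin n → ℤ} {H : (Fin n → ℂ) → ℂ}
    (hH : Good Ω γ H) {m' ρ ρ' M' : ℝ} (h0 : 0 < m') (h1 : m' < ρ) (h2 : ρ < ρ') (h3 : ρ' < M')
    (hU : ∃ z ∈ Ω, ‖Av β f z‖ ^ 2 < m') (hV : ∃ z ∈ Ω, M' < ‖Av β f z‖ ^ 2) :
    ENNReal.ofReal (ρ' - ρ) ≤ ∑' l : ℤ, nsq (T (vv Ω (γ + l • β))) := by
  have hFd := differentiableOn_Av hΩ hi hf β
  have hFw : HasW Ω β (Av β f) := hasW_Av β f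
  obtain ⟨k, hk⟩ := up hΩ hc hFd hFw hp hp0 hFne hH ((h0.trans h1).trans h2) h3 hV
  obtain ⟨m, hm⟩ := down hΩ hc hFd hFw hp hp0 hFne hH h0 h1 hU
  have h4 := telescope (rr_le hΩ hc hi hne hf hT ⟨p, hp, hFne⟩) (γ + (k : ℤ) • β) (k + m)
  have h5 : γ + (k : ℤ) • β - ((k + m : ℕ) : ℤ) • β = γ - (m : ℤ) • β := by
    push_cast
    rw [add_smul]
    abel
  rw [h5] at h4
  have h6 : ∑ i ∈ Finset.range (k + m), nsq (T (vv Ω (γ + (k : ℤ) • β - (i : ℤ) • β)))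
      ≤ ∑' l : ℤ, nsq (T (vv Ω (γ + l • β))) := by
    have h7 : ∀ i : ℕ, γ + (k : ℤ) • β - (i : ℤ) • β = γ + ((k : ℤ) - i) • β := by
      intro i
      rw [sub_smul]
      abel
    simp_rw [h7]
    refine (ENNReal.sum_le_tsum _).trans ?_
    refine ENNReal.tsum_comp_le_tsum_of_injective (f := fun i : ℕ => (k : ℤ) - i) ?_
      (fun l : ℤ => nsq (T (vv Ω (γ + l • β))))
    intro a b hab
    simp only at hab
    omega
  have h8 : ENNReal.ofReal ρ' ≤ ∑' l : ℤ, nsq (T (vv Ω (γ + l • β))) + ENNReal.ofReal ρ :=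
    hk.le.trans (h4.trans (by gcongr))
  rw [ENNReal.ofReal_sub _ (h0.trans h1).le]
  exact tsub_le_iff_right.2 h8

end

end Pool.Agent.X184.Hk
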