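import Mathlib

set_option autoImplicit false

open MeasureTheory Set
open scoped ComplexConjugate

namespace Pool.Agent.X184.HkR

/-- `Ω ⊆ ℂⁿ` is Reinhardt: it is invariant under multiplication of the coordinates by complex
numbers of modulus one. -/
def IsReinhardt {n : ℕ} (Ω : Set (Fin n → ℂ)) : Prop :=
  ∀ z ∈ Ω, ∀ u : Fin n → ℂ, (∀ j, ‖u j‖ = 1) → (fun j => u j * z j) ∈ Ω

/-- Lebesgue measure on `Ω ⊆ ℂⁿ`. -/
noncomputable def vol {n : ℕ} (Ω : Set (Fin n → ℂ)) : Measure (Fin n → ℂ) := volume.restrict Ω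

/-- The Hilbert space `L²(Ω)`, for Lebesgue measure on `Ω ⊆ ℂⁿ`. -/
def L2 {n : ℕ} (Ω : Set (Fin n → ℂ)) : Type := Lp ℂ 2 (vol Ω)

noncomputable instance L2.group {n : ℕ} (Ω : Set (Fin n → ℂ)) : NormedAddCommGroup (L2 Ω) :=
  (inferInstance : NormedAddCommGroup (Lp ℂ 2 (vol Ω)))

noncomputable instance L2.inner {n : ℕ} (Ω : Set (Fin n → ℂ)) : InnerProductSpace ℂ (L2 Ω) :=
  (inferInstance : InnerProductSpace ℂ (Lp ℂ 2 (vol Ω)))

/-- a representative of an element of `L²(Ω)` -/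
noncomputable def L2.rep {n : ℕ} {Ω : Set (Fin n → ℂ)} (g : L2 Ω) : (Fin n → ℂ) → ℂ :=
  AEEqFun.cast (Subtype.val (show Lp ℂ 2 (vol Ω) from g))

/-- The element `g` of `L²(Ω)` is the class of the function `G`: they agree almost everywhere
on `Ω`. -/
def IsClassOf {n : ℕ} {Ω : Set (Fin n → ℂ)} (g : L2 Ω) (G : (Fin n → ℂ) → ℂ) : Prop :=
  ∀ᵐ z ∂(vol Ω), g.rep z = G z

theorem isClassOf_zero {n : ℕ} (Ω : Set (Fin n → ℂ)) : IsClassOf (0 : L2 Ω) fun _ => 0 :=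
  Lp.coeFn_zero _ _ _

theorem IsClassOf.add {n : ℕ} {Ω : Set (Fin n → ℂ)} {a b : L2 Ω} {A B : (Fin n → ℂ) → ℂ}
    (ha : IsClassOf a A) (hb : IsClassOf b B) : IsClassOf (a + b) (A + B) := by
  have h := Lp.coeFn_add (show Lp ℂ 2 (vol Ω) from a) (show Lp ℂ 2 (vol Ω) from b)
  unfold IsClassOf L2.rep at *
  filter_upwards [h, ha, hb] with z h1 h2 h3
  rw [Pi.add_apply, ← h2, ← h3]
  exact h1

theorem IsClassOf.smul {n : ℕ} {Ω : Set (Fin n → ℂ)} {a : L2 Ω} {A : (Fin n → ℂ) → ℂ}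
    (ha : IsClassOf a A) (c : ℂ) : IsClassOf (c • a) (c • A) := by
  have h := Lp.coeFn_smul c (show Lp ℂ 2 (vol Ω) from a)
  unfold IsClassOf L2.rep at *
  filter_upwards [h, ha] with z h1 h2
  rw [Pi.smul_apply, ← h2]
  exact h1

/-- membership in the Bergman space: `g` is the class of a holomorphic function -/
def IsBergman {n : ℕ} {Ω : Set (Fin n → ℂ)} (g : L2 Ω) : Prop :=
  ∃ G : (Fin n → ℂ) → ℂ, DifferentiableOn ℂ G Ω ∧ IsClassOf g G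

theorem isBergman_zero {n : ℕ} (Ω : Set (Fin n → ℂ)) : IsBergman (0 : L2 Ω) :=
  ⟨fun _ => 0, differentiableOn_const 0, isClassOf_zero Ω⟩

theorem IsBergman.add {n : ℕ} {Ω : Set (Fin n → ℂ)} {a b : L2 Ω} (ha : IsBergman a)
    (hb : IsBergman b) : IsBergman (a + b) := by
  obtain ⟨A, hA, hA'⟩ := ha
  obtain ⟨B, hB, hB'⟩ := hb
  exact ⟨A + B, hA.add hB, hA'.add hB'⟩

theorem IsBergman.smul {n : ℕ} {Ω : Set (Fin n → ℂ)} (c : ℂ) {a : L2 Ω} (ha : IsBergman a) :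
    IsBergman (c • a) := by
  obtain ⟨A, hA, hA'⟩ := ha
  exact ⟨c • A, hA.const_smul c, hA'.smul c⟩

/-- The Bergman space as a subspace of `L²(Ω)`. -/
noncomputable def bergman {n : ℕ} (Ω : Set (Fin n → ℂ)) : Submodule ℂ (L2 Ω) where
  carrier := {g | IsBergman g}
  add_mem' := IsBergman.add
  zero_mem' := isBergman_zero Ω
  smul_mem' := IsBergman.smul

/-- The Bergman space `A²(Ω)`: the space of the classes in `L²(Ω)` of holomorphic functions,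
with the inner product of `L²(Ω)`. -/
def A2 {n : ℕ} (Ω : Set (Fin n → ℂ)) : Type := bergman Ω

noncomputable instance A2.group {n : ℕ} (Ω : Set (Fin n → ℂ)) : NormedAddCommGroup (A2 Ω) :=
  (inferInstance : NormedAddCommGroup (bergman Ω))

noncomputable instance A2.inner {n : ℕ} (Ω : Set (Fin n → ℂ)) : InnerProductSpace ℂ (A2 Ω) :=
  (inferInstance : InnerProductSpace ℂ (bergman Ω))

/-- the inclusion of `A²(Ω)` in `L²(Ω)` -/
noncomputable def A2.toL2 {n : ℕ} {Ω : Set (Fin n → ℂ)} (g : A2 Ω) : L2 Ω :=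
  (show bergman Ω from g).1

/-- bounded operators from `A²(Ω)` to `L²(Ω)` -/
abbrev Op {n : ℕ} (Ω : Set (Fin n → ℂ)) : Type := A2 Ω →L[ℂ] L2 Ω

/-- `h = f̄ g` in `L²(Ω)` -/
def IsProd {n : ℕ} {Ω : Set (Fin n → ℂ)} (f : (Fin n → ℂ) → ℂ) (g h : L2 Ω) : Prop :=
  IsClassOf h fun z => conj (f z) * g.rep z

/-- `t = (I - P) h`, where `P` is the orthogonal projection onto `A²(Ω)`: `h - t` is in `A²(Ω)`
and `t` is orthogonal to `A²(Ω)`. -/
def IsComplProj {n : ℕ} {Ω : Set (Fin n → ℂ)} (h t : L2 Ω) : Prop :=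
  IsBergman (h - t) ∧ ∀ k : L2 Ω, IsBergman k → inner ℂ k t = 0

/-- the domain of `H_{f̄}`: the `g ∈ A²(Ω)` with `f̄ g ∈ L²(Ω)` -/
def hankelDomain {n : ℕ} (Ω : Set (Fin n → ℂ)) (f : (Fin n → ℂ) → ℂ) : Set (A2 Ω) :=
  {g | ∃ h : L2 Ω, IsProd f g.toL2 h}

/-- `T : A²(Ω) → L²(Ω)` is the bounded extension of the Hankel operator `H_{f̄}`, where
`H_{f̄} g = (I - P)(f̄ g)` for `g ∈ A²(Ω)` with `f̄ g ∈ L²(Ω)`, `P` being the orthogonal projection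
onto `A²(Ω)`; the set of such `g` is required to be dense in `A²(Ω)`. -/
def IsHankel {n : ℕ} {Ω : Set (Fin n → ℂ)} (f : (Fin n → ℂ) → ℂ) (T : Op Ω) : Prop :=
  Dense (hankelDomain Ω f) ∧
    ∀ (g : A2 Ω) (h : L2 Ω), IsProd f g.toL2 h → IsComplProj h (T g)

/-- `T` is Hilbert-Schmidt: `∑ₖ ‖T eₖ‖² < ∞` for some orthonormal (Hilbert) basis `(eₖ)`. -/
def IsHilbertSchmidt {n : ℕ} {Ω : Set (Fin n → ℂ)} (T : Op Ω) : Prop :=
  ∃ (ι : Type) (b : HilbertBasis ι ℂ (A2 Ω)), Summable fun k => ‖T (b k)‖ ^ 2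

end Pool.Agent.X184.HkR
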