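import Pool.Agent.X184.HkI

set_option autoImplicit false

open MeasureTheory Set Filter Topology
open scoped ComplexConjugate ENNReal

namespace Pool.Agent.X184.Hk

noncomputable section

variable {n : ℕ} {Ω : Set (Fin n → ℂ)}

theorem good_monomial (hΩ : IsOpen Ω) (hb : Bornology.IsBounded Ω) {p : Fin n → ℂ} (hp : p ∈ Ω)
    (hp0 : ∀ j, p j ≠ 0) (j : Fin n) (t : ℕ) :
    Good Ω (Pi.single j (t : ℤ)) (fun z => z j ^ t) := by
  have hd : Differentiable ℂ (fun z : Fin n → ℂ => z j ^ t) := by fun_prop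
  refine ⟨hd.differentiableOn, ?_, ?_, ?_⟩
  · intro u z _
    have h1 : chr (Pi.single j (t : ℤ)) u = (u j : ℂ) ^ t := by
      unfold chr
      rw [Finset.prod_eq_single j]
      · simp
      · intro i _ hij
        simp [Pi.single_eq_of_ne hij]
      · simp
    rw [h1]
    simp only [act, mul_pow]
  · obtain ⟨R, hR⟩ := hb.exists_norm_le
    have h1 : Ne Ω (fun z => z j ^ t) ≤ ∫⁻ _ in Ω, ENNReal.ofReal ((R ^ t) ^ 2) := by
      refine setLIntegral_mono' hΩ.measurableSet fun z hz => ?_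
      rw [← ofReal_norm, ← ENNReal.ofReal_pow (norm_nonneg _)]
      apply ENNReal.ofReal_le_ofReal
      rw [norm_pow]
      have h2 : ‖z j‖ ≤ R := (norm_le_pi_norm z j).trans (hR z hz)
      gcongr
    refine ne_top_of_le_ne_top ?_ h1
    rw [setLIntegral_const]
    have h3 : volume Ω ≠ ⊤ := hb.measure_lt_top.ne
    finiteness
  · exact Ne_ne_zero hΩ hd.continuous.continuousOn ⟨p, hp, pow_ne_zero _ (hp0 j)⟩

theorem exists_ne_norm (hΩ : IsOpen Ω) {F : (Fin n → ℂ) → ℂ} {β : Fin n → ℤ} (hβ : β ≠ 0)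
    (hFd : DifferentiableOn ℂ F Ω) (hFw : HasW Ω β F) {p : Fin n → ℂ} (hp : p ∈ Ω)
    (hFp : F p ≠ 0) : ∃ z ∈ Ω, ‖F z‖ ≠ ‖F p‖ := by
  obtain ⟨i, hi⟩ : ∃ i, β i ≠ 0 := by
    by_contra h
    push Not at h
    exact hβ (funext h)
  have h1 := local_form hΩ hFd hFw hp
  have h2 : ∀ᶠ ζ in 𝓝 (0 : Fin n → ℂ), Ex p ζ ∈ Ω := by
    have h3 : Tendsto (Ex p) (𝓝 0) (𝓝 p) := by
      have := (Ex_differentiable p).continuous.tendsto 0
      rwa [Ex_zero] at this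
    exact h3.eventually (hΩ.mem_nhds hp)
  have h3 : Tendsto (fun s : ℝ => (Pi.single i (s : ℂ) : Fin n → ℂ)) (𝓝[>] 0) (𝓝 0) := by
    have hcont : Continuous fun s : ℝ => (Pi.single i (s : ℂ) : Fin n → ℂ) :=
      (continuous_single i).comp Complex.continuous_ofReal
    have h4 := hcont.tendsto 0
    have h5 : (Pi.single i ((0 : ℝ) : ℂ) : Fin n → ℂ) = 0 := by simp
    rw [h5] at h4
    exact h4.mono_left nhdsWithin_le_nhds
  obtain ⟨s, ⟨hs1, hs2⟩, hs3⟩ :=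
    ((h3.eventually (h1.and h2)).and self_mem_nhdsWithin).exists
  refine ⟨_, hs2, ?_⟩
  rw [hs1, norm_mul, Complex.norm_exp]
  have h6 : (∑ j, (β j : ℂ) * (Pi.single i (s : ℂ) : Fin n → ℂ) j) = (((β i : ℝ) * s : ℝ) : ℂ) := by
    rw [Finset.sum_eq_single i]
    · simp
    · intro j _ hji
      simp [Pi.single_eq_of_ne hji]
    · simp
  rw [h6, Complex.ofReal_re]
  intro h7
  have h8 : ‖F p‖ ≠ 0 := norm_ne_zero_iff.2 hFp
  have h9 : Real.exp ((β i : ℝ) * s) = 1 := by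
    apply mul_left_cancel₀ h8
    rw [h7, mul_one]
  rw [Real.exp_eq_one_iff] at h9
  have h10 : (β i : ℝ) ≠ 0 := by exact_mod_cast hi
  have h11 : s ≠ 0 := ne_of_gt hs3
  exact (mul_ne_zero h10 h11) h9

/-- weights on the lines -/
def wl (j : Fin n) (β : Fin n → ℤ) (t : ℕ) (l : ℤ) : Fin n → ℤ := Pi.single j (t : ℤ) + l • β

theorem wl_inj {i j : Fin n} (hji : j ≠ i) {β : Fin n → ℤ} (hβi : β i ≠ 0) :
    Function.Injective fun q : ℕ × ℤ => wl j β q.1 q.2 := by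
  rintro ⟨t, l⟩ ⟨t', l'⟩ h
  have h1 := congrFun h i
  have h2 := congrFun h j
  simp only [wl, Pi.add_apply, Pi.smul_apply, smul_eq_mul, Pi.single_eq_same,
    Pi.single_eq_of_ne hji.symm, zero_add] at h1 h2
  have h3 : l = l' := mul_right_cancel₀ hβi h1
  subst h3
  have h4 : (t : ℤ) = t' := by linarith
  have h5 : t = t' := by exact_mod_cast h4
  rw [h5]

theorem sum_lines {κ : Type*} {c : ℝ≥0∞} (w : ℕ → ℤ → κ) (g : κ → ℝ≥0∞)
    (hinj : Function.Injective fun q : ℕ × ℤ => w q.1 q.2)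
    (hc1 : c ≠ 0) (hline : ∀ t : ℕ, c ≤ ∑' l : ℤ, g (w t l)) :
    ⊤ ≤ ∑' γ, g γ := by
  have hc2 := ENNReal.tsum_le_tsum hline
  rw [ENNReal.tsum_const_eq_top_of_ne_zero hc1] at hc2
  refine hc2.trans ?_
  rw [← ENNReal.tsum_prod]
  exact ENNReal.tsum_comp_le_tsum_of_injective hinj g

theorem Av_eq_zero (hn : 2 ≤ n) (hΩ : IsOpen Ω) (hc : IsPreconnected Ω) (hi : Inv Ω)
    (hb : Bornology.IsBounded Ω)
    {f : (Fin n → ℂ) → ℂ} (hf : DifferentiableOn ℂ f Ω)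
    {T : bergman Ω →L[ℂ] Lp ℂ 2 (volume.restrict Ω)} (hT : IsHankel Ω f T)
    (hHS : IsHilbertSchmidt T) {β : Fin n → ℤ} (hβ : β ≠ 0) :
    ∀ z ∈ Ω, Av β f z = 0 := by
  by_contra hcon
  push Not at hcon
  obtain ⟨z₀, hz₀, hFz₀⟩ := hcon
  have hne : Ωᶜ.Nonempty := by
    rw [nonempty_compl]
    intro h
    rw [h] at hb
    have : Nontrivial (Fin n → ℂ) := by
      have : Nonempty (Fin n) := ⟨⟨0, by omega⟩⟩
      exact Function.nontrivial
    exact NormedSpace.unbounded_univ ℂ (Fin n → ℂ) hb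
  obtain ⟨p, hp, hp0⟩ := exists_generic hΩ ⟨_, hz₀⟩
  have hFd := differentiableOn_Av hΩ hi hf β
  have hFw : HasW Ω β (Av β f) := hasW_Av β f
  have hFp := ne_zero_generic hΩ hc hFd hFw ⟨z₀, hz₀, hFz₀⟩ hp hp0
  obtain ⟨q, hq, hqp⟩ := exists_ne_norm hΩ hβ hFd hFw hp hFp
  -- thresholds
  obtain ⟨x, y, hx0, hxy, hxx, hyy⟩ : ∃ x y : ℝ, 0 ≤ x ∧ x < y ∧
      (∃ z ∈ Ω, ‖Av β f z‖ ^ 2 = x) ∧ (∃ z ∈ Ω, ‖Av β f z‖ ^ 2 = y) := by
    rcases lt_or_gt_of_ne hqp with h | h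
    · exact ⟨‖Av β f q‖ ^ 2, ‖Av β f p‖ ^ 2, sq_nonneg _,
        pow_lt_pow_left₀ h (norm_nonneg _) two_ne_zero, ⟨q, hq, rfl⟩, ⟨p, hp, rfl⟩⟩
    · exact ⟨‖Av β f p‖ ^ 2, ‖Av β f q‖ ^ 2, sq_nonneg _,
        pow_lt_pow_left₀ h (norm_nonneg _) two_ne_zero, ⟨p, hp, rfl⟩, ⟨q, hq, rfl⟩⟩
  obtain ⟨i, hβi⟩ : ∃ i, β i ≠ 0 := by
    by_contra h
    push Not at h
    exact hβ (funext h)
  obtain ⟨j, hji⟩ : ∃ j, j ≠ i := by
    have : Nontrivial (Fin n) := Fin.nontrivial_iff_two_le.2 hn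
    exact exists_ne i
  have hline : ∀ t : ℕ, ENNReal.ofReal ((x + 3 * (y - x) / 5) - (x + 2 * (y - x) / 5)) ≤
      ∑' l : ℤ, nsq (T (vv Ω (wl j β t l))) := by
    intro t
    refine line_bound hΩ hc hi hne hf hT hp hp0 hFp (good_monomial hΩ hb hp hp0 j t)
      (m' := x + (y - x) / 5) (M' := x + 4 * (y - x) / 5) (by linarith) (by linarith) (by linarith)
      (by linarith) ?_ ?_
    · obtain ⟨z, hz, hzx⟩ := hxx
      exact ⟨z, hz, by rw [hzx]; linarith⟩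
    · obtain ⟨z, hz, hzy⟩ := hyy
      exact ⟨z, hz, by rw [hzy]; linarith⟩
  obtain ⟨ι, b, hsum⟩ := hHS
  have hfin : ∑' k, nsq (T (b k)) ≠ ⊤ := by
    unfold nsq
    rw [← ENNReal.ofReal_tsum_of_nonneg (fun k => by positivity) hsum]
    exact ENNReal.ofReal_ne_top
  apply hfin
  rw [eq_top_iff]
  have hc1 : ENNReal.ofReal ((x + 3 * (y - x) / 5) - (x + 2 * (y - x) / 5)) ≠ 0 := by
    have h5 : 0 < (x + 3 * (y - x) / 5) - (x + 2 * (y - x) / 5) := by linarith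
    exact (ENNReal.ofReal_pos.2 h5).ne'
  have hc5 : ∑' γ : Fin n → ℤ, nsq (T (vv Ω γ)) ≤ ∑' k, nsq (T (b k)) :=
    hs_le b T (fun γ δ h => vv_orth hΩ hi h) vv_norm
  refine le_trans ?_ hc5
  exact sum_lines (wl j β) (fun γ => nsq (T (vv Ω γ))) (wl_inj hji hβi) hc1 hline

theorem hankel_main (hn : 2 ≤ n) (hΩ : IsOpen Ω) (hc : IsConnected Ω)
    (hb : Bornology.IsBounded Ω) (hR : IsReinhardt Ω)
    {f : (Fin n → ℂ) → ℂ} (hf : DifferentiableOn ℂ f Ω)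
    {T : bergman Ω →L[ℂ] Lp ℂ 2 (volume.restrict Ω)} (hT : IsHankel Ω f T)
    (hHS : IsHilbertSchmidt T) : T = 0 := by
  have hi := inv_of_reinhardt hR
  obtain ⟨c, hcc⟩ := const_of_Av hΩ hc hi hf fun β hβ =>
    Av_eq_zero hn hΩ hc.isPreconnected hi hb hf hT hHS hβ
  ext1 g
  have hae : (fun z => conj (f z) * (g : Lp ℂ 2 (volume.restrict Ω)) z)
      =ᵐ[volume.restrict Ω] ((conj c • (g : Lp ℂ 2 (volume.restrict Ω)) :
        Lp ℂ 2 (volume.restrict Ω)) : (Fin n → ℂ) → ℂ) := by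
    filter_upwards [Lp.coeFn_smul (conj c) (g : Lp ℂ 2 (volume.restrict Ω)),
      ae_restrict_mem hΩ.measurableSet] with z h1 h2
    rw [h1, Pi.smul_apply, smul_eq_mul, hcc z h2]
  have hg : MemLp (fun z => conj (f z) * (g : Lp ℂ 2 (volume.restrict Ω)) z) 2
      (volume.restrict Ω) := (memLp_congr_ae hae).2 (Lp.memLp _)
  have hgL : hg.toLp _ = conj c • (g : Lp ℂ 2 (volume.restrict Ω)) := by
    apply Lp.ext
    exact (MemLp.coeFn_toLp hg).trans hae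
  have hmem : hg.toLp _ ∈ (bergman Ω).topologicalClosure := by
    rw [hgL]
    exact Submodule.le_topologicalClosure _ (Submodule.smul_mem _ _ g.2)
  rw [hT.eq g hg, Submodule.starProjection_eq_self_iff.2 hmem, sub_self]
  rfl

end

end Pool.Agent.X184.Hk
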