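import Pool.Agent.X184.HkRDefs
import Pool.Agent.X184.HkX

set_option autoImplicit false
set_option maxHeartbeats 400000

open MeasureTheory Set
open scoped ComplexConjugate

namespace Pool.Agent.X184.HkR

variable {n : ℕ} {Ω : Set (Fin n → ℂ)}

/-- the operator in the plain types -/
noncomputable def old (T : Op Ω) : Hk.bergman Ω →L[ℂ] Lp ℂ 2 (volume.restrict Ω) := T

theorem old_hs {T : Op Ω} (h : IsHilbertSchmidt T) : Hk.IsHilbertSchmidt (old T) := by
  obtain ⟨ι, b, hb⟩ := h
  exact ⟨ι, b, hb⟩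

theorem isClassOf_iff (g : L2 Ω) (G : (Fin n → ℂ) → ℂ) : IsClassOf g G ↔
    ((show Lp ℂ 2 (volume.restrict Ω) from g) : (Fin n → ℂ) → ℂ) =ᵐ[volume.restrict Ω] G :=
  Iff.rfl

theorem old_hankel {f : (Fin n → ℂ) → ℂ} {T : Op Ω} (h : IsHankel f T) :
    Hk.IsHankel Ω f (old T) := by
  obtain ⟨h1, h2⟩ := h
  constructor
  · refine Dense.mono ?_ h1
    intro g hg
    obtain ⟨u, hu⟩ := hg
    have hu' : (fun z => conj (f z) * (g : Lp ℂ 2 (volume.restrict Ω)) z)
      =ᵐ[volume.restrict Ω] ((show Lp ℂ 2 (volume.restrict Ω) from u) : (Fin n → ℂ) → ℂ) :=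
      Filter.EventuallyEq.symm hu
    exact (memLp_congr_ae hu').2 (Lp.memLp _)
  · intro g hg
    have h3 := h2 g (hg.toLp _) (MemLp.coeFn_toLp hg)
    obtain ⟨h4, h5⟩ := h3
    have h6 : hg.toLp _ - old T g ∈ (Hk.bergman Ω).topologicalClosure :=
      Submodule.le_topologicalClosure _ h4
    have h7 : ∀ k ∈ (Hk.bergman Ω).topologicalClosure, inner ℂ k (old T g) = 0 := by
      intro k hk
      have hcl : IsClosed {k : Lp ℂ 2 (volume.restrict Ω) | inner ℂ k (old T g) = 0} :=
        isClosed_eq (continuous_id.inner continuous_const) continuous_const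
      exact closure_minimal (fun k hk => h5 k hk) hcl hk
    have h8 : (Hk.bergman Ω).topologicalClosure.starProjection (hg.toLp _)
        = hg.toLp _ - old T g := by
      refine Submodule.eq_starProjection_of_mem_of_inner_eq_zero h6 fun w hw => ?_
      rw [sub_sub_cancel]
      rw [← inner_conj_symm, h7 w hw, map_zero]
    rw [h8, sub_sub_cancel]

theorem hankelR (hn : 2 ≤ n) (hΩ : IsOpen Ω) (hc : IsConnected Ω)
    (hb : Bornology.IsBounded Ω) (hR : IsReinhardt Ω)
    {f : (Fin n → ℂ) → ℂ} (hf : DifferentiableOn ℂ f Ω) {T : Op Ω} (hT : IsHankel f T)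
    (hHS : IsHilbertSchmidt T) : T = 0 := by
  have h := Hk.hankel_main hn hΩ hc hb hR hf (old_hankel hT) (old_hs hHS)
  exact h

end Pool.Agent.X184.HkR
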