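import Pool.Agent.X184.HypDefs

set_option autoImplicit false

open scoped Manifold ContDiff Topology
open OnePoint Set Filter

namespace Pool.Agent.X184

/-- Descent of analyticity through a nonconstant analytic map. -/
theorem descend_analytic {φ g G : ℂ → ℂ} {u₀ : ℂ} (hφ : AnalyticAt ℂ φ u₀)
    (hg : AnalyticAt ℂ g u₀) (hnc : ¬ ∀ᶠ u in 𝓝 u₀, φ u = φ u₀)
    (hG : ContinuousAt G (φ u₀)) (hcomp : ∀ᶠ u in 𝓝 u₀, G (φ u) = g u) :
    AnalyticAt ℂ G (φ u₀) := by
  have hopen : 𝓝 (φ u₀) ≤ map φ (𝓝 u₀) :=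
    (hφ.eventually_constant_or_nhds_le_map_nhds).resolve_left hnc
  -- the derivative is not eventually zero
  have hd : ∀ᶠ u in 𝓝[≠] u₀, deriv φ u ≠ 0 := by
    rcases hφ.deriv.eventually_eq_zero_or_eventually_ne_zero with h | h
    · exfalso
      apply hnc
      have h1 : ∀ᶠ u in 𝓝 u₀, DifferentiableAt ℂ φ u :=
        hφ.eventually_analyticAt.mono fun u hu => hu.differentiableAt
      obtain ⟨r, hr, hball⟩ := Metric.eventually_nhds_iff_ball.1 (h.and h1)
      filter_upwards [Metric.ball_mem_nhds u₀ hr] with u hu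
      have hconv : Convex ℝ (Metric.ball u₀ r) := convex_ball _ _
      have := hconv.norm_image_sub_le_of_norm_deriv_le (𝕜 := ℂ) (f := φ) (C := 0)
        (fun x hx => (hball x hx).2) (fun x hx => by rw [(hball x hx).1]; simp)
        (Metric.mem_ball_self hr) hu
      simpa [sub_eq_zero] using this
    · exact h
  have key : ∀ᶠ u in 𝓝[≠] u₀, DifferentiableAt ℂ G (φ u) := by
    have e1 : ∀ᶠ u in 𝓝 u₀, AnalyticAt ℂ φ u := hφ.eventually_analyticAt
    have e2 : ∀ᶠ u in 𝓝 u₀, AnalyticAt ℂ g u := hg.eventually_analyticAt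
    have e3 : ∀ᶠ u in 𝓝 u₀, ∀ᶠ v in 𝓝 u, G (φ v) = g v := hcomp.eventually_nhds
    filter_upwards [hd, mem_nhdsWithin_of_mem_nhds e1, mem_nhdsWithin_of_mem_nhds e2,
      mem_nhdsWithin_of_mem_nhds e3] with u h1 h2 h3 h4
    have hs : HasStrictDerivAt φ (deriv φ u) u := h2.hasStrictDerivAt
    set ψ := hs.localInverse φ (deriv φ u) u h1 with hψ
    have hψd : HasStrictDerivAt ψ (deriv φ u)⁻¹ (φ u) := hs.to_localInverse h1
    have hψu : ψ (φ u) = u := HasStrictFDerivAt.localInverse_apply_image ..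
    have hr : ∀ᶠ y in 𝓝 (φ u), φ (ψ y) = y := hs.eventually_right_inverse h1
    have hψc : Tendsto ψ (𝓝 (φ u)) (𝓝 u) := by
      have := hψd.hasDerivAt.continuousAt
      rwa [ContinuousAt, hψu] at this
    have h5 : ∀ᶠ y in 𝓝 (φ u), G (φ (ψ y)) = g (ψ y) := hψc.eventually h4
    have h6 : G =ᶠ[𝓝 (φ u)] g ∘ ψ := by
      filter_upwards [hr, h5] with y ha hb
      rw [ha] at hb
      exact hb
    have h7 : DifferentiableAt ℂ (g ∘ ψ) (φ u) := by
      apply DifferentiableAt.comp
      · rw [hψu]; exact h3.differentiableAt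
      · exact hψd.hasDerivAt.differentiableAt
    exact h6.differentiableAt_iff.2 h7
  refine Complex.analyticAt_of_differentiable_on_punctured_nhds_of_continuousAt ?_ hG
  rw [eventually_nhdsWithin_iff] at key ⊢
  have : ∀ᶠ y in map φ (𝓝 u₀), y ∈ ({φ u₀}ᶜ : Set ℂ) → DifferentiableAt ℂ G y := by
    rw [eventually_map]
    filter_upwards [key] with u hu hne
    apply hu
    intro h
    apply hne
    rw [mem_singleton_iff] at h ⊢
    rw [h]
  exact hopen this

section Sphere

@[simp] theorem coordZ_coe (z : ℂ) : coordZ (z : OnePoint ℂ) = z := rfl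
@[simp] theorem coordZ_infty : coordZ (∞ : OnePoint ℂ) = 0 := rfl
@[simp] theorem coordInv_coe (z : ℂ) : coordInv (z : OnePoint ℂ) = z⁻¹ := rfl
@[simp] theorem coordInv_infty : coordInv (∞ : OnePoint ℂ) = 0 := rfl

variable {R : Type*} [TopologicalSpace R] [ChartedSpace ℂ R]

/-- A good coordinate `κ` centred at the point `q` of the sphere, with inverse `e`. -/
structure GoodCoord (q : OnePoint ℂ) (κ : OnePoint ℂ → ℂ) (e : ℂ → OnePoint ℂ)
    (D : Set (OnePoint ℂ)) : Prop where
  openD : IsOpen D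
  memD : q ∈ D
  κq : κ q = 0
  e_cont : Continuous e
  κe : ∀ t, κ (e t) = t
  eD : ∀ t, e t ∈ D
  eκ : ∀ z ∈ D, e (κ z) = z
  κ_cont : ContinuousOn κ D

theorem continuousOn_coordZ : ContinuousOn coordZ {(∞ : OnePoint ℂ)}ᶜ := by
  intro w hw
  obtain ⟨z, rfl⟩ := OnePoint.ne_infty_iff_exists.1 hw
  apply ContinuousAt.continuousWithinAt
  rw [OnePoint.continuousAt_coe]
  exact continuousAt_id

theorem continuousOn_coordInv : ContinuousOn coordInv {((0 : ℂ) : OnePoint ℂ)}ᶜ := by
  intro w hw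
  apply ContinuousAt.continuousWithinAt
  induction w using OnePoint.rec with
  | infty =>
    rw [OnePoint.continuousAt_infty']
    rw [coordInv_infty, Filter.coclosedCompact_eq_cocompact, ← Metric.cobounded_eq_cocompact]
    exact tendsto_inv₀_cobounded
  | coe z =>
    rw [OnePoint.continuousAt_coe]
    have hz : z ≠ 0 := fun h => hw (by rw [h]; rfl)
    exact continuousAt_inv₀ hz

theorem continuous_einf : Continuous (fun t : ℂ => if t = 0 then (∞ : OnePoint ℂ) else ((t⁻¹ : ℂ) : OnePoint ℂ)) := by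
  rw [continuous_iff_continuousAt]
  intro t
  by_cases ht : t = 0
  · subst ht
    rw [continuousAt_iff_punctured_nhds]
    simp only [if_true]
    have h1 : Tendsto (fun t : ℂ => ((t⁻¹ : ℂ) : OnePoint ℂ)) (𝓝[≠] 0) (𝓝 (∞ : OnePoint ℂ)) := by
      refine OnePoint.tendsto_coe_infty.comp ?_
      rw [Filter.coclosedCompact_eq_cocompact, ← Metric.cobounded_eq_cocompact]
      exact tendsto_inv₀_nhdsNE_zero
    refine h1.congr' ?_
    filter_upwards [self_mem_nhdsWithin] with t ht
    have ht' : t ≠ 0 := ht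
    rw [if_neg ht']
  · have h1 : ContinuousAt (fun t : ℂ => ((t⁻¹ : ℂ) : OnePoint ℂ)) t :=
      OnePoint.continuous_coe.continuousAt.comp (continuousAt_inv₀ ht)
    refine h1.congr ?_
    filter_upwards [isOpen_ne.mem_nhds ht] with s hs
    rw [if_neg hs]

theorem exists_goodCoord (q : OnePoint ℂ) :
    ∃ (κ : OnePoint ℂ → ℂ) (e : ℂ → OnePoint ℂ) (D : Set (OnePoint ℂ)), GoodCoord q κ e D ∧
      ∀ f : R → OnePoint ℂ, HolomorphicToSphere f → ∀ p, f p ∈ D →
        MDifferentiableAt 𝓘(ℂ) 𝓘(ℂ) (fun x => κ (f x)) p := by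
  induction q using OnePoint.rec with
  | infty =>
    refine ⟨coordInv, fun t : ℂ => if t = 0 then (∞ : OnePoint ℂ) else ((t⁻¹ : ℂ) : OnePoint ℂ),
      {((0 : ℂ) : OnePoint ℂ)}ᶜ, ⟨?_, ?_, ?_, ?_, ?_, ?_, ?_, ?_⟩, ?_⟩
    · exact isOpen_compl_singleton
    · exact fun h => (OnePoint.infty_ne_coe (0 : ℂ)) h
    · rfl
    · exact continuous_einf
    · intro t
      split_ifs with h
      · rw [h]; rfl
      · simp
    · intro t
      split_ifs with h
      · exact fun h => (OnePoint.infty_ne_coe (0 : ℂ)) h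
      · intro h2
        have h3 : (t⁻¹ : ℂ) = 0 := OnePoint.coe_injective h2
        exact h (inv_eq_zero.1 h3)
    · intro z hz
      induction z using OnePoint.rec with
      | infty => simp
      | coe z =>
        have hz' : z ≠ 0 := fun h => hz (by rw [h]; rfl)
        rw [coordInv_coe, if_neg (inv_ne_zero hz'), inv_inv]
    · exact continuousOn_coordInv
    · intro f hf p hp
      exact hf.2.2 p hp
  | coe c =>
    refine ⟨fun w => coordZ w - c, fun t => ((t + c : ℂ) : OnePoint ℂ), {(∞ : OnePoint ℂ)}ᶜ,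
      ⟨?_, ?_, ?_, ?_, ?_, ?_, ?_, ?_⟩, ?_⟩
    · exact isOpen_compl_singleton
    · exact OnePoint.coe_ne_infty c
    · simp
    · exact OnePoint.continuous_coe.comp (continuous_id.add continuous_const)
    · intro t; simp
    · intro t; exact OnePoint.coe_ne_infty _
    · intro z hz
      obtain ⟨z, rfl⟩ := OnePoint.ne_infty_iff_exists.1 hz
      simp
    · exact continuousOn_coordZ.sub continuousOn_const
    · intro f hf p hp
      have h1 := hf.2.1 p hp
      have h2 : DifferentiableAt ℂ (fun z : ℂ => z - c) (coordZ (f p)) := by fun_prop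
      exact DifferentiableAt.comp_mdifferentiableAt (f := fun q => coordZ (f q)) h2 h1

/-- the function `1/(z - c)` on the sphere -/
noncomputable def cinv (c : ℂ) (w : OnePoint ℂ) : ℂ := w.elim 0 (fun z => (z - c)⁻¹)

@[simp] theorem cinv_coe (c z : ℂ) : cinv c (z : OnePoint ℂ) = (z - c)⁻¹ := rfl
@[simp] theorem cinv_infty (c : ℂ) : cinv c (∞ : OnePoint ℂ) = 0 := rfl

theorem cinv_injOn (c : ℂ) {w w' : OnePoint ℂ} (hw : w ≠ (c : OnePoint ℂ))
    (hw' : w' ≠ (c : OnePoint ℂ)) (h : cinv c w = cinv c w') : w = w' := by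
  induction w using OnePoint.rec with
  | infty =>
    induction w' using OnePoint.rec with
    | infty => rfl
    | coe z =>
      exfalso
      rw [cinv_infty, cinv_coe] at h
      have h1 := inv_eq_zero.1 h.symm
      exact hw' (by rw [sub_eq_zero.1 h1])
  | coe z =>
    induction w' using OnePoint.rec with
    | infty =>
      exfalso
      rw [cinv_infty, cinv_coe] at h
      have h1 := inv_eq_zero.1 h
      exact hw (by rw [sub_eq_zero.1 h1])
    | coe z' =>
      rw [cinv_coe, cinv_coe, inv_inj] at h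
      have : z = z' := by linear_combination h
      rw [this]

theorem cinv_mdifferentiableAt (c : ℂ) {f : R → OnePoint ℂ} (hf : HolomorphicToSphere f) {p : R}
    (hp : f p ≠ (c : OnePoint ℂ)) :
    MDifferentiableAt 𝓘(ℂ) 𝓘(ℂ) (fun x => cinv c (f x)) p := by
  by_cases hinf : f p = (∞ : OnePoint ℂ)
  · have hp0 : f p ≠ ((0 : ℂ) : OnePoint ℂ) := by rw [hinf]; exact OnePoint.infty_ne_coe 0
    have h1 := hf.2.2 p hp0
    have h2 : DifferentiableAt ℂ (fun z : ℂ => z / (1 - c * z)) (coordInv (f p)) := by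
      rw [hinf, coordInv_infty]
      apply DifferentiableAt.div
      · fun_prop
      · fun_prop
      · simp
    have h3 := DifferentiableAt.comp_mdifferentiableAt (f := fun q => coordInv (f q)) h2 h1
    refine h3.congr_of_eventuallyEq ?_
    have hev : ∀ᶠ x in 𝓝 p, f x ≠ ((0 : ℂ) : OnePoint ℂ) :=
      hf.1.continuousAt.eventually (isOpen_ne.mem_nhds hp0)
    filter_upwards [hev] with x hx
    show cinv c (f x) = coordInv (f x) / (1 - c * coordInv (f x))
    generalize f x = w at hx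
    induction w using OnePoint.rec with
    | infty => simp
    | coe z =>
      have hz : z ≠ 0 := fun h => hx (by rw [h])
      rw [cinv_coe, coordInv_coe]
      by_cases hzc : z = c
      · subst hzc
        rw [sub_self, inv_zero, mul_inv_cancel₀ hz, sub_self, div_zero]
      · have h4 : z - c ≠ 0 := sub_ne_zero.2 hzc
        have h5 : 1 - c * z⁻¹ ≠ 0 := by
          intro h
          apply h4
          field_simp at h
          simpa using h
        field_simp
  · have h1 := hf.2.1 p hinf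
    have h2 : DifferentiableAt ℂ (fun z : ℂ => (z - c)⁻¹) (coordZ (f p)) := by
      apply DifferentiableAt.inv
      · fun_prop
      · intro h
        obtain ⟨z, hz⟩ := OnePoint.ne_infty_iff_exists.1 hinf
        rw [← hz, coordZ_coe] at h
        exact hp (by rw [← hz, sub_eq_zero.1 h])
    have h3 := DifferentiableAt.comp_mdifferentiableAt (f := fun q => coordZ (f q)) h2 h1
    refine h3.congr_of_eventuallyEq ?_
    have hev : ∀ᶠ x in 𝓝 p, f x ≠ (∞ : OnePoint ℂ) :=
      hf.1.continuousAt.eventually (isOpen_ne.mem_nhds hinf)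
    filter_upwards [hev] with x hx
    obtain ⟨z, hz⟩ := OnePoint.ne_infty_iff_exists.1 hx
    show cinv c (f x) = (coordZ (f x) - c)⁻¹
    rw [← hz, cinv_coe, coordZ_coe]

theorem HolomorphicToSphere.comp_diffeo [IsManifold 𝓘(ℂ) ω R] {f : R → OnePoint ℂ}
    (hf : HolomorphicToSphere f) (τ : R ≃ₘ^ω⟮𝓘(ℂ), 𝓘(ℂ)⟯ R) :
    HolomorphicToSphere (fun x => f (τ x)) := by
  refine ⟨hf.1.comp τ.continuous, fun p hp => ?_, fun p hp => ?_⟩
  · exact (hf.2.1 (τ p) hp).comp p ((τ.contMDiff.mdifferentiable (by simp)) p)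
  · exact (hf.2.2 (τ p) hp).comp p ((τ.contMDiff.mdifferentiable (by simp)) p)

/-- Expression in a chart of a function holomorphic near `p`. -/
theorem analytic_chart [IsManifold 𝓘(ℂ) ω R] {f : R → ℂ} {p : R}
    (h : ∀ᶠ q in 𝓝 p, MDifferentiableAt 𝓘(ℂ) 𝓘(ℂ) f q) :
    AnalyticAt ℂ (f ∘ (chartAt ℂ p).symm) (chartAt ℂ p p) := by
  have : IsManifold 𝓘(ℂ) 1 R := IsManifold.of_le (n := ω) le_top
  have hI : range (𝓘(ℂ) : ℂ → ℂ) = univ := ModelWithCorners.Boundaryless.range_eq_univ
  rw [Complex.analyticAt_iff_eventually_differentiableAt]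
  have h1 : (chartAt ℂ p).target ∈ 𝓝 (chartAt ℂ p p) :=
    (chartAt ℂ p).open_target.mem_nhds (mem_chart_target ℂ p)
  have h2 : Tendsto (chartAt ℂ p).symm (𝓝 (chartAt ℂ p p)) (𝓝 p) := by
    have := (chartAt ℂ p).continuousAt_symm (mem_chart_target ℂ p)
    rwa [ContinuousAt, (chartAt ℂ p).left_inv (mem_chart_source ℂ p)] at this
  filter_upwards [h1, h2.eventually h] with y hy hy2
  have hys : (chartAt ℂ p).symm y ∈ (chartAt ℂ p).source := (chartAt ℂ p).map_target hy
  have hfy : f ((chartAt ℂ p).symm y) ∈ (chartAt ℂ (0 : ℂ)).source := mem_univ _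
  rw [mdifferentiableAt_iff_of_mem_source hys hfy] at hy2
  have h3 := hy2.2
  simp only [mfld_simps] at h3
  rw [(chartAt ℂ p).right_inv hy, differentiableWithinAt_univ] at h3
  exact h3

end Sphere

end Pool.Agent.X184
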