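import Pool.Agent.X184.HypA

set_option autoImplicit false

open scoped Manifold ContDiff Topology
open OnePoint Set Filter

namespace Pool.Agent.X184

variable {R : Type*} [TopologicalSpace R] [ChartedSpace ℂ R]

/-- Identity theorem, in a general form. -/
theorem identity_general [IsManifold 𝓘(ℂ) ω R] [PreconnectedSpace R]
    {Y : Type*} [TopologicalSpace Y] [T2Space Y]
    {f₁ f₂ : R → Y} (c₁ : Continuous f₁) (c₂ : Continuous f₂)
    (hloc : ∀ p, f₁ p = f₂ p → ∃ (κ : Y → ℂ) (D : Set Y), IsOpen D ∧ f₁ p ∈ D ∧ InjOn κ D ∧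
      (∀ x, f₁ x ∈ D → MDifferentiableAt 𝓘(ℂ) 𝓘(ℂ) (fun y => κ (f₁ y)) x) ∧
      (∀ x, f₂ x ∈ D → MDifferentiableAt 𝓘(ℂ) 𝓘(ℂ) (fun y => κ (f₂ y)) x))
    {U : Set R} (hU : IsOpen U) (hne : U.Nonempty) (h : ∀ x ∈ U, f₁ x = f₂ x) :
    ∀ x, f₁ x = f₂ x := by
  set T : Set R := {p | ∀ᶠ x in 𝓝 p, f₁ x = f₂ x} with hT
  have hTo : IsOpen T := isOpen_setOfPred_eventually_nhds
  have hTne : T.Nonempty := by
    obtain ⟨x, hx⟩ := hne
    exact ⟨x, Filter.mem_of_superset (hU.mem_nhds hx) h⟩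
  have hTc : IsClosed T := by
    rw [← closure_subset_iff_isClosed]
    intro p hp
    by_contra hpT
    have heq : f₁ p = f₂ p := by
      have hcl : IsClosed {x | f₁ x = f₂ x} := isClosed_eq c₁ c₂
      have hsub : T ⊆ {x | f₁ x = f₂ x} := fun x hx => hx.self_of_nhds
      exact (closure_minimal hsub hcl) hp
    obtain ⟨κ, D, hD, hpD, hinj, d₁, d₂⟩ := hloc p heq
    have hpD2 : f₂ p ∈ D := heq ▸ hpD
    have e₁ : ∀ᶠ x in 𝓝 p, f₁ x ∈ D := c₁.continuousAt.eventually (hD.mem_nhds hpD)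
    have e₂ : ∀ᶠ x in 𝓝 p, f₂ x ∈ D := c₂.continuousAt.eventually (hD.mem_nhds hpD2)
    have a₁ := analytic_chart (p := p) (e₁.mono d₁)
    have a₂ := analytic_chart (p := p) (e₂.mono d₂)
    -- frequently equal
    have hfreq : ∃ᶠ x in 𝓝[≠] p, f₁ x = f₂ x := by
      intro hcon
      rw [eventually_nhdsWithin_iff] at hcon
      rw [mem_closure_iff_frequently] at hp
      refine hp ?_
      filter_upwards [hcon] with x hx hxT
      by_cases hxp : x = p
      · exact hpT (hxp ▸ hxT)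
      · exact hx hxp hxT.self_of_nhds
    have hm : Tendsto (chartAt ℂ p) (𝓝[≠] p) (𝓝[≠] (chartAt ℂ p p)) := by
      refine tendsto_nhdsWithin_of_tendsto_nhds_of_eventually_within _ ?_ ?_
      · exact ((chartAt ℂ p).continuousAt (mem_chart_source ℂ p)).tendsto.mono_left
          nhdsWithin_le_nhds
      · have : ∀ᶠ x in 𝓝 p, x ∈ (chartAt ℂ p).source :=
          (chartAt ℂ p).open_source.mem_nhds (mem_chart_source ℂ p)
        filter_upwards [mem_nhdsWithin_of_mem_nhds this, self_mem_nhdsWithin] with x hx hx2 hx3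
        exact hx2 ((chartAt ℂ p).injOn hx (mem_chart_source ℂ p) hx3)
    have hsrc : ∀ᶠ x in 𝓝 p, x ∈ (chartAt ℂ p).source :=
      (chartAt ℂ p).open_source.mem_nhds (mem_chart_source ℂ p)
    have hfreq2 : ∃ᶠ u in 𝓝[≠] (chartAt ℂ p p),
        ((fun y => κ (f₁ y)) ∘ (chartAt ℂ p).symm) u =
          ((fun y => κ (f₂ y)) ∘ (chartAt ℂ p).symm) u := by
      refine hm.frequently ?_
      refine (hfreq.and_eventually (mem_nhdsWithin_of_mem_nhds hsrc)).mono ?_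
      rintro x ⟨hx, hxs⟩
      simp only [Function.comp]
      rw [(chartAt ℂ p).left_inv hxs, hx]
    have hev := (a₁.frequently_eq_iff_eventually_eq a₂).1 hfreq2
    have hc : Tendsto (chartAt ℂ p) (𝓝 p) (𝓝 (chartAt ℂ p p)) :=
      (chartAt ℂ p).continuousAt (mem_chart_source ℂ p)
    apply hpT
    show ∀ᶠ x in 𝓝 p, f₁ x = f₂ x
    filter_upwards [hc.eventually hev, hsrc, e₁, e₂] with x hx hxs h1 h2
    simp only [Function.comp] at hx
    rw [(chartAt ℂ p).left_inv hxs] at hx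
    exact hinj h1 h2 hx
  have hTu : T = univ := IsClopen.eq_univ ⟨hTc, hTo⟩ hTne
  intro x
  have : x ∈ T := hTu ▸ mem_univ x
  exact this.self_of_nhds

theorem identity_sphere [IsManifold 𝓘(ℂ) ω R] [PreconnectedSpace R]
    {f₁ f₂ : R → OnePoint ℂ} (h₁ : HolomorphicToSphere f₁) (h₂ : HolomorphicToSphere f₂)
    {U : Set R} (hU : IsOpen U) (hne : U.Nonempty) (h : ∀ x ∈ U, f₁ x = f₂ x) :
    ∀ x, f₁ x = f₂ x := by
  refine identity_general h₁.1 h₂.1 ?_ hU hne h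
  intro p _
  obtain ⟨κ, e, D, hg, hd⟩ := exists_goodCoord (R := R) (f₁ p)
  refine ⟨κ, D, hg.openD, hg.memD, ?_, hd f₁ h₁, hd f₂ h₂⟩
  intro a ha b hb hab
  rw [← hg.eκ a ha, ← hg.eκ b hb, hab]

theorem identity_aut [IsManifold 𝓘(ℂ) ω R] [PreconnectedSpace R] [T2Space R]
    (τ σ : R ≃ₘ^ω⟮𝓘(ℂ), 𝓘(ℂ)⟯ R)
    {U : Set R} (hU : IsOpen U) (hne : U.Nonempty) (h : ∀ x ∈ U, τ x = σ x) :
    ∀ x, τ x = σ x := by
  have : IsManifold 𝓘(ℂ) 1 R := IsManifold.of_le (n := ω) le_top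
  refine identity_general τ.continuous σ.continuous ?_ hU hne h
  intro p _
  refine ⟨chartAt ℂ (τ p), (chartAt ℂ (τ p)).source, (chartAt ℂ (τ p)).open_source,
    mem_chart_source ℂ _, (chartAt ℂ (τ p)).injOn, ?_, ?_⟩
  · intro x hx
    exact (mdifferentiableAt_atlas (I := 𝓘(ℂ)) (chart_mem_atlas ℂ (τ p)) hx).comp x
      ((τ.contMDiff.mdifferentiable (by simp)) x)
  · intro x hx
    exact (mdifferentiableAt_atlas (I := 𝓘(ℂ)) (chart_mem_atlas ℂ (τ p)) hx).comp x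
      ((σ.contMDiff.mdifferentiable (by simp)) x)

/-- tube lemma for proper maps -/
theorem tube {π : R → OnePoint ℂ} (hc : Continuous π) {O : Set (OnePoint ℂ)} (hO : IsOpen O)
    (hprop : ∀ K : Set (OnePoint ℂ), K ⊆ O → IsCompact K → IsCompact (π ⁻¹' K))
    {z : OnePoint ℂ} (hz : z ∈ O) {V : Set R} (hV : IsOpen V) (hsub : π ⁻¹' {z} ⊆ V) :
    ∃ N ∈ 𝓝 z, π ⁻¹' N ⊆ V := by
  obtain ⟨K, hK, hzK, hKO⟩ := exists_compact_subset hO hz
  have hC : IsCompact (π ⁻¹' K \ V) := (hprop K hKO hK).diff hV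
  have hC2 : IsClosed (π '' (π ⁻¹' K \ V)) := (hC.image hc).isClosed
  have hz2 : z ∉ π '' (π ⁻¹' K \ V) := by
    rintro ⟨x, hx, hxz⟩
    exact hx.2 (hsub hxz)
  refine ⟨interior K ∩ (π '' (π ⁻¹' K \ V))ᶜ,
    Filter.inter_mem (isOpen_interior.mem_nhds hzK) (hC2.isOpen_compl.mem_nhds hz2), ?_⟩
  intro x hx
  by_contra hxV
  exact hx.2 ⟨x, ⟨show π x ∈ K from interior_subset hx.1, hxV⟩, rfl⟩

/-- A finite set is not a neighbourhood of a point in a Riemann surface. -/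
theorem not_mem_nhds_of_finite {s : Set R} (hs : s.Finite) (p : R) : s ∉ 𝓝 p := by
  intro h
  have h2 : Tendsto (chartAt ℂ p).symm (𝓝 (chartAt ℂ p p)) (𝓝 p) := by
    have := (chartAt ℂ p).continuousAt_symm (mem_chart_target ℂ p)
    rwa [ContinuousAt, (chartAt ℂ p).left_inv (mem_chart_source ℂ p)] at this
  have h3 : (chartAt ℂ p).symm ⁻¹' s ∩ (chartAt ℂ p).target ∈ 𝓝 (chartAt ℂ p p) :=
    Filter.inter_mem (h2 h) ((chartAt ℂ p).open_target.mem_nhds (mem_chart_target ℂ p))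
  have h4 : ((chartAt ℂ p).symm ⁻¹' s ∩ (chartAt ℂ p).target).Finite := by
    apply Set.Finite.of_finite_image (f := (chartAt ℂ p).symm)
    · apply hs.subset
      rintro _ ⟨u, hu, rfl⟩
      exact hu.1
    · exact (chartAt ℂ p).symm.injOn.mono (fun u hu => hu.2)
  exact (infinite_of_mem_nhds _ h3) h4

end Pool.Agent.X184
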