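import Pool.Agent.X184.HypB

set_option autoImplicit false

open scoped Manifold ContDiff Topology
open OnePoint Set Filter

namespace Pool.Agent.X184

variable {R : Type*} [TopologicalSpace R] [ChartedSpace ℂ R]

/-- The function `g = (x₂ - x₂ ∘ τ)²`. -/
noncomputable def gfun (c : ℂ) (π₂ : R → OnePoint ℂ) (τ : R → R) (x : R) : ℂ :=
  (cinv c (π₂ x) - cinv c (π₂ (τ x))) ^ 2

theorem main_eq [IsManifold 𝓘(ℂ) ω R] [PreconnectedSpace R] [T2Space R]
    {B₁ B₂ : Set (OnePoint ℂ)} {π₁ π₂ : R → OnePoint ℂ}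
    (h₁ : IsHyperellipticProjection B₁ π₁) (h₂ : IsHyperellipticProjection B₂ π₂)
    (τ : R ≃ₘ^ω⟮𝓘(ℂ), 𝓘(ℂ)⟯ R) (hτ : ∀ p, τ (τ p) = p) (hπ : ∀ p, π₁ (τ p) = π₁ p)
    {q : OnePoint ℂ} (hq : q ∈ derivedSet B₁)
    (hiso : ∃ W ∈ 𝓝 q, W ∩ derivedSet B₁ ⊆ {q}) :
    ∀ p, π₂ (τ p) = π₂ p := by
  classical
  -- a finite point outside the second limit set
  have hO₂ : IsOpen (derivedSet B₂)ᶜ := (isClosed_derivedSet B₂).isOpen_compl
  have hO₁ : IsOpen (derivedSet B₁)ᶜ := (isClosed_derivedSet B₁).isOpen_compl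
  obtain ⟨c, hc⟩ : ∃ c : ℂ, (c : OnePoint ℂ) ∈ (derivedSet B₂)ᶜ :=
    (OnePoint.denseRange_coe (X := ℂ)).exists_mem_open hO₂ h₂.connected.nonempty
  obtain ⟨r, hr, hball⟩ : ∃ r > 0, Metric.closedBall c r ⊆
      ((↑) : ℂ → OnePoint ℂ) ⁻¹' (derivedSet B₂)ᶜ :=
    Metric.nhds_basis_closedBall.mem_iff.1
      ((hO₂.preimage OnePoint.continuous_coe).mem_nhds hc)
  set K₂ : Set (OnePoint ℂ) := ((↑) : ℂ → OnePoint ℂ) '' Metric.closedBall c r with hK₂
  have hK₂c : IsCompact K₂ := (isCompact_closedBall c r).image OnePoint.continuous_coe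
  have hK₂s : K₂ ⊆ (derivedSet B₂)ᶜ := by
    rintro _ ⟨z, hz, rfl⟩
    exact hball hz
  set L : Set R := π₂ ⁻¹' K₂ with hL
  have hLc : IsCompact L := h₂.proper K₂ hK₂s hK₂c
  have hLi : IsClosed (π₁ '' L) := (hLc.image h₁.holo.1).isClosed
  have hqL : q ∉ π₁ '' L := by
    rintro ⟨x, -, hx⟩
    have h : π₁ x ∈ (derivedSet B₁)ᶜ := h₁.range_eq ▸ mem_range_self x
    rw [hx] at h
    exact h hq
  obtain ⟨κ, e, D, hg, hd⟩ := exists_goodCoord (R := R) q
  -- the neighbourhood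
  obtain ⟨W, hW, hWq⟩ := hiso
  obtain ⟨W₀, hW₀s, hW₀o, hqW₀⟩ : ∃ W₀ ⊆ (W ∩ (π₁ '' L)ᶜ) ∩ D, IsOpen W₀ ∧ q ∈ W₀ :=
    mem_nhds_iff.1 (Filter.inter_mem (Filter.inter_mem hW (hLi.isOpen_compl.mem_nhds hqL))
      (hg.openD.mem_nhds hg.memD))
  have hW₀D : W₀ ⊆ D := fun z hz => (hW₀s hz).2
  have hW₀O : ∀ z ∈ W₀, z ≠ q → z ∈ (derivedSet B₁)ᶜ := by
    intro z hz hzq hz2
    exact hzq (hWq ⟨(hW₀s hz).1.1, hz2⟩)
  have hnotL : ∀ x, π₁ x ∈ W₀ → x ∉ L := fun x hx hxL => (hW₀s hx).1.2 ⟨x, hxL, rfl⟩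
  have hne_c : ∀ x, π₁ x ∈ W₀ → π₂ x ≠ (c : OnePoint ℂ) := by
    intro x hx h
    apply hnotL x hx
    show π₂ x ∈ K₂
    rw [h]
    exact ⟨c, Metric.mem_closedBall_self hr.le, rfl⟩
  have hbdd : ∀ x, π₁ x ∈ W₀ → ‖cinv c (π₂ x)‖ ≤ r⁻¹ := by
    intro x hx
    have h1 : π₂ x ∉ K₂ := hnotL x hx
    generalize π₂ x = w at h1
    induction w using OnePoint.rec with
    | infty => rw [cinv_infty, norm_zero]; positivity
    | coe z =>
      rw [cinv_coe, norm_inv]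
      have h2 : r < ‖z - c‖ := by
        by_contra hcon
        push Not at hcon
        exact h1 ⟨z, by rwa [mem_closedBall_iff_norm], rfl⟩
      exact inv_anti₀ hr h2.le
  set g : R → ℂ := gfun c π₂ τ with hgdef
  have hgτ : ∀ x, g (τ x) = g x := by
    intro x
    simp only [hgdef, gfun, hτ]
    ring
  have hgb : ∀ x, π₁ x ∈ W₀ → ‖g x‖ ≤ (2 * r⁻¹) ^ 2 := by
    intro x hx
    simp only [hgdef, gfun, norm_pow]
    gcongr
    have h1 := hbdd x hx
    have h2 := hbdd (τ x) (by rw [hπ]; exact hx)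
    calc _ ≤ ‖cinv c (π₂ x)‖ + ‖cinv c (π₂ (τ x))‖ := norm_sub_le _ _
      _ ≤ 2 * r⁻¹ := by linarith
  have hgd : ∀ x, π₁ x ∈ W₀ → MDifferentiableAt 𝓘(ℂ) 𝓘(ℂ) g x := by
    intro x hx
    have h1 := cinv_mdifferentiableAt c h₂.holo (hne_c x hx)
    have h2 := cinv_mdifferentiableAt c (h₂.holo.comp_diffeo τ) (p := x)
      (hne_c (τ x) (by rw [hπ]; exact hx))
    have h3 := h1.sub h2
    have h4 : DifferentiableAt ℂ (fun z : ℂ => z ^ 2)
      (((fun x => cinv c (π₂ x)) - (fun x => cinv c (π₂ (τ x)))) x) := by fun_prop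
    exact DifferentiableAt.comp_mdifferentiableAt h4 h3
  -- fibres
  have hfin : ∀ z ∈ (derivedSet B₁)ᶜ, (π₁ ⁻¹' {z}).Finite := by
    intro z hz
    by_cases hzB : z ∈ B₁
    · exact Set.finite_of_ncard_ne_zero (by rw [h₁.one z hzB]; norm_num)
    · exact Set.finite_of_ncard_ne_zero (by rw [h₁.two z ⟨hz, hzB⟩]; norm_num)
  have hgfib : ∀ x y, π₁ x = π₁ y → g x = g y := by
    intro x y hxy
    by_cases hxB : π₁ x ∈ B₁
    · obtain ⟨a, ha⟩ := Set.ncard_eq_one.1 (h₁.one _ hxB)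
      have hx : x ∈ π₁ ⁻¹' {π₁ x} := rfl
      have hy : y ∈ π₁ ⁻¹' {π₁ x} := hxy.symm
      rw [ha] at hx hy
      rw [mem_singleton_iff.1 hx, mem_singleton_iff.1 hy]
    · have hxO : π₁ x ∈ (derivedSet B₁)ᶜ := h₁.range_eq ▸ mem_range_self x
      by_cases hne : x = y
      · rw [hne]
      obtain ⟨a, b, hab, hS⟩ := Set.ncard_eq_two.1 (h₁.two _ ⟨hxO, hxB⟩)
      have hx : x ∈ π₁ ⁻¹' {π₁ x} := rfl
      have hy : y ∈ π₁ ⁻¹' {π₁ x} := hxy.symm
      have hx2 : τ x ∈ π₁ ⁻¹' {π₁ x} := hπ x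
      have hy2 : τ y ∈ π₁ ⁻¹' {π₁ x} := by
        show π₁ (τ y) = π₁ x
        rw [hπ, hxy]
      rw [hS] at hx hy hx2 hy2
      have hcase : τ x = x ∨ τ x = y := by
        simp only [mem_insert_iff, mem_singleton_iff] at hx hy hx2 hy2
        rcases hx with rfl | rfl <;> rcases hy with rfl | rfl <;> tauto
      have hcase2 : τ y = x ∨ τ y = y := by
        simp only [mem_insert_iff, mem_singleton_iff] at hx hy hx2 hy2
        rcases hx with rfl | rfl <;> rcases hy with rfl | rfl <;> tauto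
      rcases hcase with h | h
      · rcases hcase2 with h' | h'
        · exfalso
          apply hne
          rw [← hτ y, h', h]
        · simp only [hgdef, gfun, h, h', sub_self]
      · rw [← h, hgτ]
  -- the descended function
  set G : ℂ → ℂ := fun t => if h : ∃ x, π₁ x = e t then g h.choose else 0 with hGdef
  have hGg : ∀ t x, π₁ x = e t → G t = g x := by
    intro t x hx
    have hex : ∃ x, π₁ x = e t := ⟨x, hx⟩
    simp only [hGdef]
    rw [dif_pos hex]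
    exact hgfib _ _ (hex.choose_spec.trans hx.symm)
  set T : Set ℂ := e ⁻¹' W₀ \ {0} with hT
  have hT0 : e ⁻¹' W₀ ∈ 𝓝 (0 : ℂ) := by
    apply (hW₀o.preimage hg.e_cont).mem_nhds
    show e 0 ∈ W₀
    rw [← hg.κq, hg.eκ q hg.memD]
    exact hqW₀
  have hTO : ∀ t ∈ T, e t ≠ q ∧ ∃ x, π₁ x = e t := by
    intro t ht
    have h1 : e t ≠ q := by
      intro h
      apply ht.2
      rw [mem_singleton_iff, ← hg.κe t, h, hg.κq]
    refine ⟨h1, ?_⟩
    have h2 := hW₀O _ ht.1 h1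
    rw [← h₁.range_eq] at h2
    exact h2
  have hTo : IsOpen T := (hW₀o.preimage hg.e_cont).sdiff isClosed_singleton
  have hGc : ∀ t ∈ T, ContinuousAt G t := by
    intro t ht
    rw [Metric.continuousAt_iff']
    intro ε hε
    have hsub : π₁ ⁻¹' {e t} ⊆ interior {x | dist (g x) (G t) < ε} := by
      intro x hx
      rw [mem_interior_iff_mem_nhds]
      have hxW : π₁ x ∈ W₀ := by rw [show π₁ x = e t from hx]; exact ht.1
      have h1 : ContinuousAt g x := (hgd x hxW).continuousAt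
      rw [hGg t x hx]
      exact h1 (Metric.ball_mem_nhds _ hε)
    obtain ⟨N, hN, hNsub⟩ := tube h₁.holo.1 hO₁ h₁.proper (hW₀O _ ht.1 (hTO t ht).1)
      isOpen_interior hsub
    filter_upwards [hg.e_cont.continuousAt hN, hTo.mem_nhds ht] with s hs hsT
    obtain ⟨x, hx⟩ := (hTO s hsT).2
    rw [hGg s x hx]
    have : x ∈ π₁ ⁻¹' N := by
      show π₁ x ∈ N
      rw [hx]; exact hs
    have h3 : x ∈ {x | dist (g x) (G t) < ε} := interior_subset (hNsub this)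
    exact h3
  have hGa : ∀ t ∈ T, AnalyticAt ℂ G t := by
    intro t ht
    obtain ⟨x, hx⟩ := (hTO t ht).2
    have hxW : π₁ x ∈ W₀ := by rw [hx]; exact ht.1
    have hevW : ∀ᶠ y in 𝓝 x, π₁ y ∈ W₀ := h₁.holo.1.continuousAt.eventually (hW₀o.mem_nhds hxW)
    have aφ := analytic_chart (p := x) (f := fun y => κ (π₁ y))
      (hevW.mono fun y hy => hd π₁ h₁.holo y (hW₀D hy))
    have ag := analytic_chart (p := x) (f := g) (hevW.mono hgd)
    have hu0 : ((fun y => κ (π₁ y)) ∘ (chartAt ℂ x).symm) (chartAt ℂ x x) = t := by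
      simp only [Function.comp]
      rw [(chartAt ℂ x).left_inv (mem_chart_source ℂ x), hx, hg.κe]
    have hsymm : Tendsto (chartAt ℂ x).symm (𝓝 (chartAt ℂ x x)) (𝓝 x) := by
      have := (chartAt ℂ x).continuousAt_symm (mem_chart_target ℂ x)
      rwa [ContinuousAt, (chartAt ℂ x).left_inv (mem_chart_source ℂ x)] at this
    have := descend_analytic (G := G) aφ ag ?_ ?_ ?_
    · rwa [hu0] at this
    · intro hcon
      rw [hu0] at hcon
      refine not_mem_nhds_of_finite (hfin (e t) (hW₀O _ ht.1 (hTO t ht).1)) x ?_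
      have hc2 : Tendsto (chartAt ℂ x) (𝓝 x) (𝓝 (chartAt ℂ x x)) :=
        (chartAt ℂ x).continuousAt (mem_chart_source ℂ x)
      have hsrc : ∀ᶠ y in 𝓝 x, y ∈ (chartAt ℂ x).source :=
        (chartAt ℂ x).open_source.mem_nhds (mem_chart_source ℂ x)
      filter_upwards [hc2.eventually hcon, hsrc, hevW] with y hy hys hyW
      simp only [Function.comp] at hy
      rw [(chartAt ℂ x).left_inv hys] at hy
      show π₁ y = e t
      rw [← hy, hg.eκ _ (hW₀D hyW)]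
    · rw [hu0]; exact hGc t ht
    · filter_upwards [hsymm.eventually hevW] with u hu
      simp only [Function.comp]
      exact hGg _ _ (hg.eκ _ (hW₀D hu)).symm
  -- G vanishes near 0
  have hGzero : ∀ᶠ t in 𝓝[≠] (0 : ℂ), G t = 0 := by
    have hd1 : DifferentiableOn ℂ G (e ⁻¹' W₀ \ {0}) := fun t ht =>
      (hGa t ht).differentiableAt.differentiableWithinAt
    have hb1 : BddAbove (norm ∘ G '' (e ⁻¹' W₀ \ {0})) := by
      refine ⟨(2 * r⁻¹) ^ 2, ?_⟩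
      rintro _ ⟨t, ht, rfl⟩
      obtain ⟨x, hx⟩ := (hTO t ht).2
      show ‖G t‖ ≤ _
      rw [hGg t x hx]
      exact hgb x (by rw [hx]; exact ht.1)
    have hd2 := Complex.differentiableOn_update_limUnder_of_bddAbove hT0 hd1 hb1
    have ha2 : AnalyticAt ℂ (Function.update G 0 (limUnder (𝓝[≠] 0) G)) 0 :=
      hd2.analyticAt hT0
    have hκt : Tendsto κ (𝓝[≠] q) (𝓝[≠] (0 : ℂ)) := by
      refine tendsto_nhdsWithin_of_tendsto_nhds_of_eventually_within _ ?_ ?_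
      · have := (hg.κ_cont.continuousAt (hg.openD.mem_nhds hg.memD)).tendsto
        rw [hg.κq] at this
        exact this.mono_left nhdsWithin_le_nhds
      · filter_upwards [mem_nhdsWithin_of_mem_nhds (hg.openD.mem_nhds hg.memD),
          self_mem_nhdsWithin] with z hz hz2 hz3
        apply hz2
        rw [mem_singleton_iff] at hz3 ⊢
        rw [← hg.eκ z hz, hz3, ← hg.κq, hg.eκ q hg.memD]
    have hfreqB : ∃ᶠ z in 𝓝[≠] q, z ∈ B₁ := accPt_iff_frequently_nhdsNE.1 hq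
    have hfreq0 : ∃ᶠ t in 𝓝[≠] (0 : ℂ), Function.update G 0 (limUnder (𝓝[≠] 0) G) t = 0 := by
      refine hκt.frequently ?_
      have hev1 : ∀ᶠ z in 𝓝[≠] q, z ∈ W₀ ∧ z ∈ ({q}ᶜ : Set (OnePoint ℂ)) :=
        Filter.inter_mem (mem_nhdsWithin_of_mem_nhds (hW₀o.mem_nhds hqW₀)) self_mem_nhdsWithin
      refine (hfreqB.and_eventually hev1).mono ?_
      rintro z ⟨hzB, hzW, hzq⟩
      have hκz : κ z ≠ 0 := by
        intro h
        apply hzq
        rw [mem_singleton_iff, ← hg.eκ z (hW₀D hzW), h, ← hg.κq, hg.eκ q hg.memD]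
      rw [Function.update_of_ne hκz]
      obtain ⟨x, hx⟩ := Set.ncard_eq_one.1 (h₁.one z hzB)
      have hxz : x ∈ π₁ ⁻¹' {z} := by rw [hx]; rfl
      have hτx : τ x ∈ π₁ ⁻¹' {z} := by
        show π₁ (τ x) = z
        rw [hπ]; exact hxz
      rw [hx] at hτx
      rw [hGg (κ z) x (by rw [hg.eκ z (hW₀D hzW)]; exact hxz)]
      simp only [hgdef, gfun, mem_singleton_iff.1 hτx, sub_self]
      norm_num
    have hev := (ha2.frequently_zero_iff_eventually_zero).1 hfreq0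
    filter_upwards [mem_nhdsWithin_of_mem_nhds hev, self_mem_nhdsWithin] with t ht ht0
    rw [Function.update_of_ne ht0] at ht
    exact ht
  -- conclusion
  rw [eventually_nhdsWithin_iff] at hGzero
  obtain ⟨S, hS, hSo, h0S⟩ := eventually_nhds_iff.1 hGzero
  set U : Set R := π₁ ⁻¹' W₀ ∩ (fun x => κ (π₁ x)) ⁻¹' (S \ {0}) with hU
  have hUo : IsOpen U := by
    have h1 : ContinuousOn (fun x => κ (π₁ x)) (π₁ ⁻¹' W₀) :=
      hg.κ_cont.comp h₁.holo.1.continuousOn (fun x hx => hW₀D hx)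
    exact h1.isOpen_inter_preimage (hW₀o.preimage h₁.holo.1) (hSo.sdiff isClosed_singleton)
  have hUne : U.Nonempty := by
    have h1 : e ⁻¹' W₀ ∩ S ∈ 𝓝 (0 : ℂ) := Filter.inter_mem hT0 (hSo.mem_nhds h0S)
    have h2 : (e ⁻¹' W₀ ∩ S) ∩ {0}ᶜ ∈ 𝓝[≠] (0 : ℂ) :=
      Filter.inter_mem (mem_nhdsWithin_of_mem_nhds h1) self_mem_nhdsWithin
    obtain ⟨t, ht, ht0⟩ := Filter.nonempty_of_mem h2
    obtain ⟨x, hx⟩ := (hTO t ⟨ht.1, ht0⟩).2
    refine ⟨x, ?_, ?_⟩
    · show π₁ x ∈ W₀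
      rw [hx]; exact ht.1
    · show κ (π₁ x) ∈ S \ {0}
      rw [hx, hg.κe]
      exact ⟨ht.2, ht0⟩
  refine identity_sphere (h₂.holo.comp_diffeo τ) h₂.holo hUo hUne ?_
  rintro x ⟨hxW, hxS, hx0⟩
  have h1 : G (κ (π₁ x)) = 0 := hS _ hxS hx0
  rw [hGg (κ (π₁ x)) x (hg.eκ _ (hW₀D hxW)).symm] at h1
  simp only [hgdef, gfun] at h1
  have h2 := sub_eq_zero.1 (pow_eq_zero_iff (two_ne_zero)|>.1 h1)
  exact (cinv_injOn c (hne_c x hxW) (hne_c (τ x) (by rw [hπ]; exact hxW)) h2).symm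

end Pool.Agent.X184
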