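import Pool.Agent.X184.HypC

set_option autoImplicit false

open scoped Manifold ContDiff Topology
open OnePoint Set Filter

namespace Pool.Agent.X184

variable {R : Type*} [TopologicalSpace R] [ChartedSpace ℂ R]

/-- An automorphism compatible with the second projection is the second deck involution. -/
theorem eq_of_proj_eq [IsManifold 𝓘(ℂ) ω R] [PreconnectedSpace R] [T2Space R]
    {B : Set (OnePoint ℂ)} {π : R → OnePoint ℂ} (h : IsHyperellipticProjection B π)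
    (τ σ : R ≃ₘ^ω⟮𝓘(ℂ), 𝓘(ℂ)⟯ R) (hτ1 : ∃ p, τ p ≠ p) (hσ1 : ∃ p, σ p ≠ p)
    (hτ : ∀ p, π (τ p) = π p) (hσ : ∀ p, π (σ p) = π p) : τ = σ := by
  have hcase : ∀ p, τ p = p ∨ σ p = p ∨ τ p = σ p := by
    intro p
    by_cases hB : π p ∈ B
    · obtain ⟨a, ha⟩ := Set.ncard_eq_one.1 (h.one _ hB)
      have h1 : p ∈ π ⁻¹' {π p} := rfl
      have h2 : τ p ∈ π ⁻¹' {π p} := hτ p
      rw [ha] at h1 h2
      left
      rw [mem_singleton_iff.1 h1, ← mem_singleton_iff.1 h1, mem_singleton_iff.1 h2,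
        mem_singleton_iff.1 h1]
    · have hO : π p ∈ (derivedSet B)ᶜ := h.range_eq ▸ mem_range_self p
      obtain ⟨a, b, hab, hS⟩ := Set.ncard_eq_two.1 (h.two _ ⟨hO, hB⟩)
      have h1 : p ∈ π ⁻¹' {π p} := rfl
      have h2 : τ p ∈ π ⁻¹' {π p} := hτ p
      have h3 : σ p ∈ π ⁻¹' {π p} := hσ p
      rw [hS] at h1 h2 h3
      simp only [mem_insert_iff, mem_singleton_iff] at h1 h2 h3
      rcases h1 with h1 | h1 <;> rcases h2 with h2 | h2 <;> rcases h3 with h3 | h3 <;>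
        rw [h1] at h2 h3 ⊢ <;> rw [h2, h3] <;> tauto
  have hF1c : IsClosed {p | τ p = p} := isClosed_eq τ.continuous continuous_id
  have hF2c : IsClosed {p | σ p = p} := isClosed_eq σ.continuous continuous_id
  have hF1 : Dense {p | τ p = p}ᶜ := by
    rw [← interior_eq_empty_iff_dense_compl]
    by_contra hne
    obtain ⟨p, hp⟩ := hτ1
    apply hp
    exact identity_aut τ (Diffeomorph.refl 𝓘(ℂ) R ω) isOpen_interior
      (nonempty_iff_ne_empty.2 hne)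
      (fun x hx => show x ∈ {p | τ p = p} from interior_subset hx) p
  have hF2 : Dense {p | σ p = p}ᶜ := by
    rw [← interior_eq_empty_iff_dense_compl]
    by_contra hne
    obtain ⟨p, hp⟩ := hσ1
    apply hp
    exact identity_aut σ (Diffeomorph.refl 𝓘(ℂ) R ω) isOpen_interior
      (nonempty_iff_ne_empty.2 hne)
      (fun x hx => show x ∈ {p | σ p = p} from interior_subset hx) p
  have hF : Dense ({p | τ p = p}ᶜ ∩ {p | σ p = p}ᶜ) :=
    hF1.inter_of_isOpen_left hF2 hF1c.isOpen_compl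
  have hE : IsClosed {p | τ p = σ p} := isClosed_eq τ.continuous σ.continuous
  have hEu : {p | τ p = σ p} = univ := by
    have h1 : Dense {p | τ p = σ p} := by
      refine hF.mono ?_
      rintro p ⟨hp1, hp2⟩
      rcases hcase p with h | h | h
      · exact absurd h hp1
      · exact absurd h hp2
      · exact h
    rw [← hE.closure_eq, h1.closure_eq]
  ext p
  have : p ∈ {p | τ p = σ p} := hEu ▸ mem_univ p
  exact this

theorem unique_of_isolated [IsManifold 𝓘(ℂ) ω R] [PreconnectedSpace R] [T2Space R]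
    {τ₁ τ₂ : R ≃ₘ^ω⟮𝓘(ℂ), 𝓘(ℂ)⟯ R} {B : Set (OnePoint ℂ)}
    (h₁ : IsHyperellipticInvolutionWith τ₁ B) (h₂ : IsHyperellipticInvolution τ₂)
    {q : OnePoint ℂ} (hq : q ∈ derivedSet B) (hiso : ∃ W ∈ 𝓝 q, W ∩ derivedSet B ⊆ {q}) :
    τ₁ = τ₂ := by
  obtain ⟨π₁, hp₁, hn₁, hi₁, hd₁⟩ := h₁
  obtain ⟨B₂, π₂, hp₂, hn₂, hi₂, hd₂⟩ := h₂
  exact eq_of_proj_eq hp₂ τ₁ τ₂ hn₁ hn₂ (main_eq hp₁ hp₂ τ₁ hi₁ hd₁ hq hiso) hd₂

theorem exists_isolated_of_finite {B : Set (OnePoint ℂ)} (hB : B.Infinite)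
    (hfin : (derivedSet B).Finite) :
    ∃ q ∈ derivedSet B, ∃ W ∈ 𝓝 q, W ∩ derivedSet B ⊆ {q} := by
  obtain ⟨q, hq⟩ := hB.exists_accPt_principal
  refine ⟨q, hq, (derivedSet B \ {q})ᶜ, ?_, ?_⟩
  · exact (hfin.subset sdiff_subset).isClosed.isOpen_compl.mem_nhds (fun h => h.2 rfl)
  · rintro x ⟨hx1, hx2⟩
    by_contra hne
    exact hx1 ⟨hx2, hne⟩

end Pool.Agent.X184
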