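import Mathlib

set_option autoImplicit false

open scoped Manifold ContDiff Topology
open OnePoint Set Filter

namespace Pool.Agent.X184

/-- The affine coordinate `z` on the Riemann sphere `OnePoint ℂ` (with junk value `0` at `∞`). -/
noncomputable def coordZ (w : OnePoint ℂ) : ℂ := w.elim 0 (fun z => z)

/-- The coordinate `1 / z` at `∞` on the Riemann sphere `OnePoint ℂ`: it takes the value `0` at `∞`
(and has the junk value `0` at `0`). -/
noncomputable def coordInv (w : OnePoint ℂ) : ℂ := w.elim 0 (fun z => z⁻¹)

/-- A map `f` from a Riemann surface `R` to the Riemann sphere `OnePoint ℂ` is holomorphic: it is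
continuous, `z ∘ f` is holomorphic near each point where `f ≠ ∞`, and `(1/z) ∘ f` is holomorphic
near each point where `f ≠ 0`. -/
def HolomorphicToSphere {R : Type*} [TopologicalSpace R] [ChartedSpace ℂ R]
    (f : R → OnePoint ℂ) : Prop :=
  Continuous f ∧
    (∀ p, f p ≠ (∞ : OnePoint ℂ) → MDifferentiableAt 𝓘(ℂ) 𝓘(ℂ) (fun q => coordZ (f q)) p) ∧
    (∀ p, f p ≠ ((0 : ℂ) : OnePoint ℂ) →
      MDifferentiableAt 𝓘(ℂ) 𝓘(ℂ) (fun q => coordInv (f q)) p)

/-- `π : R → Ĉ ∖ B'` is a holomorphic branched covering of degree two whose set of branch values is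
exactly `B`, where `B` is an infinite discrete subset of the Riemann sphere whose set `B'` of
accumulation points has connected complement.  (A branched covering of degree two is the same as a
proper surjective holomorphic map onto `Ĉ ∖ B'` such that the fibre over a point is a singleton when the
point is a branch value and has exactly two elements otherwise.) -/
structure IsHyperellipticProjection {R : Type*} [TopologicalSpace R] [ChartedSpace ℂ R]
    (B : Set (OnePoint ℂ)) (π : R → OnePoint ℂ) : Prop where
  /-- the set of branch values is infinite -/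
  infinite : B.Infinite
  /-- the set of branch values is discrete -/
  discrete : DiscreteTopology B
  /-- the complement of the set of accumulation points is connected -/
  connected : IsConnected (derivedSet B)ᶜ
  /-- `π` is holomorphic -/
  holo : HolomorphicToSphere π
  /-- `π` maps `R` onto `Ĉ ∖ B'` -/
  range_eq : range π = (derivedSet B)ᶜ
  /-- `π` is proper as a map onto `Ĉ ∖ B'` -/
  proper : ∀ K : Set (OnePoint ℂ), K ⊆ (derivedSet B)ᶜ → IsCompact K → IsCompact (π ⁻¹' K)
  /-- over a branch value there is exactly one point -/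
  one : ∀ b ∈ B, (π ⁻¹' {b}).ncard = 1
  /-- over any other point there are exactly two points -/
  two : ∀ z ∈ (derivedSet B)ᶜ \ B, (π ⁻¹' {z}).ncard = 2

/-- `τ ∈ Aut(R)` is a hyperelliptic involution of `R` whose branched covering has set of branch
values `B` (so that `derivedSet B` is the limit set attached to `τ`): `τ` is a conformal
automorphism of order two which is a deck transformation of a holomorphic branched covering
`π : R → Ĉ ∖ B'` of degree two with set of branch values `B`. -/
def IsHyperellipticInvolutionWith {R : Type*} [TopologicalSpace R] [ChartedSpace ℂ R]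
    (τ : R ≃ₘ^ω⟮𝓘(ℂ), 𝓘(ℂ)⟯ R) (B : Set (OnePoint ℂ)) : Prop :=
  ∃ π : R → OnePoint ℂ, IsHyperellipticProjection B π ∧
    (∃ p, τ p ≠ p) ∧ (∀ p, τ (τ p) = p) ∧ ∀ p, π (τ p) = π p

/-- `τ ∈ Aut(R)` is a hyperelliptic involution of `R`, for some choice of `B` and `π`. -/
def IsHyperellipticInvolution {R : Type*} [TopologicalSpace R] [ChartedSpace ℂ R]
    (τ : R ≃ₘ^ω⟮𝓘(ℂ), 𝓘(ℂ)⟯ R) : Prop :=
  ∃ B : Set (OnePoint ℂ), IsHyperellipticInvolutionWith τ B

end Pool.Agent.X184
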